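import Mathlib

/-!
# Open families of convex sets over a compact space
-/

set_option autoImplicit false

open Set Filter Topology

noncomputable section

namespace Pool.Agent.V7H58.SF

theorem slice_open {D B : Type} [TopologicalSpace D] [TopologicalSpace B] {S : D → Set B}
    (h : IsOpen {q : D × B | q.2 ∈ S q.1}) (z : D) : IsOpen (S z) := by
  have h1 : Continuous fun t : B => (z, t) := by fun_prop
  exact h.preimage h1

/-- the one-dimensional case -/
theorem oneD {D : Type} [TopologicalSpace D] [CompactSpace D] (I : D → Set ℝ)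
    (hopen : IsOpen {q : D × ℝ | q.2 ∈ I q.1}) (hconv : ∀ z, Convex ℝ (I z))
    (hpair : ∀ z w, (I z ∩ I w).Nonempty) : ∃ s, ∀ z, s ∈ I z := by
  rcases isEmpty_or_nonempty D with hD | ⟨⟨z₀⟩⟩
  · exact ⟨0, fun z => (IsEmpty.false z).elim⟩
  obtain ⟨U, hU⟩ : ∃ U : Set ℝ, U = {u | ∃ z, ∀ x ∈ I z, u ≤ x} := ⟨_, rfl⟩
  obtain ⟨V, hV⟩ : ∃ V : Set ℝ, V = {u | ∃ z, ∀ x ∈ I z, x ≤ u} := ⟨_, rfl⟩
  have fU : IsClosed {q : D × ℝ | ∀ x ∈ I q.1, q.2 ≤ x} := by
    have h1 : IsOpen {q : (D × ℝ) × ℝ | q.2 ∈ I q.1.1 ∧ q.2 < q.1.2} := by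
      have h2 : Continuous fun q : (D × ℝ) × ℝ => (q.1.1, q.2) := by fun_prop
      have h3 : IsOpen {q : (D × ℝ) × ℝ | q.2 < q.1.2} :=
        isOpen_lt continuous_snd (continuous_snd.comp continuous_fst)
      exact (hopen.preimage h2).inter h3
    have h3 := isOpenMap_fst _ h1
    have h4 : {q : D × ℝ | ∀ x ∈ I q.1, q.2 ≤ x} =
        (Prod.fst '' {q : (D × ℝ) × ℝ | q.2 ∈ I q.1.1 ∧ q.2 < q.1.2})ᶜ := by
      ext q
      constructor
      · rintro h ⟨⟨q', x⟩, ⟨h5, h6⟩, rfl⟩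
        exact absurd (h x h5) (not_le.2 h6)
      · intro h x hx
        by_contra h5
        exact h ⟨(q, x), ⟨hx, not_le.1 h5⟩, rfl⟩
    rw [h4]
    exact h3.isClosed_compl
  have fV : IsClosed {q : D × ℝ | ∀ x ∈ I q.1, x ≤ q.2} := by
    have h1 : IsOpen {q : (D × ℝ) × ℝ | q.2 ∈ I q.1.1 ∧ q.1.2 < q.2} := by
      have h2 : Continuous fun q : (D × ℝ) × ℝ => (q.1.1, q.2) := by fun_prop
      have h3 : IsOpen {q : (D × ℝ) × ℝ | q.1.2 < q.2} :=
        isOpen_lt (continuous_snd.comp continuous_fst) continuous_snd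
      exact (hopen.preimage h2).inter h3
    have h3 := isOpenMap_fst _ h1
    have h4 : {q : D × ℝ | ∀ x ∈ I q.1, x ≤ q.2} =
        (Prod.fst '' {q : (D × ℝ) × ℝ | q.2 ∈ I q.1.1 ∧ q.1.2 < q.2})ᶜ := by
      ext q
      constructor
      · rintro h ⟨⟨q', x⟩, ⟨h5, h6⟩, rfl⟩
        exact absurd (h x h5) (not_le.2 h6)
      · intro h x hx
        by_contra h5
        exact h ⟨(q, x), ⟨hx, not_le.1 h5⟩, rfl⟩
    rw [h4]
    exact h3.isClosed_compl
  have cU : IsClosed U := by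
    have h1 := isClosedMap_snd_of_compactSpace (X := D) (Y := ℝ) _ fU
    have h2 : U = Prod.snd '' {q : D × ℝ | ∀ x ∈ I q.1, q.2 ≤ x} := by
      rw [hU]
      ext u
      constructor
      · rintro ⟨z, hz⟩
        exact ⟨(z, u), hz, rfl⟩
      · rintro ⟨⟨z, u'⟩, hz, rfl⟩
        exact ⟨z, hz⟩
    rw [h2]
    exact h1
  have cV : IsClosed V := by
    have h1 := isClosedMap_snd_of_compactSpace (X := D) (Y := ℝ) _ fV
    have h2 : V = Prod.snd '' {q : D × ℝ | ∀ x ∈ I q.1, x ≤ q.2} := by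
      rw [hV]
      ext u
      constructor
      · rintro ⟨z, hz⟩
        exact ⟨(z, u), hz, rfl⟩
      · rintro ⟨⟨z, u'⟩, hz, rfl⟩
        exact ⟨z, hz⟩
    rw [h2]
    exact h1
  have hdis : ∀ u, u ∈ U → u ∉ V := by
    rw [hU, hV]
    rintro u ⟨z, hz⟩ ⟨w, hw⟩
    obtain ⟨x, hx⟩ := hpair z w
    have ho : IsOpen (I z ∩ I w) := (slice_open hopen z).inter (slice_open hopen w)
    obtain ⟨ε, hε, hb⟩ := Metric.isOpen_iff.1 ho x hx
    have h1 : x + ε / 2 ∈ I z ∩ I w := hb (by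
      rw [Metric.mem_ball, Real.dist_eq, add_sub_cancel_left, abs_of_pos (half_pos hε)]
      linarith)
    have h2 := hz x hx.1
    have h3 := hw _ h1.2
    linarith
  have hU1 : U ≠ univ := by
    intro h
    have hne : ∀ n : ℕ, {z : D | ∀ x ∈ I z, (n : ℝ) ≤ x}.Nonempty := by
      intro n
      have h2 : (n : ℝ) ∈ U := by rw [h]; exact mem_univ _
      rw [hU] at h2
      exact h2
    have hcl : ∀ n : ℕ, IsClosed {z : D | ∀ x ∈ I z, (n : ℝ) ≤ x} := by
      intro n
      have h2 : Continuous fun z : D => (z, (n : ℝ)) := by fun_prop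
      exact fU.preimage h2
    obtain ⟨z, hz⟩ := IsCompact.nonempty_iInter_of_directed_nonempty_isCompact_isClosed
      (fun n : ℕ => {z : D | ∀ x ∈ I z, (n : ℝ) ≤ x}) (by
        intro m n
        refine ⟨max m n, fun z hz x hx => ?_, fun z hz x hx => ?_⟩
        · refine le_trans ?_ (hz x hx)
          exact_mod_cast le_max_left m n
        · refine le_trans ?_ (hz x hx)
          exact_mod_cast le_max_right m n) hne (fun n => (hcl n).isCompact) hcl
    obtain ⟨x, hx, -⟩ := hpair z z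
    obtain ⟨n, hn⟩ := exists_nat_gt x
    have h3 := mem_iInter.1 hz n x hx
    linarith
  have hV1 : V ≠ univ := by
    intro h
    have hne : ∀ n : ℕ, {z : D | ∀ x ∈ I z, x ≤ -(n : ℝ)}.Nonempty := by
      intro n
      have h2 : -(n : ℝ) ∈ V := by rw [h]; exact mem_univ _
      rw [hV] at h2
      exact h2
    have hcl : ∀ n : ℕ, IsClosed {z : D | ∀ x ∈ I z, x ≤ -(n : ℝ)} := by
      intro n
      have h2 : Continuous fun z : D => (z, -(n : ℝ)) := by fun_prop
      exact fV.preimage h2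
    obtain ⟨z, hz⟩ := IsCompact.nonempty_iInter_of_directed_nonempty_isCompact_isClosed
      (fun n : ℕ => {z : D | ∀ x ∈ I z, x ≤ -(n : ℝ)}) (by
        intro m n
        refine ⟨max m n, fun z hz x hx => ?_, fun z hz x hx => ?_⟩
        · refine le_trans (hz x hx) ?_
          have : (m : ℝ) ≤ (max m n : ℕ) := by exact_mod_cast le_max_left m n
          linarith
        · refine le_trans (hz x hx) ?_
          have : (n : ℝ) ≤ (max m n : ℕ) := by exact_mod_cast le_max_right m n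
          linarith) hne (fun n => (hcl n).isCompact) hcl
    obtain ⟨x, hx, -⟩ := hpair z z
    obtain ⟨n, hn⟩ := exists_nat_gt (-x)
    have h3 := mem_iInter.1 hz n x hx
    linarith
  have key : ∃ s, s ∉ U ∧ s ∉ V := by
    by_contra hcon
    push Not at hcon
    have h1 : Uᶜ = V := by
      ext s
      exact ⟨fun h => hcon s h, fun h h' => hdis s h' h⟩
    have h2 : IsClopen U := ⟨cU, by rw [← isClosed_compl_iff, h1]; exact cV⟩
    rcases isClopen_iff.1 h2 with h3 | h3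
    · rw [h3, compl_empty] at h1
      exact hV1 h1.symm
    · exact hU1 h3
  obtain ⟨s, hs1, hs2⟩ := key
  refine ⟨s, fun z => ?_⟩
  rw [hU] at hs1
  rw [hV] at hs2
  obtain ⟨x, hx, hx'⟩ : ∃ x, x ∈ I z ∧ x < s := by
    by_contra hcon
    push Not at hcon
    exact hs1 ⟨z, hcon⟩
  obtain ⟨y, hy, hy'⟩ : ∃ y, y ∈ I z ∧ s < y := by
    by_contra hcon
    push Not at hcon
    exact hs2 ⟨z, hcon⟩
  exact (hconv z).ordConnected.out hx hy ⟨hx'.le, hy'.le⟩

/-- open families of convex sets over a compact space with the finite intersection property -/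
theorem open_convex_inter (b : ℕ) : ∀ (D : Type) [TopologicalSpace D] [CompactSpace D]
    (S : D → Set (Fin b → ℝ)), IsOpen {q : D × (Fin b → ℝ) | q.2 ∈ S q.1} →
    (∀ z, Convex ℝ (S z)) → (∀ F : Finset D, ∃ t, ∀ z ∈ F, t ∈ S z) → ∃ t, ∀ z, t ∈ S z := by
  classical
  induction b with
  | zero =>
    intro D _ _ S _ _ hF
    refine ⟨0, fun z => ?_⟩
    obtain ⟨t, ht⟩ := hF {z}
    have h1 := ht z (Finset.mem_singleton_self z)
    rwa [Subsingleton.elim t 0] at h1
  | succ b ih =>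
    intro D _ _ S hS hc hF
    have hcont : Continuous fun q : ℝ × (Fin b → ℝ) => (Fin.cons q.1 q.2 : Fin (b + 1) → ℝ) := by
      refine continuous_pi fun i => ?_
      refine Fin.cases ?_ (fun j => ?_) i
      · simpa using continuous_fst
      · simp only [Fin.cons_succ]
        fun_prop
    obtain ⟨S', hS'⟩ : ∃ S' : D × D → Set (Fin b → ℝ), S' = fun q => {t | ∃ s : ℝ,
      (Fin.cons s t : Fin (b + 1) → ℝ) ∈ S q.1 ∧ (Fin.cons s t : Fin (b + 1) → ℝ) ∈ S q.2} :=
      ⟨_, rfl⟩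
    have h1 : IsOpen {q : (D × D) × (Fin b → ℝ) | q.2 ∈ S' q.1} := by
      have h2 : IsOpen {q : ((D × D) × (Fin b → ℝ)) × ℝ |
          (Fin.cons q.2 q.1.2 : Fin (b + 1) → ℝ) ∈ S q.1.1.1 ∧
          (Fin.cons q.2 q.1.2 : Fin (b + 1) → ℝ) ∈ S q.1.1.2} := by
        have c0 : Continuous fun q : ((D × D) × (Fin b → ℝ)) × ℝ =>
            (Fin.cons q.2 q.1.2 : Fin (b + 1) → ℝ) :=
          hcont.comp (by fun_prop : Continuous fun q : ((D × D) × (Fin b → ℝ)) × ℝ =>
            (q.2, q.1.2))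
        have c1 : Continuous fun q : ((D × D) × (Fin b → ℝ)) × ℝ =>
            (q.1.1.1, (Fin.cons q.2 q.1.2 : Fin (b + 1) → ℝ)) :=
          (by fun_prop : Continuous fun q : ((D × D) × (Fin b → ℝ)) × ℝ => q.1.1.1).prodMk c0
        have c2 : Continuous fun q : ((D × D) × (Fin b → ℝ)) × ℝ =>
            (q.1.1.2, (Fin.cons q.2 q.1.2 : Fin (b + 1) → ℝ)) :=
          (by fun_prop : Continuous fun q : ((D × D) × (Fin b → ℝ)) × ℝ => q.1.1.2).prodMk c0
        exact (hS.preimage c1).inter (hS.preimage c2)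
      have h3 := isOpenMap_fst _ h2
      have h4 : {q : (D × D) × (Fin b → ℝ) | q.2 ∈ S' q.1} =
          Prod.fst '' {q : ((D × D) × (Fin b → ℝ)) × ℝ |
          (Fin.cons q.2 q.1.2 : Fin (b + 1) → ℝ) ∈ S q.1.1.1 ∧
          (Fin.cons q.2 q.1.2 : Fin (b + 1) → ℝ) ∈ S q.1.1.2} := by
        rw [hS']
        ext q
        constructor
        · rintro ⟨s, h5, h6⟩
          exact ⟨(q, s), ⟨h5, h6⟩, rfl⟩
        · rintro ⟨⟨q', s⟩, ⟨h5, h6⟩, rfl⟩
          exact ⟨s, h5, h6⟩
      rw [h4]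
      exact h3
    have hcomb : ∀ (a a' s s' : ℝ) (t t' : Fin b → ℝ),
        (Fin.cons (a * s + a' * s') (a • t + a' • t') : Fin (b + 1) → ℝ) =
          a • (Fin.cons s t : Fin (b + 1) → ℝ) + a' • (Fin.cons s' t' : Fin (b + 1) → ℝ) := by
      intro a a' s s' t t'
      funext i
      refine Fin.cases ?_ (fun j => ?_) i
      · simp
      · simp
    have h2 : ∀ q, Convex ℝ (S' q) := by
      intro q
      rw [hS']
      rintro t ⟨s, g1, g2⟩ t' ⟨s', g1', g2'⟩ a a' ha ha' haa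
      refine ⟨a * s + a' * s', ?_, ?_⟩
      · rw [hcomb]
        exact hc q.1 g1 g1' ha ha' haa
      · rw [hcomb]
        exact hc q.2 g2 g2' ha ha' haa
    obtain ⟨t, ht⟩ := ih (D × D) S' h1 h2 (fun F => by
      obtain ⟨p, hp⟩ := hF (F.image Prod.fst ∪ F.image Prod.snd)
      refine ⟨Fin.tail p, fun q hq => ?_⟩
      rw [hS']
      refine ⟨p 0, ?_, ?_⟩
      · rw [Fin.cons_self_tail]
        exact hp _ (Finset.mem_union_left _ (Finset.mem_image_of_mem _ hq))
      · rw [Fin.cons_self_tail]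
        exact hp _ (Finset.mem_union_right _ (Finset.mem_image_of_mem _ hq)))
    rw [hS'] at ht
    obtain ⟨s, hs⟩ := oneD (fun z => {s : ℝ | (Fin.cons s t : Fin (b + 1) → ℝ) ∈ S z})
      (by
        have c1 : Continuous fun q : D × ℝ => (q.1, (Fin.cons q.2 t : Fin (b + 1) → ℝ)) :=
          continuous_fst.prodMk (hcont.comp (by fun_prop : Continuous fun q : D × ℝ =>
            (q.2, t)))
        exact hS.preimage c1)
      (fun z => by
        rintro s g1 s' g1' a a' ha ha' haa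
        have h3 := hc z g1 g1' ha ha' haa
        rw [← hcomb, ← add_smul, haa, one_smul] at h3
        exact h3)
      (fun z w => by
        obtain ⟨s, g1, g2⟩ := ht (z, w)
        exact ⟨s, g1, g2⟩)
    exact ⟨_, hs⟩

/-- Helly's theorem for open families of convex sets over a compact space -/
theorem helly_open (b : ℕ) {D : Type} [TopologicalSpace D] [CompactSpace D]
    (S : D → Set (Fin b → ℝ)) (hS : IsOpen {q : D × (Fin b → ℝ) | q.2 ∈ S q.1})
    (hc : ∀ z, Convex ℝ (S z)) (h : ∀ z : Fin (b + 1) → D, ∃ t, ∀ j, t ∈ S (z j)) :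
    ∃ t, ∀ z, t ∈ S z := by
  classical
  rcases isEmpty_or_nonempty D with hD | ⟨⟨z₀⟩⟩
  · exact ⟨0, fun z => (IsEmpty.false z).elim⟩
  refine open_convex_inter b D S hS hc fun F => ?_
  obtain ⟨t, ht⟩ := Convex.helly_theorem' (𝕜 := ℝ) (E := Fin b → ℝ) (F := S) (s := F)
    (fun z _ => hc z) (fun I _ hI => by
      rw [Module.finrank_fin_fun] at hI
      -- enumerate I
      obtain ⟨f, hf⟩ : ∃ f : Fin (b + 1) → D, ∀ z ∈ I, ∃ j, f j = z := by
        have h1 : I.toList.length ≤ b + 1 := by rw [Finset.length_toList]; exact hI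
        refine ⟨fun j => I.toList.getD j.1 z₀, fun z hz => ?_⟩
        obtain ⟨k, hk, hkz⟩ := List.getElem_of_mem (Finset.mem_toList.2 hz)
        refine ⟨⟨k, by omega⟩, ?_⟩
        simp only
        rw [List.getD_eq_getElem _ _ hk, hkz]
      obtain ⟨t, ht⟩ := h f
      refine ⟨t, mem_iInter₂.2 fun z hz => ?_⟩
      obtain ⟨j, hj⟩ := hf z hz
      rw [← hj]
      exact ht j)
  exact ⟨t, fun z hz => mem_iInter₂.1 ht z hz⟩

end Pool.Agent.V7H58.SF
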