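import Pool.Agent.V7H58.SF.Cone3
import Pool.Agent.V7H58.SF.Helly

/-!
# Families of forms which are positive on the kernels: openness, semicontinuity
-/

set_option autoImplicit false

open Set Filter Topology MeasureTheory
open scoped Manifold ContDiff

noncomputable section

namespace Pool.Agent.V7H58.SF

open Pool.Agent.Y501.SY Pool.Agent.Y455.SY
open Pool.Agent.Q130.SF (nd mix ext2 cutoff pb_apply2 alt2_smul nd_iff GoodAt)

variable {d : ℕ} {X : Type} [TopologicalSpace X] [ChartedSpace (E d) X]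

/-- the affine family of forms -/
def fam {b : ℕ} (ζ₀ : Form d X 2) (ζ : Fin b → Form d X 2) (t : Fin b → ℝ) : Form d X 2 :=
  ζ₀ + ∑ k, t k • ζ k

theorem fam_val {b : ℕ} (ζ₀ : Form d X 2) (ζ : Fin b → Form d X 2) (t : Fin b → ℝ) (x : X) :
    fam ζ₀ ζ t x = ζ₀ x + ∑ k, t k • ζ k x := by
  unfold fam
  rw [Pi.add_apply, Finset.sum_apply]
  rfl

theorem fam_apply {b : ℕ} (ζ₀ : Form d X 2) (ζ : Fin b → Form d X 2) (t : Fin b → ℝ) (x : X)
    (v w : TangentSpace (𝓡 d) x) :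
    fam ζ₀ ζ t x ![v, w] = ζ₀ x ![v, w] + ∑ k, t k * ζ k x ![v, w] := by
  have h : fam ζ₀ ζ t x = ζ₀ x + ∑ k, t k • ζ k x := by
    unfold fam
    rw [Pi.add_apply, Finset.sum_apply]
    rfl
  rw [h, ContinuousAlternatingMap.add_apply, ContinuousAlternatingMap.sum_apply]
  rfl

theorem fam_add {b : ℕ} (ζ₀ : Form d X 2) (ζ : Fin b → Form d X 2) (t : Fin b → ℝ)
    (ρ : Form d X 2) : fam ζ₀ ζ t + ρ = fam (ζ₀ + ρ) ζ t := by
  unfold fam
  rw [add_right_comm]

variable {σ : Form d X 2} {J : End d X} [IsManifold (𝓡 d) ∞ X]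

omit [IsManifold (𝓡 d) ∞ X] in
theorem fam_smooth {b : ℕ} {ζ₀ : Form d X 2} {ζ : Fin b → Form d X 2} (h₀ : IsSmooth ζ₀)
    (hζ : ∀ k, IsSmooth (ζ k)) (t : Fin b → ℝ) : IsSmooth (fam ζ₀ ζ t) := by
  classical
  refine h₀.add ?_
  induction (Finset.univ : Finset (Fin b)) using Finset.induction_on with
  | empty => exact IsSmooth.zero
  | insert a s ha ih =>
    rw [Finset.sum_insert ha]
    exact ((hζ a).smul (t a)).add ih

/-- joint openness of positivity -/
theorem isOpen_posK_fam (hσ : IsSmooth σ) (hJ : IsAlmostComplex J) {b : ℕ} {ζ₀ : Form d X 2}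
    {ζ : Fin b → Form d X 2} (h₀ : IsSmooth ζ₀) (hζ : ∀ k, IsSmooth (ζ k)) :
    IsOpen {q : X × (Fin b → ℝ) | PosK σ J (fam ζ₀ ζ q.2) q.1} := by
  rw [isOpen_iff_eventually]
  rintro ⟨x, t⟩ hx
  have hxs : x ∈ (chartAt (E d) x).source := mem_chart_source (E d) x
  have hp : chartAt (E d) x x ∈ (chartAt (E d) x).target := mem_chart_target (E d) x
  have hx' : PosK σ J (fam ζ₀ ζ t) ((chartAt (E d) x).symm (chartAt (E d) x x)) := by
    rw [(chartAt (E d) x).left_inv hxs]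
    exact hx
  rw [posK_chart σ _ J x hp] at hx'
  change ∀ᶠ q in 𝓝 (x, t), PosK σ J (fam ζ₀ ζ q.2) q.1
  obtain ⟨A, hA⟩ : ∃ A : E d → (E d) [⋀^Fin 2]→L[ℝ] ℝ, A = pb (chartAt (E d) x).symm σ := ⟨_, rfl⟩
  have cA : ContinuousAt A (chartAt (E d) x x) := by rw [hA]; exact pb_contAt hσ x hp
  have c4 : ∀ v : E d, ContinuousAt (fun z : (E d × (Fin b → ℝ)) × E d => (z.1.1, z.2))
      ((chartAt (E d) x x, t), v) := fun v => by fun_prop
  have cQ : ∀ {η : Form d X 2}, IsSmooth η → ∀ v : E d,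
      ContinuousAt (fun z : (E d × (Fin b → ℝ)) × E d => Q η J x z.1.1 z.2)
        ((chartAt (E d) x x, t), v) := by
    intro η hη v
    exact ContinuousAt.comp (f := fun z : (E d × (Fin b → ℝ)) × E d => (z.1.1, z.2))
      (x := ((chartAt (E d) x x, t), v)) (g := fun z : E d × E d => Q η J x z.1 z.2)
      (Q_cont hη hJ x hp (v := v)) (c4 v)
  have key := (isCompact_sphere (0 : E d) 1).eventually_forall_of_forall_eventually
    (x₀ := (chartAt (E d) x x, t)) (P := fun p v => (∃ u : E d, A p.1 ![v, u] ≠ 0) ∨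
      0 < Q (fam ζ₀ ζ p.2) J x p.1 v)
    (by
      intro v hv
      have hv0 : v ≠ 0 := by rintro rfl; simp at hv
      by_cases h1 : ∃ u : E d, A (chartAt (E d) x x) ![v, u] ≠ 0
      · obtain ⟨u, hu⟩ := h1
        have h2 : ContinuousAt (fun z : (E d × (Fin b → ℝ)) × E d => A z.1.1 ![z.2, u])
            ((chartAt (E d) x x, t), v) :=
          ContinuousAt.comp (f := fun z : (E d × (Fin b → ℝ)) × E d => (z.1.1, z.2))
            (x := ((chartAt (E d) x x, t), v)) (g := fun z : E d × E d => A z.1 ![z.2, u])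
            (app_contAt1 cA v u) (c4 v)
        filter_upwards [h2.eventually_ne hu] with z hz
        exact Or.inl ⟨u, hz⟩
      · push Not at h1
        have h2 : 0 < Q (fam ζ₀ ζ t) J x (chartAt (E d) x x) v :=
          hx' v (fun u => by rw [← hA]; exact h1 u) hv0
        have h3 : ContinuousAt (fun z : (E d × (Fin b → ℝ)) × E d =>
            Q (fam ζ₀ ζ z.1.2) J x z.1.1 z.2) ((chartAt (E d) x x, t), v) := by
          have h4 : (fun z : (E d × (Fin b → ℝ)) × E d => Q (fam ζ₀ ζ z.1.2) J x z.1.1 z.2) =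
              fun z => Q ζ₀ J x z.1.1 z.2 + ∑ k, z.1.2 k * Q (ζ k) J x z.1.1 z.2 := by
            funext z
            exact Q_sum ζ₀ ζ z.1.2 J x z.1.1 z.2
          rw [h4]
          refine (cQ h₀ v).add (tendsto_finsetSum _ fun k _ => ?_)
          have h5 : ContinuousAt (fun z : (E d × (Fin b → ℝ)) × E d => z.1.2 k)
              ((chartAt (E d) x x, t), v) := by fun_prop
          exact h5.mul (cQ (hζ k) v)
        filter_upwards [h3.eventually (lt_mem_nhds h2)] with z hz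
        exact Or.inr hz)
  have tc : Tendsto (fun q : X × (Fin b → ℝ) => (chartAt (E d) x q.1, q.2)) (𝓝 (x, t))
      (𝓝 (chartAt (E d) x x, t)) := by
    have h1 : ContinuousAt (chartAt (E d) x) x := (chartAt (E d) x).continuousAt hxs
    have h2 : ContinuousAt (fun q : X × (Fin b → ℝ) => chartAt (E d) x q.1) (x, t) :=
      ContinuousAt.comp (f := Prod.fst) (x := (x, t)) h1 continuousAt_fst
    exact h2.prodMk continuousAt_snd
  have ts : ∀ᶠ q in 𝓝 (x, t), q.1 ∈ (chartAt (E d) x).source :=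
    (continuousAt_fst (p := (x, t))).eventually ((chartAt (E d) x).open_source.mem_nhds hxs)
  filter_upwards [tc.eventually key, ts] with q hq hqs
  have hpt : chartAt (E d) x q.1 ∈ (chartAt (E d) x).target := (chartAt (E d) x).map_source hqs
  have e0 : (chartAt (E d) x).symm (chartAt (E d) x q.1) = q.1 := (chartAt (E d) x).left_inv hqs
  have h0 : PosK σ J (fam ζ₀ ζ q.2) ((chartAt (E d) x).symm (chartAt (E d) x q.1)) := by
    rw [posK_chart σ _ J x hpt]
    intro v hv hv0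
    have nv : 0 < ‖v‖ := norm_pos_iff.2 hv0
    have uv : ‖‖v‖⁻¹ • v‖ = 1 := by
      rw [norm_smul, norm_inv, norm_norm, inv_mul_cancel₀ nv.ne']
    rcases hq (‖v‖⁻¹ • v) (mem_sphere_zero_iff_norm.2 uv) with ⟨u, hu⟩ | h
    · exfalso
      apply hu
      show A (chartAt (E d) x q.1) ![‖v‖⁻¹ • v, u] = 0
      rw [alt2_smul, hA, hv u, mul_zero]
    · rw [Q_smul] at h
      exact (mul_pos_iff_of_pos_left (by positivity)).1 h
  rwa [e0] at h0

/-- semicontinuity of the components of the fibres -/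
theorem comp_usc [CompactSpace X] [T2Space X] (hσ : IsSmooth σ) {z : X} (hz : z ∈ Dg σ)
    {U : Set X} (hU : IsOpen U) (h : connectedComponentIn (Fib σ z) z ⊆ U) :
    ∃ N ∈ 𝓝 z, ∀ y ∈ N, y ∈ Dg σ → connectedComponentIn (Fib σ y) y ⊆ U := by
  have hF : IsCompact (Fib σ z) := (isClosed_Fib hσ z).isCompact
  have : CompactSpace ↥(Fib σ z) := isCompact_iff_compactSpace.1 hF
  have hzF : z ∈ Fib σ z := Fib.self hz
  obtain ⟨s, hs, hzs, hsU⟩ := comp_clopen (⟨z, hzF⟩ : ↥(Fib σ z))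
    (hU.preimage continuous_subtype_val) (by
      intro x hx
      apply h
      rw [connectedComponentIn_eq_image hzF]
      exact ⟨x, hx, rfl⟩)
  have c1 : IsCompact (Subtype.val '' s) := hs.isClosed.isCompact.image continuous_subtype_val
  have c2 : IsCompact (Subtype.val '' sᶜ) :=
    hs.compl.isClosed.isCompact.image continuous_subtype_val
  have hdis : Disjoint (Subtype.val '' s) (Subtype.val '' sᶜ) := by
    rw [Set.disjoint_left]
    rintro _ ⟨x, hx, rfl⟩ ⟨y, hy, hxy⟩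
    have h3 : y = x := Subtype.ext hxy
    rw [h3] at hy
    exact hy hx
  obtain ⟨A, B, hA, hB, hsA, hsB, hAB⟩ := SeparatedNhds.of_isCompact_isCompact c1 c2 hdis
  -- the part of the degenerate points away from the fibre
  have hR : IsCompact (Dg σ \ ((A ∩ U) ∪ B)) :=
    ((isClosed_Dg hσ).isCompact).diff ((hA.inter hU).union hB)
  obtain ⟨g, hgb, hgz, -, r, hr, hgr⟩ := exists_sep (σ := σ) (z := z) hR (by
    intro y hy
    by_contra hcon
    push Not at hcon
    apply hy.2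
    have hyF : y ∈ Fib σ z := ⟨hy.1, hcon⟩
    by_cases hys : (⟨y, hyF⟩ : ↥(Fib σ z)) ∈ s
    · exact Or.inl ⟨hsA ⟨_, hys, rfl⟩, hsU hys⟩
    · exact Or.inr (hsB ⟨_, hys, rfl⟩))
  have hzA : z ∈ A ∩ U := ⟨hsA ⟨_, hzs, rfl⟩, hsU hzs⟩
  refine ⟨(A ∩ U) ∩ {y | g y < r}, Filter.inter_mem ((hA.inter hU).mem_nhds hzA) ?_, ?_⟩
  · exact (hgb.smooth.continuous.continuousAt (x := z)).eventually
      (gt_mem_nhds (by rw [hgz]; exact hr))
  · rintro y ⟨hyA, hyr⟩ hyD
    have h1 : connectedComponentIn (Fib σ y) y ⊆ (A ∩ U) ∪ B := by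
      intro w hw
      have h2 : w ∈ Fib σ y := connectedComponentIn_subset _ _ hw
      by_contra h3
      have h4 := hgr w ⟨h2.1, h3⟩
      have h5 : g w = g y := h2.2 g hgb
      rw [h5] at h4
      exact absurd hyr (not_lt.2 h4)
    have h2 : connectedComponentIn (Fib σ y) y ⊆ A ∩ U :=
      isPreconnected_connectedComponentIn.subset_left_of_subset_union (hA.inter hU) hB
        (hAB.mono_left inter_subset_left) h1
        ⟨y, mem_connectedComponentIn (Fib.self hyD), hyA⟩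
    exact h2.trans inter_subset_right

omit [IsManifold (𝓡 d) ∞ X] in
/-- the sets of solvable parameters are convex -/
theorem solv_convex {b : ℕ} (ζ₀ : Form d X 2) (ζ : Fin b → Form d X 2) (C : Set X) :
    Convex ℝ {t : Fin b → ℝ | Solv σ J (fam ζ₀ ζ t) C} := by
  rintro t ⟨α, ρ, h1, h2⟩ t' ⟨α', ρ', h1', h2'⟩ a a' ha ha' haa
  refine ⟨_, _, (h1.smul a).add (h1'.smul a'), fun x hx v hv hv0 => ?_⟩
  have e1 : (fam ζ₀ ζ (a • t + a' • t') + (a • ρ + a' • ρ')) x ![v, J x v] =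
      fam ζ₀ ζ (a • t + a' • t') x ![v, J x v] +
        (a * ρ x ![v, J x v] + a' * ρ' x ![v, J x v]) := rfl
  have e2 : fam ζ₀ ζ (a • t + a' • t') x ![v, J x v] =
      a * fam ζ₀ ζ t x ![v, J x v] + a' * fam ζ₀ ζ t' x ![v, J x v] := by
    rw [fam_apply, fam_apply, fam_apply]
    have e3 : ∑ k, (a • t + a' • t') k * ζ k x ![v, J x v] =
        a * ∑ k, t k * ζ k x ![v, J x v] + a' * ∑ k, t' k * ζ k x ![v, J x v] := by
      rw [Finset.mul_sum, Finset.mul_sum, ← Finset.sum_add_distrib]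
      refine Finset.sum_congr rfl fun k _ => ?_
      show (a * t k + a' * t' k) * ζ k x ![v, J x v] = _
      ring
    rw [e3]
    have e4 : a' = 1 - a := by linarith
    rw [e4]
    ring
  have g1 : 0 < fam ζ₀ ζ t x ![v, J x v] + ρ x ![v, J x v] := h2 x hx v hv hv0
  have g2 : 0 < fam ζ₀ ζ t' x ![v, J x v] + ρ' x ![v, J x v] := h2' x hx v hv hv0
  rw [e1, e2]
  have e5 : a * fam ζ₀ ζ t x ![v, J x v] + a' * fam ζ₀ ζ t' x ![v, J x v] +
      (a * ρ x ![v, J x v] + a' * ρ' x ![v, J x v]) =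
      a * (fam ζ₀ ζ t x ![v, J x v] + ρ x ![v, J x v]) +
        a' * (fam ζ₀ ζ t' x ![v, J x v] + ρ' x ![v, J x v]) := by ring
  rw [e5]
  rcases lt_or_eq_of_le ha with h | h
  · have := mul_pos h g1
    have := mul_nonneg ha' g2.le
    linarith
  · have h3 : a' = 1 := by linarith
    rw [← h, h3]
    linarith

/-- joint openness of solvability over the components -/
theorem isOpen_solv [CompactSpace X] [T2Space X] (hσ : IsSmooth σ) (hJ : IsAlmostComplex J)
    {b : ℕ} {ζ₀ : Form d X 2} {ζ : Fin b → Form d X 2} (h₀ : IsSmooth ζ₀)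
    (hζ : ∀ k, IsSmooth (ζ k)) :
    IsOpen {q : ↥(Dg σ) × (Fin b → ℝ) |
      Solv σ J (fam ζ₀ ζ q.2) (connectedComponentIn (Fib σ q.1.1) q.1.1)} := by
  rw [isOpen_iff_eventually]
  rintro ⟨⟨z, hz⟩, t⟩ ⟨α, ρ, h1, h2⟩
  have hC : IsCompact (connectedComponentIn (Fib σ z) z) :=
    compact_comp (isClosed_Fib hσ z).isCompact (Fib.self hz)
  obtain ⟨U, T, hU, hT, hCU, htT, hUT⟩ := generalized_tube_lemma hC
    (isCompact_singleton (x := t))
    (isOpen_posK_fam (σ := σ) (J := J) hσ hJ (ζ₀ := ζ₀ + ρ) (ζ := ζ) (h₀.add h1.s2) hζ) (by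
      rintro ⟨x, t'⟩ ⟨hx, ht'⟩
      have e : t' = t := ht'
      show PosK σ J (fam (ζ₀ + ρ) ζ t') x
      rw [e, ← fam_add]
      exact h2 x hx)
  obtain ⟨N, hN, hNU⟩ := comp_usc hσ hz hU hCU
  have hN' : ∀ᶠ y : ↥(Dg σ) in 𝓝 ⟨z, hz⟩, y.1 ∈ N :=
    (continuous_subtype_val.continuousAt (x := (⟨z, hz⟩ : ↥(Dg σ)))).eventually hN
  have hT' : ∀ᶠ t' in 𝓝 t, t' ∈ T := hT.mem_nhds (htT rfl)
  filter_upwards [hN'.prod_inl_nhds t, hT'.prod_inr_nhds (⟨z, hz⟩ : ↥(Dg σ))] with q g1 g2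
  refine ⟨α, ρ, h1, fun x hx => ?_⟩
  have h3 : (x, q.2) ∈ U ×ˢ T := ⟨hNU q.1.1 g1 q.1.2 hx, g2⟩
  have h4 : PosK σ J (fam (ζ₀ + ρ) ζ q.2) x := hUT h3
  rwa [← fam_add] at h4

/-- **Helly's theorem for classes** -/
theorem helly_solv [CompactSpace X] [T2Space X] (hσ : IsSmooth σ) (hJ : IsAlmostComplex J)
    {b : ℕ} {ζ₀ : Form d X 2} {ζ : Fin b → Form d X 2} (h₀ : IsSmooth ζ₀)
    (hζ : ∀ k, IsSmooth (ζ k))
    (h : ∀ z : Fin (b + 1) → X, (∀ j, z j ∈ Dg σ) → ∃ t, ∀ j,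
      Solv σ J (fam ζ₀ ζ t) (connectedComponentIn (Fib σ (z j)) (z j))) :
    ∃ t, ∀ z ∈ Dg σ, Solv σ J (fam ζ₀ ζ t) (connectedComponentIn (Fib σ z) z) := by
  have : CompactSpace ↥(Dg σ) := isCompact_iff_compactSpace.1 (isClosed_Dg hσ).isCompact
  obtain ⟨t, ht⟩ := helly_open b (D := ↥(Dg σ))
    (fun z => {t | Solv σ J (fam ζ₀ ζ t) (connectedComponentIn (Fib σ z.1) z.1)})
    (isOpen_solv hσ hJ h₀ hζ) (fun z => solv_convex ζ₀ ζ _)
    (fun z => h (fun j => (z j).1) fun j => (z j).2)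
  exact ⟨t, fun z hz => ht ⟨z, hz⟩⟩

end Pool.Agent.V7H58.SF
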