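import Pool.Agent.V7H58.SF.Lin
import Pool.Agent.N13.TL.Thurston

/-!
# Closeness of two-forms on the kernels of a two-form
-/

set_option autoImplicit false

open Set Filter Topology MeasureTheory
open scoped Manifold ContDiff

noncomputable section

namespace Pool.Agent.V7H58.SF

open Pool.Agent.Y501.SY
open Pool.Agent.Q130.SF (alt2_add alt2_smul alt2_swap alt_le nd mix GoodAt RateAt nd_of nd_iff
  good_of_nd nd_congr pb_apply2)

variable {d : ℕ} {X : Type} [TopologicalSpace X] [ChartedSpace (E d) X]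

/-- kernel vectors -/
def Ker (σ : Form d X 2) (x : X) (v : TangentSpace (𝓡 d) x) : Prop := ∀ w, σ x ![v, w] = 0

/-- `κ` is small on the kernel of `σ` -/
def Cl {m : ℕ} (F : X → E m) (σ : Form d X 2) (δ : ℝ) (κ : Form d X 2) (x : X) : Prop :=
  ∀ v w : TangentSpace (𝓡 d) x, Ker σ x v → Ker σ x w →
    |κ x ![v, w]| ≤ δ * (nm F x v * nm F x w)

/-- `κ` is small on the kernel of `σ`, strictly -/
def ClS {m : ℕ} (F : X → E m) (σ : Form d X 2) (δ : ℝ) (κ : Form d X 2) (x : X) : Prop :=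
  ∀ v w : TangentSpace (𝓡 d) x, Ker σ x v → Ker σ x w → v ≠ 0 → w ≠ 0 →
    |κ x ![v, w]| < δ * (nm F x v * nm F x w)

theorem nm_nonneg {m : ℕ} (F : X → E m) (x : X) (v : TangentSpace (𝓡 d) x) : 0 ≤ nm F x v :=
  norm_nonneg _

theorem app_zero_left {κ : Form d X 2} {x : X} (w : TangentSpace (𝓡 d) x) :
    κ x ![0, w] = 0 := by
  have h1 := (κ x).map_coord_zero (m := ![0, w]) 0 rfl
  exact h1

theorem app_zero_right {κ : Form d X 2} {x : X} (v : TangentSpace (𝓡 d) x) :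
    κ x ![v, 0] = 0 := by
  have h1 := (κ x).map_coord_zero (m := ![v, 0]) 1 rfl
  exact h1

theorem ClS.cl {m : ℕ} {F : X → E m} {σ : Form d X 2} {δ : ℝ} {κ : Form d X 2} {x : X}
    (hδ : 0 ≤ δ) (h : ClS F σ δ κ x) : Cl F σ δ κ x := by
  intro v w hv hw
  by_cases hv0 : v = 0
  · rw [hv0, app_zero_left, abs_zero]
    have := nm_nonneg F x (0 : TangentSpace (𝓡 d) x)
    have := nm_nonneg F x w
    positivity
  · by_cases hw0 : w = 0
    · rw [hw0, app_zero_right, abs_zero]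
      have := nm_nonneg F x (0 : TangentSpace (𝓡 d) x)
      have := nm_nonneg F x v
      positivity
    · exact (h v w hv hw hv0 hw0).le

theorem nm_pos {m : ℕ} {F : X → E m} (hFi : ∀ x, Function.Injective (mfderiv (𝓡 d) (𝓡 m) F x))
    {x : X} {v : TangentSpace (𝓡 d) x} (hv : v ≠ 0) : 0 < nm F x v := by
  refine norm_pos_iff.2 fun h0 => hv ?_
  apply hFi x
  rw [map_zero]
  exact h0

theorem Cl.clS {m : ℕ} {F : X → E m} (hFi : ∀ x, Function.Injective (mfderiv (𝓡 d) (𝓡 m) F x))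
    {σ : Form d X 2} {δ δ' : ℝ} {κ : Form d X 2} {x : X} (hδ : δ < δ')
    (h : Cl F σ δ κ x) : ClS F σ δ' κ x := by
  intro v w hv hw hv0 hw0
  refine (h v w hv hw).trans_lt ?_
  exact mul_lt_mul_of_pos_right hδ (mul_pos (nm_pos hFi hv0) (nm_pos hFi hw0))

/-- the norm in a chart -/
def nc {m : ℕ} (F : X → E m) (x₀ : X) (p v : E d) : ℝ :=
  ‖fderiv ℝ (F ∘ (chartAt (E d) x₀).symm) p v‖

theorem nc_smul {m : ℕ} (F : X → E m) (x₀ : X) (p v : E d) (c : ℝ) :
    nc F x₀ p (c • v) = |c| * nc F x₀ p v := by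
  unfold nc
  rw [map_smul, norm_smul, Real.norm_eq_abs]

variable [IsManifold (𝓡 d) ∞ X]

theorem nm_chart {m : ℕ} {F : X → E m} (hF : ContMDiff (𝓡 d) (𝓡 m) ∞ F) (x₀ : X) {p : E d}
    (hp : p ∈ (chartAt (E d) x₀).target) (v : E d) :
    nm F ((chartAt (E d) x₀).symm p) (mfderiv (𝓡 d) (𝓡 d) (chartAt (E d) x₀).symm p v) =
      nc F x₀ p v := by
  have h1 : MDifferentiableAt (𝓡 d) (𝓡 m) F ((chartAt (E d) x₀).symm p) :=
    hF.mdifferentiableAt (by simp)
  have h2 : MDifferentiableAt (𝓡 d) (𝓡 d) (chartAt (E d) x₀).symm p :=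
    ((contMDiffOn_chart_symm (n := ∞)).contMDiffAt
      ((chartAt (E d) x₀).open_target.mem_nhds hp)).mdifferentiableAt (by simp)
  have h3 : mfderiv (𝓡 d) (𝓡 m) (F ∘ (chartAt (E d) x₀).symm) p =
      (mfderiv (𝓡 d) (𝓡 m) F ((chartAt (E d) x₀).symm p)).comp
        (mfderiv (𝓡 d) (𝓡 d) (chartAt (E d) x₀).symm p) := mfderiv_comp p h1 h2
  have h4 : mfderiv (𝓡 d) (𝓡 m) (F ∘ (chartAt (E d) x₀).symm) p =
      fderiv ℝ (F ∘ (chartAt (E d) x₀).symm) p := mfderiv_eq_fderiv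
  unfold nc
  rw [← h4, h3]
  rfl

theorem nc_cont {m : ℕ} {F : X → E m} (hF : ContMDiff (𝓡 d) (𝓡 m) ∞ F) (x₀ : X) {p : E d}
    (hp : p ∈ (chartAt (E d) x₀).target) (v : E d) :
    ContinuousAt (fun z : E d × E d => nc F x₀ z.1 z.2) (p, v) := by
  have hG1 : ContMDiffOn (𝓡 d) (𝓡 m) ∞ (F ∘ (chartAt (E d) x₀).symm) (chartAt (E d) x₀).target :=
    hF.comp_contMDiffOn contMDiffOn_chart_symm
  have hG2 : ContDiffOn ℝ ∞ (F ∘ (chartAt (E d) x₀).symm) (chartAt (E d) x₀).target :=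
    contMDiffOn_iff_contDiffOn.1 hG1
  have hG3 : ContinuousOn (fderiv ℝ (F ∘ (chartAt (E d) x₀).symm)) (chartAt (E d) x₀).target :=
    hG2.continuousOn_fderiv_of_isOpen (chartAt (E d) x₀).open_target (by simp)
  have h1 : ContinuousAt (fderiv ℝ (F ∘ (chartAt (E d) x₀).symm)) p :=
    hG3.continuousAt ((chartAt (E d) x₀).open_target.mem_nhds hp)
  have h3 : ContinuousAt (fun z : E d × E d => fderiv ℝ (F ∘ (chartAt (E d) x₀).symm) z.1) (p, v) :=
    ContinuousAt.comp (f := Prod.fst) (x := (p, v)) h1 continuousAt_fst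
  exact (h3.clm_apply continuousAt_snd).norm

theorem pb_contAt {k : ℕ} {σ : Form d X k} (hσ : IsSmooth σ) (x₀ : X) {p : E d}
    (hp : p ∈ (chartAt (E d) x₀).target) : ContinuousAt (pb (chartAt (E d) x₀).symm σ) p :=
  ((hσ _ _ (chartAt (E d) x₀).open_target (contMDiffOn_chart_symm)).continuousOn).continuousAt
    ((chartAt (E d) x₀).open_target.mem_nhds hp)

theorem app_contAt {A : E d → (E d) [⋀^Fin 2]→L[ℝ] ℝ} {p : E d} (h : ContinuousAt A p)
    (v w : E d) : ContinuousAt (fun z : E d × (E d × E d) => A z.1 ![z.2.1, z.2.2]) (p, (v, w)) := by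
  have h3 : ContinuousAt (fun z : E d × (E d × E d) => A z.1) (p, (v, w)) :=
    ContinuousAt.comp (f := Prod.fst) (x := (p, (v, w))) h continuousAt_fst
  have h6 : ContinuousAt (fun z : E d × (E d × E d) => (![z.2.1, z.2.2] : Fin 2 → E d))
      (p, (v, w)) := by
    rw [continuousAt_pi]
    intro i
    fin_cases i
    · exact (continuous_fst.comp continuous_snd).continuousAt
    · exact (continuous_snd.comp continuous_snd).continuousAt
  exact h3.eval h6

/-- kernel vectors in a chart -/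
def kc (σ : Form d X 2) (x₀ : X) (p v : E d) : Prop :=
  ∀ u : E d, pb (chartAt (E d) x₀).symm σ p ![v, u] = 0

theorem ker_chart (σ : Form d X 2) (x₀ : X) {p : E d} (hp : p ∈ (chartAt (E d) x₀).target)
    (v : E d) : Ker σ ((chartAt (E d) x₀).symm p)
      (mfderiv (𝓡 d) (𝓡 d) (chartAt (E d) x₀).symm p v) ↔ kc σ x₀ p v := by
  constructor
  · intro h u
    rw [pb_apply2]
    exact h _
  · intro h w'
    obtain ⟨w, hw⟩ := Pool.Agent.Y455.SY.A_surj x₀ hp w'
    rw [← hw]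
    have h1 := h w
    rw [pb_apply2] at h1
    exact h1

theorem A_zero_iff (x₀ : X) {p : E d} (hp : p ∈ (chartAt (E d) x₀).target) (v : E d) :
    Pool.Agent.Y455.SY.A x₀ p v = 0 ↔ v = 0 := by
  constructor
  · intro h
    have h1 := Pool.Agent.Y455.SY.BA x₀ hp v
    rw [h, map_zero] at h1
    exact h1.symm
  · rintro rfl
    exact map_zero _

theorem clS_chart {m : ℕ} {F : X → E m} (hF : ContMDiff (𝓡 d) (𝓡 m) ∞ F) (σ κ : Form d X 2)
    (δ : ℝ) (x₀ : X) {p : E d} (hp : p ∈ (chartAt (E d) x₀).target) :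
    ClS F σ δ κ ((chartAt (E d) x₀).symm p) ↔ ∀ v w : E d, kc σ x₀ p v → kc σ x₀ p w → v ≠ 0 →
      w ≠ 0 → |pb (chartAt (E d) x₀).symm κ p ![v, w]| < δ * (nc F x₀ p v * nc F x₀ p w) := by
  constructor
  · intro h v w hv hw hv0 hw0
    have h1 := h (mfderiv (𝓡 d) (𝓡 d) (chartAt (E d) x₀).symm p v)
      (mfderiv (𝓡 d) (𝓡 d) (chartAt (E d) x₀).symm p w) ((ker_chart σ x₀ hp v).2 hv)
      ((ker_chart σ x₀ hp w).2 hw) (fun h0 => hv0 ((A_zero_iff x₀ hp v).1 h0))
      (fun h0 => hw0 ((A_zero_iff x₀ hp w).1 h0))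
    rw [nm_chart hF x₀ hp, nm_chart hF x₀ hp, ← pb_apply2] at h1
    exact h1
  · intro h v' w' hv' hw' hv0 hw0
    obtain ⟨v, hv⟩ := Pool.Agent.Y455.SY.A_surj x₀ hp v'
    obtain ⟨w, hw⟩ := Pool.Agent.Y455.SY.A_surj x₀ hp w'
    rw [← hv] at hv' hv0 ⊢
    rw [← hw] at hw' hw0 ⊢
    have h1 := h v w ((ker_chart σ x₀ hp v).1 hv') ((ker_chart σ x₀ hp w).1 hw')
      (fun h0 => hv0 ((A_zero_iff x₀ hp v).2 h0)) (fun h0 => hw0 ((A_zero_iff x₀ hp w).2 h0))
    rw [← nm_chart hF x₀ hp, ← nm_chart hF x₀ hp, pb_apply2] at h1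
    exact h1

theorem cl_chart {m : ℕ} {F : X → E m} (hF : ContMDiff (𝓡 d) (𝓡 m) ∞ F) {σ κ : Form d X 2}
    {δ : ℝ} {x₀ : X} {p : E d} (hp : p ∈ (chartAt (E d) x₀).target)
    (h : Cl F σ δ κ ((chartAt (E d) x₀).symm p)) : ∀ v w : E d, kc σ x₀ p v → kc σ x₀ p w →
      |pb (chartAt (E d) x₀).symm κ p ![v, w]| ≤ δ * (nc F x₀ p v * nc F x₀ p w) := by
  intro v w hv hw
  have h1 := h (mfderiv (𝓡 d) (𝓡 d) (chartAt (E d) x₀).symm p v)
    (mfderiv (𝓡 d) (𝓡 d) (chartAt (E d) x₀).symm p w) ((ker_chart σ x₀ hp v).2 hv)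
    ((ker_chart σ x₀ hp w).2 hw)
  rw [nm_chart hF x₀ hp, nm_chart hF x₀ hp, ← pb_apply2] at h1
  exact h1

/-- strict closeness is an open condition -/
theorem isOpen_clS {m : ℕ} {F : X → E m} (hF : ContMDiff (𝓡 d) (𝓡 m) ∞ F) {σ κ : Form d X 2}
    (hσ : IsSmooth σ) (hκ : IsSmooth κ) (δ : ℝ) : IsOpen {x | ClS F σ δ κ x} := by
  rw [isOpen_iff_eventually]
  intro x hx
  have hxs : x ∈ (chartAt (E d) x).source := mem_chart_source (E d) x
  have hp : chartAt (E d) x x ∈ (chartAt (E d) x).target := mem_chart_target (E d) x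
  have hx' : ClS F σ δ κ ((chartAt (E d) x).symm (chartAt (E d) x x)) := by
    rw [(chartAt (E d) x).left_inv hxs]
    exact hx
  rw [clS_chart hF σ κ δ x hp] at hx'
  change ∀ᶠ y in 𝓝 x, ClS F σ δ κ y
  rw [← ev_chart (d := d) x (fun y => ClS F σ δ κ y)]
  obtain ⟨A, hA⟩ : ∃ A : E d → (E d) [⋀^Fin 2]→L[ℝ] ℝ, A = pb (chartAt (E d) x).symm σ := ⟨_, rfl⟩
  obtain ⟨B, hB⟩ : ∃ B : E d → (E d) [⋀^Fin 2]→L[ℝ] ℝ, B = pb (chartAt (E d) x).symm κ := ⟨_, rfl⟩
  have cA : ContinuousAt A (chartAt (E d) x x) := by rw [hA]; exact pb_contAt hσ x hp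
  have cB : ContinuousAt B (chartAt (E d) x x) := by rw [hB]; exact pb_contAt hκ x hp
  have key := ((isCompact_sphere (0 : E d) 1).prod
      (isCompact_sphere (0 : E d) 1)).eventually_forall_of_forall_eventually
    (x₀ := chartAt (E d) x x) (P := fun p z => (∃ u : E d, A p ![z.1, u] ≠ 0) ∨
      (∃ u : E d, A p ![z.2, u] ≠ 0) ∨ |B p ![z.1, z.2]| < δ * (nc F x p z.1 * nc F x p z.2))
    (by
      rintro ⟨v, w⟩ ⟨hv, hw⟩
      have hv0 : v ≠ 0 := by rintro rfl; simp at hv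
      have hw0 : w ≠ 0 := by rintro rfl; simp at hw
      by_cases h1 : ∃ u : E d, A (chartAt (E d) x x) ![v, u] ≠ 0
      · obtain ⟨u, hu⟩ := h1
        have h2 : ContinuousAt (fun z : E d × (E d × E d) => A z.1 ![z.2.1, u])
            (chartAt (E d) x x, (v, w)) := by
          have h3 := app_contAt cA v u
          have h4 : ContinuousAt (fun z : E d × (E d × E d) => (z.1, (z.2.1, u)))
              (chartAt (E d) x x, (v, w)) := by fun_prop
          exact ContinuousAt.comp (f := fun z : E d × (E d × E d) => (z.1, (z.2.1, u)))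
            (x := (chartAt (E d) x x, (v, w))) h3 h4
        filter_upwards [h2.eventually_ne hu] with z hz
        exact Or.inl ⟨u, hz⟩
      by_cases h1' : ∃ u : E d, A (chartAt (E d) x x) ![w, u] ≠ 0
      · obtain ⟨u, hu⟩ := h1'
        have h2 : ContinuousAt (fun z : E d × (E d × E d) => A z.1 ![z.2.2, u])
            (chartAt (E d) x x, (v, w)) := by
          have h3 := app_contAt cA w u
          have h4 : ContinuousAt (fun z : E d × (E d × E d) => (z.1, (z.2.2, u)))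
              (chartAt (E d) x x, (v, w)) := by fun_prop
          exact ContinuousAt.comp (f := fun z : E d × (E d × E d) => (z.1, (z.2.2, u)))
            (x := (chartAt (E d) x x, (v, w))) h3 h4
        filter_upwards [h2.eventually_ne hu] with z hz
        exact Or.inr (Or.inl ⟨u, hz⟩)
      push Not at h1 h1'
      have h2 : |B (chartAt (E d) x x) ![v, w]| < δ * (nc F x (chartAt (E d) x x) v *
          nc F x (chartAt (E d) x x) w) := by
        rw [hB]
        exact hx' v w (fun u => by rw [← hA]; exact h1 u) (fun u => by rw [← hA]; exact h1' u)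
          hv0 hw0
      have c1 : ContinuousAt (fun z : E d × (E d × E d) => |B z.1 ![z.2.1, z.2.2]|)
          (chartAt (E d) x x, (v, w)) := (app_contAt cB v w).abs
      have c2 : ContinuousAt (fun z : E d × (E d × E d) => δ * (nc F x z.1 z.2.1 *
          nc F x z.1 z.2.2)) (chartAt (E d) x x, (v, w)) := by
        refine ContinuousAt.mul continuousAt_const (ContinuousAt.mul ?_ ?_)
        · have h4 : ContinuousAt (fun z : E d × (E d × E d) => (z.1, z.2.1))
              (chartAt (E d) x x, (v, w)) := by fun_prop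
          exact ContinuousAt.comp (f := fun z : E d × (E d × E d) => (z.1, z.2.1))
            (x := (chartAt (E d) x x, (v, w))) (nc_cont hF x hp v) h4
        · have h4 : ContinuousAt (fun z : E d × (E d × E d) => (z.1, z.2.2))
              (chartAt (E d) x x, (v, w)) := by fun_prop
          exact ContinuousAt.comp (f := fun z : E d × (E d × E d) => (z.1, z.2.2))
            (x := (chartAt (E d) x x, (v, w))) (nc_cont hF x hp w) h4
      filter_upwards [c1.eventually_lt c2 h2] with z hz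
      exact Or.inr (Or.inr hz))
  filter_upwards [key, (chartAt (E d) x).open_target.mem_nhds hp] with p hpk hpt
  rw [clS_chart hF σ κ δ x hpt]
  intro v w hv hw hv0 hw0
  have nv : 0 < ‖v‖ := norm_pos_iff.2 hv0
  have nw : 0 < ‖w‖ := norm_pos_iff.2 hw0
  have uv : ‖‖v‖⁻¹ • v‖ = 1 := by
    rw [norm_smul, norm_inv, norm_norm, inv_mul_cancel₀ nv.ne']
  have uw : ‖‖w‖⁻¹ • w‖ = 1 := by
    rw [norm_smul, norm_inv, norm_norm, inv_mul_cancel₀ nw.ne']
  rcases hpk (‖v‖⁻¹ • v, ‖w‖⁻¹ • w) ⟨mem_sphere_zero_iff_norm.2 uv, mem_sphere_zero_iff_norm.2 uw⟩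
    with ⟨u, hu⟩ | ⟨u, hu⟩ | h
  · exfalso
    apply hu
    show A p ![‖v‖⁻¹ • v, u] = 0
    rw [alt2_smul, hA, hv u, mul_zero]
  · exfalso
    apply hu
    show A p ![‖w‖⁻¹ • w, u] = 0
    rw [alt2_smul, hA, hw u, mul_zero]
  · change |B p ![‖v‖⁻¹ • v, ‖w‖⁻¹ • w]| < δ * (nc F x p (‖v‖⁻¹ • v) * nc F x p (‖w‖⁻¹ • w)) at h
    rw [alt2_smul, alt2_smul', nc_smul, nc_smul, abs_mul, abs_mul, hB] at h
    have iv : |‖v‖⁻¹| = ‖v‖⁻¹ := abs_of_pos (inv_pos.2 nv)
    have iw : |‖w‖⁻¹| = ‖w‖⁻¹ := abs_of_pos (inv_pos.2 nw)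
    rw [iv, iw] at h
    have h2 := mul_lt_mul_of_pos_left h (mul_pos nv nw)
    have h3 : ‖v‖ * ‖w‖ * (‖v‖⁻¹ * (‖w‖⁻¹ * |pb (chartAt (E d) x).symm κ p ![v, w]|)) =
        |pb (chartAt (E d) x).symm κ p ![v, w]| := by
      field_simp
    have h4 : ‖v‖ * ‖w‖ * (δ * (‖v‖⁻¹ * nc F x p v * (‖w‖⁻¹ * nc F x p w))) =
        δ * (nc F x p v * nc F x p w) := by
      field_simp
    rw [h3, h4] at h2
    exact h2

omit [IsManifold (𝓡 d) ∞ X] in
theorem nd_of_ker {σ : Form d X 2} {x : X} (h : nd σ x) {v : TangentSpace (𝓡 d) x}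
    (hv : Ker σ x v) : v = 0 := h v hv

/-- nondegeneracy is an open condition -/
theorem isOpen_nd {σ : Form d X 2} (hσ : IsSmooth σ) : IsOpen {x | nd σ x} := by
  rw [isOpen_iff_eventually]
  intro x hx
  obtain ⟨c, hc, h1⟩ := good_of_nd hσ hσ hσ hx
  filter_upwards [h1] with y hy
  refine (nd_congr ?_ (hy 0 le_rfl hc.le 0 le_rfl zero_le_one))
  show σ y + (0 : ℝ) • ((1 - (0 : ℝ)) • σ y + (0 : ℝ) • σ y) = σ y
  rw [zero_smul, add_zero]

/-- **uniform goodness** -/
theorem good_unif [CompactSpace X] {m : ℕ} {F : X → E m} (hF : ContMDiff (𝓡 d) (𝓡 m) ∞ F)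
    (hFi : ∀ x, Function.Injective (mfderiv (𝓡 d) (𝓡 m) F x)) {σ θ : Form d X 2}
    (hσ : IsSmooth σ) (hθ : IsSmooth θ) (hR : ∀ x, ¬ nd σ x → RateAt σ θ x) :
    ∃ δ : ℝ, 0 < δ ∧ ∀ η : Form d X 2, IsSmooth η → ∀ y, Cl F σ δ (η - θ) y →
      GoodAt σ θ η y := by
  obtain ⟨δ, hδ, h⟩ := unif (isCompact_univ (X := X))
    (fun (δ : ℝ) (y : X) => ∀ η : Form d X 2, IsSmooth η → Cl F σ δ (η - θ) y → GoodAt σ θ η y)
    (fun δ δ' y hle hp η hη hcl => hp η hη fun v w hv hw =>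
      (hcl v w hv hw).trans (mul_le_mul_of_nonneg_right hle
        (mul_nonneg (nm_nonneg F y v) (nm_nonneg F y w))))
    (fun x _ => by
      by_cases hx : nd σ x
      · refine ⟨1, one_pos, ?_⟩
        filter_upwards [(isOpen_nd hσ).mem_nhds hx] with y hy η hη _
        obtain ⟨c, hc, h1⟩ := good_of_nd hσ hθ hη hy
        exact ⟨c, hc, h1.mono fun y hy ε h2 h3 s h4 h5 => hy ε h2.le h3 s h4 h5⟩
      · obtain ⟨c, hc, hr⟩ := hR x hx
        have hxs : x ∈ (chartAt (E d) x).source := mem_chart_source (E d) x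
        have hp : chartAt (E d) x x ∈ (chartAt (E d) x).target := mem_chart_target (E d) x
        obtain ⟨r, hr0, hball⟩ := Metric.nhds_basis_closedBall.mem_iff.1
          ((chartAt (E d) x).open_target.mem_nhds hp)
        obtain ⟨c₁, C₁, hc₁, hC₁, hnm⟩ := Pool.Agent.Y44.SY.t_IMM d m X F hF hFi x _
          (isCompact_closedBall (chartAt (E d) x x) r) hball
        have hN : ∀ᶠ p in 𝓝 (chartAt (E d) x x), p ∈ Metric.closedBall (chartAt (E d) x x) r :=
          Metric.closedBall_mem_nhds _ hr0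
        refine ⟨c / (4 * C₁ ^ 2), by positivity, ?_⟩
        rw [← ev_chart (d := d) x (fun y => ∀ η : Form d X 2, IsSmooth η →
          Cl F σ (c / (4 * C₁ ^ 2)) (η - θ) y → GoodAt σ θ η y)]
        filter_upwards [hN, eventually_eventually_nhds.2 hr] with p hpN hpr η hη hcl
        have hpt := hball hpN
        have h1 := cl_chart hF hpt hcl
        obtain ⟨c', hc', h2⟩ := rate_seg (pb_contAt hσ x hpt) (pb_contAt hθ x hpt)
          (pb_contAt hη x hpt) hc hpr (by
            intro v w hv hw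
            have h3 := h1 v w hv hw
            have h4 : pb (chartAt (E d) x).symm (η - θ) p ![v, w] =
                pb (chartAt (E d) x).symm η p ![v, w] - pb (chartAt (E d) x).symm θ p ![v, w] := rfl
            rw [h4] at h3
            refine h3.trans ?_
            have h5 : nc F x p v ≤ C₁ * ‖v‖ := by
              rw [← nm_chart hF x hpt]
              exact (hnm p hpN v).2
            have h6 : nc F x p w ≤ C₁ * ‖w‖ := by
              rw [← nm_chart hF x hpt]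
              exact (hnm p hpN w).2
            have h7 : nc F x p v * nc F x p w ≤ (C₁ * ‖v‖) * (C₁ * ‖w‖) :=
              mul_le_mul h5 h6 (norm_nonneg _) (by positivity)
            calc c / (4 * C₁ ^ 2) * (nc F x p v * nc F x p w) ≤
                c / (4 * C₁ ^ 2) * ((C₁ * ‖v‖) * (C₁ * ‖w‖)) :=
                  mul_le_mul_of_nonneg_left h7 (by positivity)
              _ = c / 4 * (‖v‖ * ‖w‖) := by field_simp)
        refine ⟨c', hc', ?_⟩
        have hys : (chartAt (E d) x).symm p ∈ (chartAt (E d) x).source :=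
          (chartAt (E d) x).map_target hpt
        have t1 : Tendsto (chartAt (E d) x) (𝓝 ((chartAt (E d) x).symm p)) (𝓝 p) := by
          have := (chartAt (E d) x).continuousAt hys
          rw [ContinuousAt, (chartAt (E d) x).right_inv hpt] at this
          exact this
        filter_upwards [t1.eventually h2, (chartAt (E d) x).open_source.mem_nhds hys] with z hz hzs
          ε e1 e2 s e3 e4
        refine nd_of hzs fun v hv => ?_
        obtain ⟨w, hw⟩ := hz ε e1 e2 s e3 e4 v hv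
        exact ⟨w, hw⟩)
  exact ⟨δ, hδ, fun η hη y hy => h y (mem_univ y) η hη hy⟩

end Pool.Agent.V7H58.SF
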