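import Pool.Agent.V7H58.SF.Planar
import Pool.Agent.Q130.SF.Hom

/-!
# Forms which are positive on the kernels of a weakly taming form
-/

set_option autoImplicit false

open Set Filter Topology MeasureTheory
open scoped Manifold ContDiff

noncomputable section

namespace Pool.Agent.V7H58.SF

open Pool.Agent.Y501.SY Pool.Agent.Y455.SY
open Pool.Agent.Q130.SF (nd mix ext2 cutoff pb_apply2 alt2_smul nd_iff)

variable {d : ℕ} {X : Type} [TopologicalSpace X] [ChartedSpace (E d) X]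

/-- `η` is positive on the kernel of `σ` at `x` -/
def PosK (σ : Form d X 2) (J : End d X) (η : Form d X 2) (x : X) : Prop :=
  ∀ v : TangentSpace (𝓡 d) x, Ker σ x v → v ≠ 0 → 0 < η x ![v, J x v]

variable {σ : Form d X 2} {J : End d X}

theorem PosK.congr {η η' : Form d X 2} {x : X} (h : PosK σ J η x)
    (he : ∀ v w : TangentSpace (𝓡 d) x, Ker σ x v → Ker σ x w → η' x ![v, w] = η x ![v, w])
    (hJ : ∀ v : TangentSpace (𝓡 d) x, Ker σ x v → Ker σ x (J x v)) : PosK σ J η' x := by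
  intro v hv hv0
  rw [he v _ hv (hJ v hv)]
  exact h v hv hv0

theorem posK_of_nd {η : Form d X 2} {x : X} (h : nd σ x) : PosK σ J η x :=
  fun v hv hv0 => absurd (h v hv) hv0

/-- the kernel of a form which tames weakly is invariant -/
theorem ker_inv {x : X} (h : ∀ w : TangentSpace (𝓡 d) x, 0 ≤ σ x ![w, J x w])
    {v : TangentSpace (𝓡 d) x} (hv : Ker σ x v) : Ker σ x (J x v) := by
  have hsw : ∀ a b : TangentSpace (𝓡 d) x, σ x ![a, b] = -σ x ![b, a] := fun a b =>
    Pool.Agent.Q130.SF.alt2_swap (d := d) (σ x) a b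
  have hadd : ∀ a b c : TangentSpace (𝓡 d) x, σ x ![a + b, c] = σ x ![a, c] + σ x ![b, c] :=
    fun a b c => Pool.Agent.Q130.SF.alt2_add (d := d) (σ x) a b c
  have hadd' : ∀ a b c : TangentSpace (𝓡 d) x, σ x ![c, a + b] = σ x ![c, a] + σ x ![c, b] :=
    fun a b c => alt2_add' (d := d) (σ x) c a b
  have hsm : ∀ (t : ℝ) (a c : TangentSpace (𝓡 d) x), σ x ![t • a, c] = t * σ x ![a, c] :=
    fun t a c => Pool.Agent.Q130.SF.alt2_smul (d := d) (σ x) t a c
  have hsm' : ∀ (t : ℝ) (a c : TangentSpace (𝓡 d) x), σ x ![c, t • a] = t * σ x ![c, a] :=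
    fun t a c => alt2_smul' (d := d) (σ x) t c a
  have key : ∀ w : TangentSpace (𝓡 d) x, σ x ![w, J x v] = 0 := by
    intro w
    have h1 : ∀ t : ℝ, 0 ≤ σ x ![w, J x w] + t * σ x ![w, J x v] := by
      intro t
      have h2 := h (w + t • v)
      rw [map_add, map_smul, hadd, hadd', hsm', hsm] at h2
      have h3 : σ x ![v, J x w + t • J x v] = 0 := hv _
      rw [h3, mul_zero, add_zero] at h2
      exact h2
    by_contra hne
    have h4 := h1 (-(σ x ![w, J x w] + 1) / σ x ![w, J x v])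
    rw [div_mul_cancel₀ _ hne] at h4
    linarith
  intro w
  rw [hsw, key w, neg_zero]

variable [IsManifold (𝓡 d) ∞ X]

theorem posK_chart (σ η : Form d X 2) (J : End d X) (x₀ : X) {p : E d}
    (hp : p ∈ (chartAt (E d) x₀).target) : PosK σ J η ((chartAt (E d) x₀).symm p) ↔
      ∀ v : E d, kc σ x₀ p v → v ≠ 0 → 0 < Q η J x₀ p v := by
  constructor
  · intro h v hv hv0
    rw [Q_eq η J x₀ hp]
    exact h _ ((ker_chart σ x₀ hp v).2 hv) fun h0 => hv0 ((A_zero_iff x₀ hp v).1 h0)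
  · intro h v' hv' hv0
    obtain ⟨v, hv⟩ := A_surj x₀ hp v'
    rw [← hv] at hv' hv0 ⊢
    have h1 := h v ((ker_chart σ x₀ hp v).1 hv') fun h0 => hv0 ((A_zero_iff x₀ hp v).2 h0)
    rw [Q_eq η J x₀ hp] at h1
    exact h1

/-- positivity on the kernels is an open condition -/
theorem isOpen_posK (hσ : IsSmooth σ) (hJ : IsAlmostComplex J) {η : Form d X 2}
    (hη : IsSmooth η) : IsOpen {x | PosK σ J η x} := by
  rw [isOpen_iff_eventually]
  intro x hx
  have hxs : x ∈ (chartAt (E d) x).source := mem_chart_source (E d) x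
  have hp : chartAt (E d) x x ∈ (chartAt (E d) x).target := mem_chart_target (E d) x
  have hx' : PosK σ J η ((chartAt (E d) x).symm (chartAt (E d) x x)) := by
    rw [(chartAt (E d) x).left_inv hxs]
    exact hx
  rw [posK_chart σ η J x hp] at hx'
  change ∀ᶠ y in 𝓝 x, PosK σ J η y
  rw [← ev_chart (d := d) x (fun y => PosK σ J η y)]
  obtain ⟨A, hA⟩ : ∃ A : E d → (E d) [⋀^Fin 2]→L[ℝ] ℝ, A = pb (chartAt (E d) x).symm σ := ⟨_, rfl⟩
  have cA : ContinuousAt A (chartAt (E d) x x) := by rw [hA]; exact pb_contAt hσ x hp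
  have key := (isCompact_sphere (0 : E d) 1).eventually_forall_of_forall_eventually
    (x₀ := chartAt (E d) x x) (P := fun p v => (∃ u : E d, A p ![v, u] ≠ 0) ∨ 0 < Q η J x p v)
    (by
      intro v hv
      have hv0 : v ≠ 0 := by rintro rfl; simp at hv
      by_cases h1 : ∃ u : E d, A (chartAt (E d) x x) ![v, u] ≠ 0
      · obtain ⟨u, hu⟩ := h1
        have h2 : ContinuousAt (fun z : E d × E d => A z.1 ![z.2, u]) (chartAt (E d) x x, v) := by
          have h3 := app_contAt cA v u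
          have h4 : ContinuousAt (fun z : E d × E d => (z.1, (z.2, u)))
              (chartAt (E d) x x, v) := by fun_prop
          exact ContinuousAt.comp (f := fun z : E d × E d => (z.1, (z.2, u)))
            (x := (chartAt (E d) x x, v)) h3 h4
        filter_upwards [h2.eventually_ne hu] with z hz
        exact Or.inl ⟨u, hz⟩
      · push Not at h1
        have h2 : 0 < Q η J x (chartAt (E d) x x) v :=
          hx' v (fun u => by rw [← hA]; exact h1 u) hv0
        filter_upwards [(Q_cont hη hJ x hp (v := v)).eventually (lt_mem_nhds h2)] with z hz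
        exact Or.inr hz)
  filter_upwards [key, (chartAt (E d) x).open_target.mem_nhds hp] with p hpk hpt
  rw [posK_chart σ η J x hpt]
  intro v hv hv0
  have nv : 0 < ‖v‖ := norm_pos_iff.2 hv0
  have uv : ‖‖v‖⁻¹ • v‖ = 1 := by
    rw [norm_smul, norm_inv, norm_norm, inv_mul_cancel₀ nv.ne']
  rcases hpk (‖v‖⁻¹ • v) (mem_sphere_zero_iff_norm.2 uv) with ⟨u, hu⟩ | h
  · exfalso
    apply hu
    rw [alt2_smul, hA, hv u, mul_zero]
  · rw [Q_smul] at h
    exact (mul_pos_iff_of_pos_left (by positivity)).1 h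

/-- gluing over the components of a compact set -/
theorem glueCP [CompactSpace X] [T2Space X] (hσ : IsSmooth σ) (hJ : IsAlmostComplex J)
    {ζ : Form d X 2} (hζ : IsSmooth ζ) {K : Set X} (hK : IsCompact K)
    (h : ∀ z ∈ K, ∃ (α : Form d X 1) (ρ : Form d X 2), Ex α ρ ∧
      ∀ x ∈ connectedComponentIn K z, PosK σ J (ζ + ρ) x) :
    ∃ (α : Form d X 1) (ρ : Form d X 2), Ex α ρ ∧ ∀ x ∈ K, PosK σ J (ζ + ρ) x := by
  classical
  have : CompactSpace ↥K := isCompact_iff_compactSpace.1 hK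
  have hcg : ∀ {ρ ρ' : Form d X 2} {x : X}, PosK σ J (ζ + ρ) x → ρ' x = ρ x →
      PosK σ J (ζ + ρ') x := by
    intro ρ ρ' x h1 h2 v hv hv0
    have h3 : (ζ + ρ') x = (ζ + ρ) x := by
      show ζ x + ρ' x = ζ x + ρ x
      rw [h2]
    rw [h3]
    exact h1 v hv hv0
  have key : ∃ S' : Set ↥K, IsClopen S' ∧ (univ : Set ↥K) ⊆ S' ∧ ∃ (α : Form d X 1)
      (ρ : Form d X 2), Ex α ρ ∧ ∀ x : ↥K, x ∈ S' → PosK σ J (ζ + ρ) x.1 := by
    refine (isCompact_univ (X := ↥K)).induction_on (p := fun S => ∃ S' : Set ↥K, IsClopen S' ∧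
      S ⊆ S' ∧ ∃ (α : Form d X 1) (ρ : Form d X 2), Ex α ρ ∧
        ∀ x : ↥K, x ∈ S' → PosK σ J (ζ + ρ) x.1) ?_ ?_ ?_ ?_
    · exact ⟨∅, isClopen_empty, subset_rfl, 0, 0, Ex.zero, fun x hx => absurd hx (notMem_empty x)⟩
    · rintro s t hst ⟨S', h1, h2, h3⟩
      exact ⟨S', h1, hst.trans h2, h3⟩
    · rintro s t ⟨S', h1, h2, α, ρ, hp, hg⟩ ⟨T', h1', h2', α', ρ', hp', hg'⟩
      have c1 : IsCompact (Subtype.val '' S') := h1.isClosed.isCompact.image continuous_subtype_val
      have c2 : IsCompact (Subtype.val '' (T' \ S')) :=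
        (h1'.diff h1).isClosed.isCompact.image continuous_subtype_val
      have hdis : ∀ x, x ∈ Subtype.val '' S' → x ∉ Subtype.val '' (T' \ S') := by
        rintro _ ⟨x, hx, rfl⟩ ⟨y, hy, hxy⟩
        have h3 : y = x := Subtype.ext hxy
        rw [h3] at hy
        exact hy.2 hx
      obtain ⟨u, hu, -, hu1, hu0⟩ := cutoff (d := d) c1.isClosed c2.isClosed.isOpen_compl
        (fun x hx => hdis x hx)
      obtain ⟨u', hu', -, hu1', hu0'⟩ := cutoff (d := d) c2.isClosed c1.isClosed.isOpen_compl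
        (fun x hx hx' => hdis x hx' hx)
      have hval : ∀ x, (∀ᶠ y in 𝓝 x, u y = 1) → (∀ᶠ y in 𝓝 x, u' y = 0) →
          (prodD u α ρ + prodD u' α' ρ') x = ρ x := by
        intro x e1 e2
        refine ext2 fun v w => ?_
        have h3 : (prodD u α ρ + prodD u' α' ρ') x ![v, w] =
          prodD u α ρ x ![v, w] + prodD u' α' ρ' x ![v, w] := rfl
        rw [h3, hp.mul_apply hu, hp'.mul_apply hu', dd_eventually_const e1,
          dd_eventually_const e1, dd_eventually_const e2, dd_eventually_const e2,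
          e1.self_of_nhds, e2.self_of_nhds]
        ring
      have hval' : ∀ x, (∀ᶠ y in 𝓝 x, u y = 0) → (∀ᶠ y in 𝓝 x, u' y = 1) →
          (prodD u α ρ + prodD u' α' ρ') x = ρ' x := by
        intro x e1 e2
        refine ext2 fun v w => ?_
        have h3 : (prodD u α ρ + prodD u' α' ρ') x ![v, w] =
          prodD u α ρ x ![v, w] + prodD u' α' ρ' x ![v, w] := rfl
        rw [h3, hp.mul_apply hu, hp'.mul_apply hu', dd_eventually_const e1,
          dd_eventually_const e1, dd_eventually_const e2, dd_eventually_const e2,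
          e1.self_of_nhds, e2.self_of_nhds]
        ring
      refine ⟨S' ∪ T', h1.union h1', union_subset_union h2 h2', _, _,
        (hp.mul hu).add (hp'.mul hu'), fun x hx => ?_⟩
      by_cases hxS : x ∈ S'
      · have hx1 : x.1 ∈ Subtype.val '' S' := ⟨x, hxS, rfl⟩
        exact hcg (hg x hxS) (hval x.1 (hu1 _ hx1) (hu0' _ (fun h => h hx1)))
      · have hxT : x ∈ T' := hx.resolve_left hxS
        have hx2 : x.1 ∈ Subtype.val '' (T' \ S') := ⟨x, ⟨hxT, hxS⟩, rfl⟩
        exact hcg (hg' x hxT) (hval' x.1 (hu0 _ (fun h => h hx2)) (hu1' _ hx2))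
    · rintro ⟨z, hz⟩ -
      obtain ⟨α, ρ, hp, hg⟩ := h z hz
      have hsub : connectedComponent (⟨z, hz⟩ : ↥K) ⊆
          Subtype.val ⁻¹' {x | PosK σ J (ζ + ρ) x} := by
        intro x hx
        apply hg
        rw [connectedComponentIn_eq_image hz]
        exact ⟨x, hx, rfl⟩
      obtain ⟨s, hs, hzs, hsU⟩ := comp_clopen (⟨z, hz⟩ : ↥K)
        ((isOpen_posK hσ hJ (hζ.add hp.s2)).preimage continuous_subtype_val) hsub
      exact ⟨s, mem_nhdsWithin_of_mem_nhds (hs.isOpen.mem_nhds hzs), s, hs, subset_rfl, α, ρ, hp,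
        fun x hx => hsU hx⟩
  obtain ⟨S', -, h2, α, ρ, hp, hg⟩ := key
  exact ⟨α, ρ, hp, fun x hx => hg ⟨x, hx⟩ (h2 (mem_univ _))⟩

/-- gluing along the fibres of the basic functions -/
theorem glueFP [CompactSpace X] [T2Space X] (hσ : IsSmooth σ) (hJ : IsAlmostComplex J)
    (hw : ∀ x ∈ Dg σ, ∀ v : TangentSpace (𝓡 d) x, 0 ≤ σ x ![v, J x v])
    {ζ : Form d X 2} (hζ : IsSmooth ζ)
    (h : ∀ z ∈ Dg σ, ∃ (α : Form d X 1) (ρ : Form d X 2), Ex α ρ ∧
      ∀ x ∈ Fib σ z, PosK σ J (ζ + ρ) x) :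
    ∃ (α : Form d X 1) (ρ : Form d X 2), Ex α ρ ∧ ∀ x ∈ Dg σ, PosK σ J (ζ + ρ) x := by
  have hD : IsCompact (Dg σ) := (isClosed_Dg hσ).isCompact
  have key : ∃ u : X → ℝ, Bs σ u ∧ (∀ x, 0 ≤ u x ∧ u x ≤ 1) ∧ (∀ x ∈ Dg σ, u x = 1) ∧
      ∃ (α : Form d X 1) (ρ : Form d X 2), Ex α ρ ∧ ∀ x ∈ Dg σ, ∀ v : TangentSpace (𝓡 d) x,
        Ker σ x v → v ≠ 0 → 0 ≤ u x * ζ x ![v, J x v] + ρ x ![v, J x v] ∧
          (0 < u x → 0 < u x * ζ x ![v, J x v] + ρ x ![v, J x v]) := by
    refine hD.induction_on (p := fun S => ∃ u : X → ℝ, Bs σ u ∧ (∀ x, 0 ≤ u x ∧ u x ≤ 1) ∧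
      (∀ x ∈ S, u x = 1) ∧
      ∃ (α : Form d X 1) (ρ : Form d X 2), Ex α ρ ∧ ∀ x ∈ Dg σ, ∀ v : TangentSpace (𝓡 d) x,
        Ker σ x v → v ≠ 0 → 0 ≤ u x * ζ x ![v, J x v] + ρ x ![v, J x v] ∧
          (0 < u x → 0 < u x * ζ x ![v, J x v] + ρ x ![v, J x v])) ?_ ?_ ?_ ?_
    · refine ⟨_, Bs.const 0, fun x => ⟨le_rfl, zero_le_one⟩, fun x hx => absurd hx (notMem_empty x),
        0, 0, Ex.zero, fun x _ v _ _ => ⟨?_, fun h0 => absurd h0 (lt_irrefl _)⟩⟩
      show 0 ≤ 0 * ζ x ![v, J x v] + 0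
      simp
    · rintro s t hst ⟨u, h1, h2, h3, h4⟩
      exact ⟨u, h1, h2, fun x hx => h3 x (hst hx), h4⟩
    · rintro s t ⟨u, h1, h2, h3, α, ρ, h4, h5⟩ ⟨u', h1', h2', h3', α', ρ', h4', h5'⟩
      have hb : Bs σ (fun x => 1 + (-1) * u x) :=
        (Bs.const 1).add ((Bs.const (-1)).mul h1)
      refine ⟨fun x => u x + (1 + (-1) * u x) * u' x, h1.add (hb.mul h1'), fun x => ?_,
        fun x hx => ?_, _, _, h4.add (h4'.mul hb.smooth), fun x hx v hv hv0 => ?_⟩
      · obtain ⟨a1, a2⟩ := h2 x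
        obtain ⟨b1, b2⟩ := h2' x
        constructor
        · have : 0 ≤ (1 + (-1) * u x) * u' x := mul_nonneg (by linarith) b1
          linarith
        · nlinarith
      · rcases hx with hx | hx
        · show u x + (1 + (-1) * u x) * u' x = 1
          rw [h3 x hx]
          ring
        · show u x + (1 + (-1) * u x) * u' x = 1
          rw [h3' x hx]
          ring
      · have hJv := ker_inv (hw x hx) hv
        have e1 : (ρ + prodD (fun x => 1 + (-1) * u x) α' ρ') x ![v, J x v] = ρ x ![v, J x v] +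
            prodD (fun x => 1 + (-1) * u x) α' ρ' x ![v, J x v] := rfl
        rw [e1, h4'.mul_apply hb.smooth, hb.null x v hv, hb.null x _ hJv]
        obtain ⟨g1, g1'⟩ := h5 x hx v hv hv0
        obtain ⟨g2, g2'⟩ := h5' x hx v hv hv0
        obtain ⟨a1, a2⟩ := h2 x
        obtain ⟨b1, b2⟩ := h2' x
        have a0 : 0 ≤ 1 + (-1) * u x := by linarith
        have e2 : (u x + (1 + (-1) * u x) * u' x) * ζ x ![v, J x v] + (ρ x ![v, J x v] +
            (0 * α' x ![J x v] - 0 * α' x ![v] + (1 + (-1) * u x) * ρ' x ![v, J x v])) =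
            (u x * ζ x ![v, J x v] + ρ x ![v, J x v]) + (1 + (-1) * u x) *
              (u' x * ζ x ![v, J x v] + ρ' x ![v, J x v]) := by ring
        rw [e2]
        have g3 := mul_nonneg a0 g2
        refine ⟨add_nonneg g1 g3, fun hpos => ?_⟩
        change 0 < u x + (1 + (-1) * u x) * u' x at hpos
        rcases lt_or_eq_of_le a1 with h | h
        · have := g1' h
          linarith
        · rw [← h] at hpos g1 g3 ⊢
          have h6 : 0 < u' x := by linarith
          have := g2' h6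
          linarith
    · intro z hz
      obtain ⟨α, ρ, hp, hg⟩ := h z hz
      have hU : IsOpen {x | PosK σ J (ζ + ρ) x} := isOpen_posK hσ hJ (hζ.add hp.s2)
      have hR : IsCompact (Dg σ \ {x | PosK σ J (ζ + ρ) x}) := hD.diff hU
      obtain ⟨g, hgb, hgz, hg0, r, hr, hgr⟩ := exists_sep (σ := σ) (z := z) hR (by
        intro y hy
        by_contra hcon
        push Not at hcon
        exact hy.2 (hg y ⟨hy.1, hcon⟩))
      obtain ⟨b, hb, hb01, hb1, hb0⟩ := cut01 r hr
      have hbs : Bs σ (fun x => b (g x)) := hgb.comp hb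
      refine ⟨{x | b (g x) = 1}, mem_nhdsWithin_of_mem_nhds ?_, fun x => b (g x), hbs,
        fun x => hb01 _, fun x hx => hx, _, _, hp.mul hbs.smooth, fun x hx v hv hv0 => ?_⟩
      · have h1 : ∀ᶠ x in 𝓝 z, g x < r / 4 := by
          have h2 : ContinuousAt g z := hgb.smooth.continuous.continuousAt
          exact h2.eventually (gt_mem_nhds (by rw [hgz]; positivity))
        filter_upwards [h1] with x hx
        exact hb1 _ hx.le
      · have hJv := ker_inv (hw x hx) hv
        rw [hp.mul_apply hbs.smooth, hbs.null x v hv, hbs.null x _ hJv]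
        have e2 : b (g x) * ζ x ![v, J x v] + (0 * α x ![J x v] - 0 * α x ![v] +
            b (g x) * ρ x ![v, J x v]) =
            b (g x) * (ζ x ![v, J x v] + ρ x ![v, J x v]) := by ring
        rw [e2]
        rcases lt_or_eq_of_le (hb01 (g x)).1 with h0 | h0
        · have hxU : PosK σ J (ζ + ρ) x := by
            by_contra hcon
            have h3 := hb0 (g x) (by
              have := hgr x ⟨hx, hcon⟩
              linarith)
            rw [h3] at h0
            exact lt_irrefl _ h0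
          have h1 : 0 < ζ x ![v, J x v] + ρ x ![v, J x v] := hxU v hv hv0
          have h2 := mul_pos h0 h1
          exact ⟨h2.le, fun _ => h2⟩
        · rw [← h0, zero_mul]
          refine ⟨le_rfl, fun h => ?_⟩
          change 0 < b (g x) at h
          rw [← h0] at h
          exact h
  obtain ⟨u, h1, h2, h3, α, ρ, h4, h5⟩ := key
  refine ⟨α, ρ, h4, fun x hx v hv hv0 => ?_⟩
  have h6 := (h5 x hx v hv hv0).2 (by rw [h3 x hx]; exact one_pos)
  rw [h3 x hx, one_mul] at h6
  exact h6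

end Pool.Agent.V7H58.SF
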