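import Pool.Agent.V7H58.SF.Cone

/-!
# Forms which are positive on the kernels of a weakly taming form: nondegeneracy
-/

set_option autoImplicit false

open Set Filter Topology MeasureTheory
open scoped Manifold ContDiff

noncomputable section

namespace Pool.Agent.V7H58.SF

open Pool.Agent.Y501.SY Pool.Agent.Y455.SY
open Pool.Agent.Q130.SF (nd mix ext2 cutoff pb_apply2 alt2_smul nd_iff GoodAt)

variable {d : ℕ} {X : Type} [TopologicalSpace X] [ChartedSpace (E d) X]
  {σ : Form d X 2} {J : End d X} [IsManifold (𝓡 d) ∞ X]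

theorem comp3 {f : E d × E d → ℝ} {p v : E d} {s : ℝ} (h : ContinuousAt f (p, v)) :
    ContinuousAt (fun z : (ℝ × E d) × (E d × ℝ) => f (z.1.2, z.2.1)) ((0, p), (v, s)) := by
  have h4 : ContinuousAt (fun z : (ℝ × E d) × (E d × ℝ) => (z.1.2, z.2.1))
      ((0, p), (v, s)) := by fun_prop
  exact ContinuousAt.comp (f := fun z : (ℝ × E d) × (E d × ℝ) => (z.1.2, z.2.1))
    (x := ((0, p), (v, s))) h h4

theorem app_contAt1 {A : E d → (E d) [⋀^Fin 2]→L[ℝ] ℝ} {p : E d} (h : ContinuousAt A p)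
    (v u : E d) : ContinuousAt (fun z : E d × E d => A z.1 ![z.2, u]) (p, v) := by
  have h3 := app_contAt h v u
  have h4 : ContinuousAt (fun z : E d × E d => (z.1, (z.2, u))) (p, v) := by fun_prop
  exact ContinuousAt.comp (f := fun z : E d × E d => (z.1, (z.2, u))) (x := (p, v)) h3 h4

/-- positivity on the kernels implies nondegeneracy -/
theorem good_of_posK (hσ : IsSmooth σ) (hJ : IsAlmostComplex J) {τ η : Form d X 2}
    (hτ : IsSmooth τ) (hη : IsSmooth η) {x : X}
    (hw : ∀ᶠ y in 𝓝 x, ∀ v : TangentSpace (𝓡 d) y, 0 ≤ σ y ![v, J y v])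
    (h1 : PosK σ J τ x) (h2 : PosK σ J η x) : GoodAt σ τ η x := by
  have hxs : x ∈ (chartAt (E d) x).source := mem_chart_source (E d) x
  have hp : chartAt (E d) x x ∈ (chartAt (E d) x).target := mem_chart_target (E d) x
  have h1' : PosK σ J τ ((chartAt (E d) x).symm (chartAt (E d) x x)) := by
    rw [(chartAt (E d) x).left_inv hxs]
    exact h1
  have h2' : PosK σ J η ((chartAt (E d) x).symm (chartAt (E d) x x)) := by
    rw [(chartAt (E d) x).left_inv hxs]
    exact h2
  rw [posK_chart σ τ J x hp] at h1'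
  rw [posK_chart σ η J x hp] at h2'
  obtain ⟨p₀, hp₀⟩ : ∃ p₀, p₀ = chartAt (E d) x x := ⟨_, rfl⟩
  rw [← hp₀] at hp h1' h2'
  obtain ⟨A, hA⟩ : ∃ A : E d → (E d) [⋀^Fin 2]→L[ℝ] ℝ, A = pb (chartAt (E d) x).symm σ := ⟨_, rfl⟩
  obtain ⟨B, hB⟩ : ∃ B : E d → (E d) [⋀^Fin 2]→L[ℝ] ℝ, B = pb (chartAt (E d) x).symm τ := ⟨_, rfl⟩
  obtain ⟨C, hC⟩ : ∃ C : E d → (E d) [⋀^Fin 2]→L[ℝ] ℝ, C = pb (chartAt (E d) x).symm η := ⟨_, rfl⟩
  have cA : ContinuousAt A p₀ := by rw [hA]; exact pb_contAt hσ x hp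
  have cB : ContinuousAt B p₀ := by rw [hB]; exact pb_contAt hτ x hp
  have cC : ContinuousAt C p₀ := by rw [hC]; exact pb_contAt hη x hp
  have hQ : ∀ᶠ p in 𝓝 p₀, ∀ v : E d, 0 ≤ Q σ J x p v := by
    rw [← ev_chart (d := d) x
      (fun y => ∀ v : TangentSpace (𝓡 d) y, 0 ≤ σ y ![v, J y v]), ← hp₀] at hw
    filter_upwards [hw, (chartAt (E d) x).open_target.mem_nhds hp] with p h3 hpt v
    rw [Q_eq σ J x hpt]
    exact h3 _
  have key := ((isCompact_sphere (0 : E d) 1).prod
      (isCompact_Icc (a := (0 : ℝ)) (b := 1))).eventually_forall_of_forall_eventually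
    (x₀ := ((0 : ℝ), p₀)) (P := fun z w => 0 < z.1 → ∃ u : E d, A z.2 ![w.1, u] +
      z.1 * ((1 - w.2) * B z.2 ![w.1, u] + w.2 * C z.2 ![w.1, u]) ≠ 0)
    (by
      rintro ⟨v, s⟩ ⟨hv, hs⟩
      have hv0 : v ≠ 0 := by rintro rfl; simp at hv
      have ce : ContinuousAt (fun z : (ℝ × E d) × (E d × ℝ) => z.1.1) ((0, p₀), (v, s)) := by
        fun_prop
      have cs : ContinuousAt (fun z : (ℝ × E d) × (E d × ℝ) => z.2.2) ((0, p₀), (v, s)) := by
        fun_prop
      by_cases h3 : ∃ u : E d, A p₀ ![v, u] ≠ 0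
      · obtain ⟨u, hu⟩ := h3
        have c1 := comp3 (s := s) (app_contAt1 cA v u)
        have c2 := comp3 (s := s) (app_contAt1 cB v u)
        have c3 := comp3 (s := s) (app_contAt1 cC v u)
        have c4 := c1.add (ce.mul (((continuousAt_const (y := (1 : ℝ))).sub cs).mul c2 |>.add
          (cs.mul c3)))
        have h4 := c4.eventually_ne (y := 0) (by
          show A p₀ ![v, u] + 0 * ((1 - s) * B p₀ ![v, u] + s * C p₀ ![v, u]) ≠ 0
          rw [zero_mul, add_zero]
          exact hu)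
        filter_upwards [h4] with z hz _
        exact ⟨u, hz⟩
      · push Not at h3
        have hk : kc σ x p₀ v := fun u => by rw [← hA]; exact h3 u
        have q1 := h1' v hk hv0
        have q2 := h2' v hk hv0
        have c2 := comp3 (s := s) (Q_cont hτ hJ x hp (v := v))
        have c3 := comp3 (s := s) (Q_cont hη hJ x hp (v := v))
        have c4 := (((continuousAt_const (y := (1 : ℝ))).sub cs).mul c2).add (cs.mul c3)
        have h4 := c4.eventually (lt_mem_nhds (a := (0 : ℝ)) (by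
          show 0 < (1 - s) * Q τ J x p₀ v + s * Q η J x p₀ v
          have s0 := hs.1
          have s1 := hs.2
          rcases lt_or_eq_of_le s0 with h | h
          · have := mul_pos h q2
            have := mul_nonneg (sub_nonneg.2 s1) q1.le
            linarith
          · simp only at h
            rw [← h]
            linarith))
        have tp : Tendsto (fun z : (ℝ × E d) × (E d × ℝ) => z.1.2) (𝓝 ((0, p₀), (v, s)))
            (𝓝 p₀) := (continuous_snd.comp continuous_fst).tendsto _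
        filter_upwards [h4, tp.eventually hQ] with z hz hz' hpos
        refine ⟨inChart J x z.1.2 z.2.1, ?_⟩
        have e1 : A z.1.2 ![z.2.1, inChart J x z.1.2 z.2.1] = Q σ J x z.1.2 z.2.1 := by
          rw [hA]; rfl
        have e2 : B z.1.2 ![z.2.1, inChart J x z.1.2 z.2.1] = Q τ J x z.1.2 z.2.1 := by
          rw [hB]; rfl
        have e3 : C z.1.2 ![z.2.1, inChart J x z.1.2 z.2.1] = Q η J x z.1.2 z.2.1 := by
          rw [hC]; rfl
        rw [e1, e2, e3]
        change 0 < (1 - z.2.2) * Q τ J x z.1.2 z.2.1 + z.2.2 * Q η J x z.1.2 z.2.1 at hz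
        have := mul_pos hpos hz
        have := hz' z.2.1
        exact ne_of_gt (by linarith))
  rw [nhds_prod_eq, eventually_prod_iff] at key
  obtain ⟨pe, hpe, pp, hpp, hP⟩ := key
  rw [Metric.eventually_nhds_iff] at hpe
  obtain ⟨c, hc, hpe⟩ := hpe
  refine ⟨c / 2, half_pos hc, ?_⟩
  rw [← ev_chart (d := d) x (fun y => ∀ ε : ℝ, 0 < ε → ε ≤ c / 2 → ∀ s : ℝ, 0 ≤ s → s ≤ 1 →
    nd (mix σ τ η ε s) y), ← hp₀]
  filter_upwards [hpp, (chartAt (E d) x).open_target.mem_nhds hp] with p h3 hpt ε e0 e1 s s0 s1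
  rw [nd_iff x hpt]
  intro v hv
  by_contra hv0
  have nv : 0 < ‖v‖ := norm_pos_iff.2 hv0
  have uv : ‖‖v‖⁻¹ • v‖ = 1 := by
    rw [norm_smul, norm_inv, norm_norm, inv_mul_cancel₀ nv.ne']
  obtain ⟨u, hu⟩ := hP (hpe (y := ε) (by
    rw [Real.dist_eq, sub_zero, abs_of_pos e0]
    linarith)) h3 (‖v‖⁻¹ • v, s) ⟨mem_sphere_zero_iff_norm.2 uv, s0, s1⟩ e0
  apply hu
  show A p ![‖v‖⁻¹ • v, u] + ε * ((1 - s) * B p ![‖v‖⁻¹ • v, u] +
    s * C p ![‖v‖⁻¹ • v, u]) = 0
  rw [alt2_smul, alt2_smul, alt2_smul]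
  have h5 : A p ![v, u] + ε * ((1 - s) * B p ![v, u] + s * C p ![v, u]) = 0 := by
    rw [hA, hB, hC]
    exact hv u
  linear_combination ‖v‖⁻¹ * h5

/-- taming by a form which is positive on the kernels -/
theorem tame_of_posK (hσ : IsSmooth σ) (hJ : IsAlmostComplex J) {η : Form d X 2}
    (hη : IsSmooth η) {x : X}
    (hw : ∀ᶠ y in 𝓝 x, ∀ v : TangentSpace (𝓡 d) y, 0 ≤ σ y ![v, J y v])
    (hs : ∀ v : TangentSpace (𝓡 d) x, σ x ![v, J x v] = 0 → Ker σ x v)
    (h2 : PosK σ J η x) : ∃ c : ℝ, 0 < c ∧ ∀ᶠ y in 𝓝 x, ∀ ε : ℝ, 0 < ε → ε ≤ c →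
      TamesAt (σ + ε • η) J y := by
  have hxs : x ∈ (chartAt (E d) x).source := mem_chart_source (E d) x
  have hp : chartAt (E d) x x ∈ (chartAt (E d) x).target := mem_chart_target (E d) x
  have h2' : PosK σ J η ((chartAt (E d) x).symm (chartAt (E d) x x)) := by
    rw [(chartAt (E d) x).left_inv hxs]
    exact h2
  rw [posK_chart σ η J x hp] at h2'
  obtain ⟨p₀, hp₀⟩ : ∃ p₀, p₀ = chartAt (E d) x x := ⟨_, rfl⟩
  rw [← hp₀] at hp h2'
  have hQ : ∀ᶠ p in 𝓝 p₀, ∀ v : E d, 0 ≤ Q σ J x p v := by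
    rw [← ev_chart (d := d) x
      (fun y => ∀ v : TangentSpace (𝓡 d) y, 0 ≤ σ y ![v, J y v]), ← hp₀] at hw
    filter_upwards [hw, (chartAt (E d) x).open_target.mem_nhds hp] with p h3 hpt v
    rw [Q_eq σ J x hpt]
    exact h3 _
  have hs' : ∀ v : E d, Q σ J x p₀ v = 0 → kc σ x p₀ v := by
    intro v hv
    rw [Q_eq σ J x hp] at hv
    rw [← ker_chart σ x hp]
    have e : (chartAt (E d) x).symm p₀ = x := by rw [hp₀]; exact (chartAt (E d) x).left_inv hxs
    have gen : ∀ (y : X) (_ : y = x) (v : TangentSpace (𝓡 d) y), σ y ![v, J y v] = 0 →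
        Ker σ y v := by
      rintro y rfl v hv
      exact hs v hv
    exact gen _ e _ hv
  have key := (isCompact_sphere (0 : E d) 1).eventually_forall_of_forall_eventually
    (x₀ := ((0 : ℝ), p₀)) (P := fun z v => 0 < z.1 → 0 < Q σ J x z.2 v + z.1 * Q η J x z.2 v)
    (by
      intro v hv
      have hv0 : v ≠ 0 := by rintro rfl; simp at hv
      have ce : ContinuousAt (fun z : (ℝ × E d) × E d => z.1.1) ((0, p₀), v) := by
        fun_prop
      have c4 : ContinuousAt (fun z : (ℝ × E d) × E d => (z.1.2, z.2)) ((0, p₀), v) := by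
        fun_prop
      have c2 : ContinuousAt (fun z : (ℝ × E d) × E d => Q σ J x z.1.2 z.2) ((0, p₀), v) :=
        ContinuousAt.comp (f := fun z : (ℝ × E d) × E d => (z.1.2, z.2)) (x := ((0, p₀), v))
          (g := fun z : E d × E d => Q σ J x z.1 z.2) (Q_cont hσ hJ x hp (v := v)) c4
      have c3 : ContinuousAt (fun z : (ℝ × E d) × E d => Q η J x z.1.2 z.2) ((0, p₀), v) :=
        ContinuousAt.comp (f := fun z : (ℝ × E d) × E d => (z.1.2, z.2)) (x := ((0, p₀), v))
          (g := fun z : E d × E d => Q η J x z.1 z.2) (Q_cont hη hJ x hp (v := v)) c4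
      rcases lt_or_eq_of_le (hQ.self_of_nhds v) with h | h
      · have h4 := (c2.add (ce.mul c3)).eventually (lt_mem_nhds (a := (0 : ℝ)) (by
          show 0 < Q σ J x p₀ v + 0 * Q η J x p₀ v
          rw [zero_mul, add_zero]
          exact h))
        filter_upwards [h4] with z hz _
        exact hz
      · have q2 := h2' v (hs' v h.symm) hv0
        have tp : Tendsto (fun z : (ℝ × E d) × E d => z.1.2) (𝓝 ((0, p₀), v)) (𝓝 p₀) :=
          (continuous_snd.comp continuous_fst).tendsto _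
        filter_upwards [c3.eventually (lt_mem_nhds (a := (0 : ℝ)) q2), tp.eventually hQ] with z
          hz hz' hpos
        have := mul_pos hpos hz
        have := hz' z.2
        linarith)
  rw [nhds_prod_eq, eventually_prod_iff] at key
  obtain ⟨pe, hpe, pp, hpp, hP⟩ := key
  rw [Metric.eventually_nhds_iff] at hpe
  obtain ⟨c, hc, hpe⟩ := hpe
  refine ⟨c / 2, half_pos hc, ?_⟩
  rw [← ev_chart (d := d) x (fun y => ∀ ε : ℝ, 0 < ε → ε ≤ c / 2 → TamesAt (σ + ε • η) J y),
    ← hp₀]
  filter_upwards [hpp, (chartAt (E d) x).open_target.mem_nhds hp] with p h3 hpt ε e0 e1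
  rw [tames_iff _ J x hpt, pos_iff _ (fun s v => Q_smul _ J x p v s)]
  intro v hv
  exact hP (hpe (y := ε) (by
    rw [Real.dist_eq, sub_zero, abs_of_pos e0]
    linarith)) h3 v hv e0

/-- over a compact set the forms which are limits of exact forms can be made positive -/
theorem posK_of_approx [CompactSpace X] [T2Space X] (hσ : IsSmooth σ) (hJ : IsAlmostComplex J)
    {C : Set X} (hC : IsCompact C)
    (hw : ∀ x ∈ C, ∀ v : TangentSpace (𝓡 d) x, 0 ≤ σ x ![v, J x v]) {τ ζ : Form d X 2}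
    (hτ : IsSmooth τ) (hpos : ∀ x ∈ C, PosK σ J τ x) (hA : Approx σ (τ - ζ) C) :
    ∃ (α : Form d X 1) (ρ : Form d X 2), Ex α ρ ∧ ∀ x ∈ C, PosK σ J (ζ + ρ) x := by
  obtain ⟨m, F, hF, -, hFi⟩ := exists_embedding_euclidean_of_compact (I := 𝓡 d) (M := X)
  have key : ∃ δ : ℝ, 0 < δ ∧ ∀ y ∈ C, ∀ v : TangentSpace (𝓡 d) y, Ker σ y v → v ≠ 0 →
      δ * (nm F y v * nm F y (J y v)) < τ y ![v, J y v] := by
    refine unif hC (fun δ y => ∀ v : TangentSpace (𝓡 d) y, Ker σ y v → v ≠ 0 →
      δ * (nm F y v * nm F y (J y v)) < τ y ![v, J y v]) (fun δ δ' y hle h v hv hv0 => ?_)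
      (fun x hx => ?_)
    · refine lt_of_le_of_lt ?_ (h v hv hv0)
      exact mul_le_mul_of_nonneg_right hle (mul_nonneg (nm_nonneg _ _ _) (nm_nonneg _ _ _))
    · have hxs : x ∈ (chartAt (E d) x).source := mem_chart_source (E d) x
      have hp : chartAt (E d) x x ∈ (chartAt (E d) x).target := mem_chart_target (E d) x
      have h1' : PosK σ J τ ((chartAt (E d) x).symm (chartAt (E d) x x)) := by
        rw [(chartAt (E d) x).left_inv hxs]
        exact hpos x hx
      rw [posK_chart σ τ J x hp] at h1'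
      obtain ⟨p₀, hp₀⟩ : ∃ p₀, p₀ = chartAt (E d) x x := ⟨_, rfl⟩
      rw [← hp₀] at hp h1'
      obtain ⟨A, hA⟩ : ∃ A : E d → (E d) [⋀^Fin 2]→L[ℝ] ℝ,
        A = pb (chartAt (E d) x).symm σ := ⟨_, rfl⟩
      have cA : ContinuousAt A p₀ := by rw [hA]; exact pb_contAt hσ x hp
      have cJ : ContinuousAt (inChart J x) p₀ :=
        (hJ.cont x).continuousAt ((chartAt (E d) x).open_target.mem_nhds hp)
      have hk := (isCompact_sphere (0 : E d) 1).eventually_forall_of_forall_eventually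
        (x₀ := ((0 : ℝ), p₀)) (P := fun z v => (∃ u : E d, A z.2 ![v, u] ≠ 0) ∨
          z.1 * (nc F x z.2 v * nc F x z.2 (inChart J x z.2 v)) < Q τ J x z.2 v)
        (by
          intro v hv
          have hv0 : v ≠ 0 := by rintro rfl; simp at hv
          have ce : ContinuousAt (fun z : (ℝ × E d) × E d => z.1.1) ((0, p₀), v) := by
            fun_prop
          have c4 : ContinuousAt (fun z : (ℝ × E d) × E d => (z.1.2, z.2)) ((0, p₀), v) := by
            fun_prop
          by_cases h3 : ∃ u : E d, A p₀ ![v, u] ≠ 0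
          · obtain ⟨u, hu⟩ := h3
            have c1 : ContinuousAt (fun z : (ℝ × E d) × E d => A z.1.2 ![z.2, u])
                ((0, p₀), v) :=
              ContinuousAt.comp (f := fun z : (ℝ × E d) × E d => (z.1.2, z.2))
                (x := ((0, p₀), v)) (g := fun z : E d × E d => A z.1 ![z.2, u])
                (app_contAt1 cA v u) c4
            filter_upwards [c1.eventually_ne hu] with z hz
            exact Or.inl ⟨u, hz⟩
          · push Not at h3
            have q1 := h1' v (fun u => by rw [← hA]; exact h3 u) hv0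
            have c2 : ContinuousAt (fun z : (ℝ × E d) × E d => Q τ J x z.1.2 z.2)
                ((0, p₀), v) :=
              ContinuousAt.comp (f := fun z : (ℝ × E d) × E d => (z.1.2, z.2))
                (x := ((0, p₀), v)) (g := fun z : E d × E d => Q τ J x z.1 z.2)
                (Q_cont hτ hJ x hp (v := v)) c4
            have c3 : ContinuousAt (fun z : (ℝ × E d) × E d => nc F x z.1.2 z.2)
                ((0, p₀), v) :=
              ContinuousAt.comp (f := fun z : (ℝ × E d) × E d => (z.1.2, z.2))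
                (x := ((0, p₀), v)) (g := fun z : E d × E d => nc F x z.1 z.2)
                (nc_cont hF x hp v) c4
            have c5 : ContinuousAt (fun z : (ℝ × E d) × E d => (z.1.2, inChart J x z.1.2 z.2))
                ((0, p₀), v) := by
              have c6 : ContinuousAt (fun z : (ℝ × E d) × E d => z.1.2) ((0, p₀), v) := by
                fun_prop
              have c7 : ContinuousAt (fun z : (ℝ × E d) × E d => inChart J x z.1.2)
                  ((0, p₀), v) :=
                ContinuousAt.comp (f := fun z : (ℝ × E d) × E d => z.1.2)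
                  (x := ((0, p₀), v)) (g := fun p : E d => inChart J x p) cJ c6
              exact c6.prodMk (c7.clm_apply (by fun_prop))
            have c8 : ContinuousAt (fun z : (ℝ × E d) × E d =>
                nc F x z.1.2 (inChart J x z.1.2 z.2)) ((0, p₀), v) :=
              ContinuousAt.comp
                (f := fun z : (ℝ × E d) × E d => (z.1.2, inChart J x z.1.2 z.2))
                (x := ((0, p₀), v)) (g := fun z : E d × E d => nc F x z.1 z.2)
                (nc_cont hF x hp (inChart J x p₀ v)) c5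
            have h5 := (ce.mul (c3.mul c8)).eventually_lt c2 (by
              show 0 * (nc F x p₀ v * nc F x p₀ (inChart J x p₀ v)) < Q τ J x p₀ v
              rw [zero_mul]
              exact q1)
            filter_upwards [h5] with z hz
            exact Or.inr hz)
      rw [nhds_prod_eq, eventually_prod_iff] at hk
      obtain ⟨pe, hpe, pp, hpp, hP⟩ := hk
      rw [Metric.eventually_nhds_iff] at hpe
      obtain ⟨c, hc, hpe⟩ := hpe
      refine ⟨c / 2, half_pos hc, ?_⟩
      rw [← ev_chart (d := d) x (fun y => ∀ v : TangentSpace (𝓡 d) y, Ker σ y v → v ≠ 0 →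
        c / 2 * (nm F y v * nm F y (J y v)) < τ y ![v, J y v]), ← hp₀]
      filter_upwards [hpp, (chartAt (E d) x).open_target.mem_nhds hp] with p h3 hpt v' hv' hv0'
      obtain ⟨v, hv⟩ := A_surj x hpt v'
      rw [← hv] at hv' hv0' ⊢
      have hv0 : v ≠ 0 := fun h0 => hv0' ((A_zero_iff x hpt v).2 h0)
      have hvk := (ker_chart σ x hpt v).1 hv'
      have nv : 0 < ‖v‖ := norm_pos_iff.2 hv0
      have uv : ‖‖v‖⁻¹ • v‖ = 1 := by
        rw [norm_smul, norm_inv, norm_norm, inv_mul_cancel₀ nv.ne']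
      have h6 : Pool.Agent.Y455.SY.A x p (inChart J x p v) =
        J ((chartAt (E d) x).symm p) (Pool.Agent.Y455.SY.A x p v) := AB x hpt _
      have h7 : nm F ((chartAt (E d) x).symm p) (Pool.Agent.Y455.SY.A x p v) = nc F x p v :=
        nm_chart hF x hpt v
      have h8 : nm F ((chartAt (E d) x).symm p) (Pool.Agent.Y455.SY.A x p (inChart J x p v)) =
        nc F x p (inChart J x p v) := nm_chart hF x hpt _
      have h9 := Q_eq τ J x hpt v
      rw [← h9, ← h6, h7, h8]
      rcases hP (hpe (y := c / 2) (by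
        rw [Real.dist_eq, sub_zero, abs_of_pos (half_pos hc)]
        linarith)) h3 (‖v‖⁻¹ • v) (mem_sphere_zero_iff_norm.2 uv) with ⟨u, hu⟩ | h
      · exfalso
        apply hu
        show A p ![‖v‖⁻¹ • v, u] = 0
        rw [alt2_smul, hA, hvk u, mul_zero]
      · change c / 2 * (nc F x p (‖v‖⁻¹ • v) * nc F x p (inChart J x p (‖v‖⁻¹ • v))) <
          Q τ J x p (‖v‖⁻¹ • v) at h
        rw [Q_smul, map_smul, nc_smul, nc_smul, abs_of_pos (inv_pos.2 nv)] at h
        have h10 : ‖v‖⁻¹ ^ 2 * (c / 2 * (nc F x p v * nc F x p (inChart J x p v))) <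
            ‖v‖⁻¹ ^ 2 * Q τ J x p v := by
          calc ‖v‖⁻¹ ^ 2 * (c / 2 * (nc F x p v * nc F x p (inChart J x p v))) =
              c / 2 * (‖v‖⁻¹ * nc F x p v * (‖v‖⁻¹ * nc F x p (inChart J x p v))) := by ring
            _ < _ := h
        exact (mul_lt_mul_iff_right₀ (by positivity)).1 h10
  obtain ⟨δ, hδ, hk⟩ := key
  obtain ⟨α, ρ, hex, hcl⟩ := hA.bd hF hFi hδ
  refine ⟨α, ρ, hex, fun x hx v hv hv0 => ?_⟩
  have hJv := ker_inv (hw x hx) hv
  have h1 := hcl x hx v _ hv hJv
  have h2 := hk x hx v hv hv0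
  have e1 : (τ - ζ) x ![v, J x v] = τ x ![v, J x v] - ζ x ![v, J x v] := rfl
  rw [e1] at h1
  have h3 := (abs_le.1 h1).2
  show 0 < ζ x ![v, J x v] + ρ x ![v, J x v]
  linarith

end Pool.Agent.V7H58.SF
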