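import Pool.Agent.V7H58.SF.Cone2

/-!
# Forms which are positive on the kernels of a weakly taming form: the theorems
-/

set_option autoImplicit false

open Set Filter Topology MeasureTheory
open scoped Manifold ContDiff

noncomputable section

namespace Pool.Agent.V7H58.SF

open Pool.Agent.Y501.SY Pool.Agent.Y455.SY
open Pool.Agent.Q130.SF (nd mix ext2 cutoff pb_apply2 alt2_smul nd_iff GoodAt)

variable {d : ℕ} {X : Type} [TopologicalSpace X] [ChartedSpace (E d) X]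
  {σ : Form d X 2} {J : End d X} [IsManifold (𝓡 d) ∞ X]

/-- over `C` a form in the class of `ζ` is positive on the kernels of `σ` -/
def Solv (σ : Form d X 2) (J : End d X) (ζ : Form d X 2) (C : Set X) : Prop :=
  ∃ (α : Form d X 1) (ρ : Form d X 2), Ex α ρ ∧ ∀ x ∈ C, PosK σ J (ζ + ρ) x

/-- **Local to global.** -/
theorem solv_of_comp [CompactSpace X] [T2Space X] (hσ : IsSmooth σ) (hJ : IsAlmostComplex J)
    (hw : ∀ x ∈ Dg σ, ∀ v : TangentSpace (𝓡 d) x, 0 ≤ σ x ![v, J x v])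
    {ζ : Form d X 2} (hζ : IsSmooth ζ)
    (h : ∀ z ∈ Dg σ, Solv σ J ζ (connectedComponentIn (Fib σ z) z))
    {W : Set X} (hW : IsOpen W) (hDW : Dg σ ⊆ W) :
    ∃ (α : Form d X 1) (ρ : Form d X 2), Ex α ρ ∧ (∀ x, x ∉ W → α x = 0 ∧ ρ x = 0) ∧
      ∀ x ∈ Dg σ, PosK σ J (ζ + ρ) x := by
  obtain ⟨α, ρ, hex, hpos⟩ := glueFP hσ hJ hw hζ (fun z hz => by
    refine glueCP hσ hJ hζ (isClosed_Fib hσ z).isCompact fun z' hz' => ?_
    obtain ⟨α, ρ, h1, h2⟩ := h z' hz'.1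
    rw [Fib.eq hz'] at h2
    exact ⟨α, ρ, h1, h2⟩)
  obtain ⟨u, hu, -, hu1, hu0⟩ := cutoff (d := d) (isClosed_Dg hσ) hW hDW
  refine ⟨_, _, hex.mul hu, fun x hx => ?_, fun x hx => ?_⟩
  · have h1 := hu0 x hx
    constructor
    · show u x • α x = 0
      rw [h1.self_of_nhds, zero_smul]
    · refine ext2 fun v w => ?_
      rw [hex.mul_apply hu, h1.self_of_nhds, dd_eventually_const h1, dd_eventually_const h1]
      simp
  · have h2 : (ζ + prodD u α ρ) x = (ζ + ρ) x := by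
      refine ext2 fun v w => ?_
      show ζ x ![v, w] + prodD u α ρ x ![v, w] = ζ x ![v, w] + ρ x ![v, w]
      rw [hex.mul_apply hu, dd_eventually_const (hu1 x hx), dd_eventually_const (hu1 x hx),
        (hu1 x hx).self_of_nhds]
      ring
    intro v hv hv0
    rw [h2]
    exact hpos x hx v hv hv0

/-- planar null sets -/
theorem solv_planar [CompactSpace X] [T2Space X] (hσ : IsSmooth σ) (hJ : IsAlmostComplex J)
    {C : Set X} (hC : IsCompact C)
    (hw : ∀ x ∈ C, ∀ v : TangentSpace (𝓡 d) x, 0 ≤ σ x ![v, J x v])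
    {ζ : Form d X 2} (hζ : IsSmooth ζ) (hP : PlanarNull d C) : Solv σ J ζ C := by
  obtain ⟨τ, hτ, hτt⟩ := Pool.Agent.Q130.SF.exists_tame (d := d) (X := X)
    Pool.Agent.Y484.SY.t_GEN Pool.Agent.Y455.SY.t_PERT Pool.Agent.Y363.SY.t_LOCAL hJ
  have hτζ : IsSmooth (τ - ζ) := by
    have h1 := hτ.add (hζ.smul (-1))
    have h2 : τ + (-1 : ℝ) • ζ = τ - ζ := by
      funext x
      refine ext2 fun v w => ?_
      show τ x ![v, w] + (-1 : ℝ) * ζ x ![v, w] = τ x ![v, w] - ζ x ![v, w]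
      ring
    rwa [h2] at h1
  exact posK_of_approx hσ hJ hC hw hτ (fun x _ v _ hv0 => hτt x v hv0)
    (approx_planar hτζ hC hP)

/-- positivity is stable -/
theorem posK_pert (hσ : IsSmooth σ) (hJ : IsAlmostComplex J) {η ρ : Form d X 2}
    (hη : IsSmooth η) (hρ : IsSmooth ρ) {x : X} (h : PosK σ J η x) :
    ∃ c : ℝ, 0 < c ∧ PosK σ J (η + c • ρ) x := by
  have hxs : x ∈ (chartAt (E d) x).source := mem_chart_source (E d) x
  have hp : chartAt (E d) x x ∈ (chartAt (E d) x).target := mem_chart_target (E d) x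
  have e0 : (chartAt (E d) x).symm (chartAt (E d) x x) = x := (chartAt (E d) x).left_inv hxs
  have h1 : PosK σ J η ((chartAt (E d) x).symm (chartAt (E d) x x)) := by
    rw [e0]
    exact h
  rw [posK_chart σ η J x hp] at h1
  obtain ⟨p₀, hp₀⟩ : ∃ p₀, p₀ = chartAt (E d) x x := ⟨_, rfl⟩
  rw [← hp₀] at hp h1 e0
  obtain ⟨A, hA⟩ : ∃ A : (E d) [⋀^Fin 2]→L[ℝ] ℝ, A = pb (chartAt (E d) x).symm σ p₀ := ⟨_, rfl⟩
  have hQv : ∀ {τ : Form d X 2}, IsSmooth τ → ∀ v : E d,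
      ContinuousAt (fun z : ℝ × E d => Q τ J x p₀ z.2) (0, v) := by
    intro τ hτ v
    have h2 : ContinuousAt (fun z : ℝ × E d => (p₀, z.2)) ((0 : ℝ), v) := by fun_prop
    exact ContinuousAt.comp (f := fun z : ℝ × E d => (p₀, z.2)) (x := ((0 : ℝ), v))
      (g := fun z : E d × E d => Q τ J x z.1 z.2) (Q_cont hτ hJ x hp (v := v)) h2
  have hk := (isCompact_sphere (0 : E d) 1).eventually_forall_of_forall_eventually
    (x₀ := (0 : ℝ)) (P := fun ε v => (∃ u : E d, A ![v, u] ≠ 0) ∨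
      0 < Q η J x p₀ v + ε * Q ρ J x p₀ v)
    (by
      intro v hv
      have hv0 : v ≠ 0 := by rintro rfl; simp at hv
      by_cases h3 : ∃ u : E d, A ![v, u] ≠ 0
      · obtain ⟨u, hu⟩ := h3
        have c1 : ContinuousAt (fun z : ℝ × E d => A ![z.2, u]) ((0 : ℝ), v) := by
          have h2 : ContinuousAt (fun z : ℝ × E d => ((0 : E d), z.2)) ((0 : ℝ), v) := by
            fun_prop
          exact ContinuousAt.comp (f := fun z : ℝ × E d => ((0 : E d), z.2))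
            (x := ((0 : ℝ), v)) (g := fun z : E d × E d => (fun _ : E d => A) z.1 ![z.2, u])
            (app_contAt1 (p := 0) continuousAt_const v u) h2
        filter_upwards [c1.eventually_ne hu] with z hz
        exact Or.inl ⟨u, hz⟩
      · push Not at h3
        have q1 := h1 v (fun u => by rw [← hA]; exact h3 u) hv0
        have c2 := (hQv hη v).add ((continuousAt_fst (p := ((0 : ℝ), v))).mul (hQv hρ v))
        have h4 := c2.eventually (lt_mem_nhds (a := (0 : ℝ)) (by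
          show 0 < Q η J x p₀ v + 0 * Q ρ J x p₀ v
          rw [zero_mul, add_zero]
          exact q1))
        filter_upwards [h4] with z hz
        exact Or.inr hz)
  rw [Metric.eventually_nhds_iff] at hk
  obtain ⟨c, hc, hk⟩ := hk
  refine ⟨c / 2, half_pos hc, ?_⟩
  have h2 := hk (y := c / 2) (by
    rw [Real.dist_eq, sub_zero, abs_of_pos (half_pos hc)]
    linarith)
  have h3 : PosK σ J (η + (c / 2) • ρ) ((chartAt (E d) x).symm p₀) := by
    rw [posK_chart σ _ J x hp]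
    intro v hv hv0
    have nv : 0 < ‖v‖ := norm_pos_iff.2 hv0
    have uv : ‖‖v‖⁻¹ • v‖ = 1 := by
      rw [norm_smul, norm_inv, norm_norm, inv_mul_cancel₀ nv.ne']
    have h5 : Q (η + (c / 2) • ρ) J x p₀ v = Q η J x p₀ v + c / 2 * Q ρ J x p₀ v := rfl
    rcases h2 (‖v‖⁻¹ • v) (mem_sphere_zero_iff_norm.2 uv) with ⟨u, hu⟩ | h6
    · exfalso
      apply hu
      rw [alt2_smul, hA, hv u, mul_zero]
    · rw [Q_smul, Q_smul] at h6
      rw [h5]
      have h7 : 0 < ‖v‖⁻¹ ^ 2 * (Q η J x p₀ v + c / 2 * Q ρ J x p₀ v) := by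
        calc 0 < ‖v‖⁻¹ ^ 2 * Q η J x p₀ v + c / 2 * (‖v‖⁻¹ ^ 2 * Q ρ J x p₀ v) := h6
          _ = _ := by ring
      exact (mul_pos_iff_of_pos_left (by positivity)).1 h7
  rwa [e0] at h3

/-- two levels: the form `ζ + ρ₀` is nonnegative on the kernels over `C`, and the components of the
set where it is not positive are planar null -/
theorem solv_two [CompactSpace X] [T2Space X] (hσ : IsSmooth σ) (hJ : IsAlmostComplex J)
    {C : Set X} (hC : IsCompact C)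
    (hw : ∀ x ∈ C, ∀ v : TangentSpace (𝓡 d) x, 0 ≤ σ x ![v, J x v])
    {ζ : Form d X 2} (hζ : IsSmooth ζ) {α₀ : Form d X 1} {ρ₀ : Form d X 2} (hex₀ : Ex α₀ ρ₀)
    (hnn : ∀ x ∈ C, ∀ v : TangentSpace (𝓡 d) x, Ker σ x v → 0 ≤ (ζ + ρ₀) x ![v, J x v])
    (hP : ∀ z ∈ {x | x ∈ C ∧ ¬ PosK σ J (ζ + ρ₀) x},
      PlanarNull d (connectedComponentIn {x | x ∈ C ∧ ¬ PosK σ J (ζ + ρ₀) x} z)) :
    Solv σ J ζ C := by
  have hη : IsSmooth (ζ + ρ₀) := hζ.add hex₀.s2
  have hEx : IsCompact {x | x ∈ C ∧ ¬ PosK σ J (ζ + ρ₀) x} :=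
    hC.diff (isOpen_posK hσ hJ hη)
  obtain ⟨α, ρ, hex, hpos⟩ := glueCP hσ hJ (ζ := (0 : Form d X 2)) IsSmooth.zero hEx
    (fun z hz => solv_planar hσ hJ (compact_comp hEx hz)
      (fun x hx => hw x (connectedComponentIn_subset _ _ hx).1) IsSmooth.zero (hP z hz))
  have hpos' : ∀ x ∈ C, ¬ PosK σ J (ζ + ρ₀) x → PosK σ J ρ x := by
    intro x hx hx' v hv hv0
    have h1 := hpos x ⟨hx, hx'⟩ v hv hv0
    have h2 : ((0 : Form d X 2) + ρ) x ![v, J x v] = ρ x ![v, J x v] := by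
      show (0 : ℝ) + ρ x ![v, J x v] = ρ x ![v, J x v]
      rw [zero_add]
    rwa [h2] at h1
  obtain ⟨t, ht, h⟩ := unif hC
    (fun t y => y ∈ C → ∀ t' : ℝ, 0 < t' → t' ≤ t → PosK σ J (ζ + (ρ₀ + t' • ρ)) y)
    (fun t t' y hle h hy t'' h1 h2 => h hy t'' h1 (h2.trans hle))
    (fun x hx => by
      have hval : ∀ (t' : ℝ) (y : X) (v : TangentSpace (𝓡 d) y),
          (ζ + (ρ₀ + t' • ρ)) y ![v, J y v] = (ζ + ρ₀) y ![v, J y v] + t' * ρ y ![v, J y v] := by
        intro t' y v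
        show ζ y ![v, J y v] + (ρ₀ y ![v, J y v] + t' * ρ y ![v, J y v]) =
          (ζ y ![v, J y v] + ρ₀ y ![v, J y v]) + t' * ρ y ![v, J y v]
        ring
      by_cases hx' : PosK σ J (ζ + ρ₀) x
      · obtain ⟨c, hc, h1⟩ := posK_pert hσ hJ hη hex.s2 hx'
        refine ⟨c, hc, ?_⟩
        filter_upwards [(isOpen_posK hσ hJ hη).mem_nhds hx',
          (isOpen_posK hσ hJ (hη.add (hex.s2.smul c))).mem_nhds h1] with y h2 h3 hy t' h4 h5 v
          hv hv0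
        have h6 := h2 v hv hv0
        have h7 : 0 < (ζ + ρ₀) y ![v, J y v] + c * ρ y ![v, J y v] := h3 v hv hv0
        rw [hval]
        have h8 : c * ((ζ + ρ₀) y ![v, J y v] + t' * ρ y ![v, J y v]) =
          (c - t') * (ζ + ρ₀) y ![v, J y v] +
            t' * ((ζ + ρ₀) y ![v, J y v] + c * ρ y ![v, J y v]) := by ring
        have h9 : 0 < c * ((ζ + ρ₀) y ![v, J y v] + t' * ρ y ![v, J y v]) := by
          rw [h8]
          have := mul_pos h4 h7
          have := mul_nonneg (sub_nonneg.2 h5) h6.le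
          linarith
        exact (mul_pos_iff_of_pos_left hc).1 h9
      · refine ⟨1, one_pos, ?_⟩
        filter_upwards [(isOpen_posK hσ hJ hex.s2).mem_nhds (hpos' x hx hx')] with y h2 hy t'
          h4 h5 v hv hv0
        have h6 := h2 v hv hv0
        rw [hval]
        have := mul_pos h4 h6
        have := hnn y hy v hv
        linarith)
  exact ⟨_, _, hex₀.add (hex.smul t), fun x hx => h x hx hx t ht le_rfl⟩

/-- a form which is positive on the kernels over the degenerate points gives nondegenerate forms -/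
theorem nd_of_posK [CompactSpace X] (hσ : IsSmooth σ) (hJ : IsAlmostComplex J) {N : Set X}
    (hN : IsOpen N) (hDN : Dg σ ⊆ N)
    (hw : ∀ x ∈ N, ∀ v : TangentSpace (𝓡 d) x, 0 ≤ σ x ![v, J x v])
    {τ η : Form d X 2} (hτ : IsSmooth τ) (hη : IsSmooth η)
    (h1 : ∀ x ∈ Dg σ, PosK σ J τ x) (h2 : ∀ x ∈ Dg σ, PosK σ J η x) :
    ∃ ε₀ : ℝ, 0 < ε₀ ∧ ∀ ε : ℝ, 0 < ε → ε ≤ ε₀ → ∀ s : ℝ, 0 ≤ s → s ≤ 1 →
      ∀ x, nd (mix σ τ η ε s) x := by
  obtain ⟨ε, hε, ht⟩ := unif isCompact_univ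
    (fun ε y => ∀ ε' : ℝ, 0 < ε' → ε' ≤ ε → ∀ s : ℝ, 0 ≤ s → s ≤ 1 → nd (mix σ τ η ε' s) y)
    (fun ε ε' y hle hp ε'' h0 h1 => hp ε'' h0 (h1.trans hle))
    (fun x _ => by
      by_cases hx : nd σ x
      · obtain ⟨c, hc, h1⟩ := Pool.Agent.Q130.SF.good_of_nd hσ hτ hη hx
        exact ⟨c, hc, h1.mono fun y hy ε h2 h3 s h4 h5 => hy ε h2.le h3 s h4 h5⟩
      · exact good_of_posK hσ hJ hτ hη
          (Filter.eventually_of_mem (hN.mem_nhds (hDN hx)) hw) (h1 x hx) (h2 x hx))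
  exact ⟨ε, hε, fun ε' h1 h2 s h3 h4 x => ht x (mem_univ x) ε' h1 h2 s h3 h4⟩

/-- if all null vectors are kernel vectors then `J` is tamed -/
theorem tame_of_semi [CompactSpace X] (hσ : IsSmooth σ) (hJ : IsAlmostComplex J)
    (hw : ∀ (x : X) (v : TangentSpace (𝓡 d) x), 0 ≤ σ x ![v, J x v])
    (hs : ∀ (x : X) (v : TangentSpace (𝓡 d) x), σ x ![v, J x v] = 0 → Ker σ x v)
    {η : Form d X 2} (hη : IsSmooth η) (h2 : ∀ x ∈ Dg σ, PosK σ J η x) :
    ∃ ε₀ : ℝ, 0 < ε₀ ∧ ∀ ε : ℝ, 0 < ε → ε ≤ ε₀ → ∀ x, TamesAt (σ + ε • η) J x := by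
  obtain ⟨ε, hε, ht⟩ := unif isCompact_univ
    (fun ε y => ∀ ε' : ℝ, 0 < ε' → ε' ≤ ε → TamesAt (σ + ε' • η) J y)
    (fun ε ε' y hle hp ε'' h0 h1 => hp ε'' h0 (h1.trans hle))
    (fun x _ => tame_of_posK hσ hJ hη (Filter.Eventually.of_forall hw) (hs x) (by
      by_cases hx : nd σ x
      · exact posK_of_nd hx
      · exact h2 x hx))
  exact ⟨ε, hε, fun ε' h1 h2 x => ht x (mem_univ x) ε' h1 h2⟩

end Pool.Agent.V7H58.SF
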