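import Pool.Agent.V7H58.SF.Close

/-!
# Gluing exact forms over the components of the fibres of the basic functions
-/

set_option autoImplicit false

open Set Filter Topology MeasureTheory
open scoped Manifold ContDiff

noncomputable section

namespace Pool.Agent.V7H58.SF

open Pool.Agent.Y501.SY
open Pool.Agent.Q130.SF (nd ext2 cutoff)

variable {d : ℕ} {X : Type} [TopologicalSpace X] [ChartedSpace (E d) X]

/-- `ρ` is the exterior derivative of `α` -/
structure Ex (α : Form d X 1) (ρ : Form d X 2) : Prop where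
  s1 : IsSmooth α
  s2 : IsSmooth ρ
  isD : IsD α ρ

theorem Ex.zero : Ex (0 : Form d X 1) 0 := ⟨IsSmooth.zero, IsSmooth.zero, IsD.zero⟩

theorem Ex.add {α α' : Form d X 1} {ρ ρ' : Form d X 2} (h : Ex α ρ) (h' : Ex α' ρ') :
    Ex (α + α') (ρ + ρ') :=
  ⟨h.s1.add h'.s1, h.s2.add h'.s2, h.isD.add h'.isD h.s1 h'.s1⟩

theorem Ex.smul {α : Form d X 1} {ρ : Form d X 2} (h : Ex α ρ) (c : ℝ) : Ex (c • α) (c • ρ) :=
  ⟨h.s1.smul c, h.s2.smul c, h.isD.smul c⟩

theorem Ex.of_pair [IsManifold (𝓡 d) ∞ X] {α : Form d X 1} {ρ : Form d X 2} (h : Pair α ρ) :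
    Ex α ρ := by
  obtain ⟨h1, h2, h3, -⟩ := h.props Pool.Agent.Y484.SY.t_GEN
  exact ⟨h1, h2, h3⟩

section

variable [IsManifold (𝓡 d) ∞ X]

theorem Ex.mul {α : Form d X 1} {ρ : Form d X 2} (h : Ex α ρ) {u : X → ℝ}
    (hu : SmoothFun (d := d) u) : Ex (fun x => u x • α x) (prodD u α ρ) := by
  obtain ⟨h1, h2, h3, -, -⟩ := Pool.Agent.Y658.SY.t_PROD d X u α ρ hu h.s1 h.s2 h.isD
  exact ⟨h1, h2, h3⟩

theorem Ex.mul_apply {α : Form d X 1} {ρ : Form d X 2} (h : Ex α ρ) {u : X → ℝ}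
    (hu : SmoothFun (d := d) u) (x : X) (v w : TangentSpace (𝓡 d) x) :
    prodD u α ρ x ![v, w] = dd u x v * α x ![w] - dd u x w * α x ![v] + u x * ρ x ![v, w] := by
  obtain ⟨-, -, -, -, h1⟩ := Pool.Agent.Y658.SY.t_PROD d X u α ρ hu h.s1 h.s2 h.isD
  exact h1 x v w

theorem Ex.closed {α : Form d X 1} {ρ : Form d X 2} (h : Ex α ρ) : IsClosedForm ρ := by
  obtain ⟨-, -, -, h1, h2⟩ := Pool.Agent.Y658.SY.t_PROD d X (fun _ => 1) α ρ
    (SmoothFun.const 1) h.s1 h.s2 h.isD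
  have h3 : prodD (fun _ : X => (1 : ℝ)) α ρ = ρ := by
    funext x
    refine ext2 fun v w => ?_
    have h4 : ∀ u : TangentSpace (𝓡 d) x, dd (d := d) (fun _ : X => (1 : ℝ)) x u = 0 := by
      intro u
      unfold dd
      rw [mfderiv_const]; rfl
    rw [h2, h4, h4]
    ring
  rwa [h3] at h1

end

/-- basic functions -/
structure Bs (σ : Form d X 2) (g : X → ℝ) : Prop where
  smooth : SmoothFun (d := d) g
  null : ∀ (x : X) (v : TangentSpace (𝓡 d) x), Ker σ x v → dd g x v = 0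

variable {σ : Form d X 2}

theorem Bs.const (c : ℝ) : Bs σ (fun _ => c) := by
  refine ⟨SmoothFun.const c, fun x v _ => ?_⟩
  unfold dd
  rw [mfderiv_const]; rfl

theorem Bs.add {f g : X → ℝ} (hf : Bs σ f) (hg : Bs σ g) : Bs σ (fun x => f x + g x) :=
  ⟨hf.smooth.add hg.smooth, fun x v hv => by
    rw [dd_add hf.smooth hg.smooth, hf.null x v hv, hg.null x v hv, add_zero]⟩

theorem Bs.mul {f g : X → ℝ} (hf : Bs σ f) (hg : Bs σ g) : Bs σ (fun x => f x * g x) :=
  ⟨hf.smooth.mul hg.smooth, fun x v hv => by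
    rw [dd_mul hf.smooth hg.smooth, hf.null x v hv, hg.null x v hv, mul_zero, mul_zero, add_zero]⟩

theorem Bs.comp {φ : ℝ → ℝ} (hφ : ContDiff ℝ ∞ φ) {f : X → ℝ} (hf : Bs σ f) :
    Bs σ (fun x => φ (f x)) :=
  ⟨SmoothFun.comp1 hφ hf.smooth, fun x v hv => by
    rw [dd_comp1 hφ hf.smooth, hf.null x v hv, mul_zero]⟩

/-- the degenerate points -/
def Dg (σ : Form d X 2) : Set X := {x | ¬ nd σ x}

/-- the fibre of the basic functions in the set of the degenerate points -/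
def Fib (σ : Form d X 2) (z : X) : Set X := {y | y ∈ Dg σ ∧ ∀ g, Bs σ g → g y = g z}

theorem Fib.self {z : X} (hz : z ∈ Dg σ) : z ∈ Fib σ z := ⟨hz, fun _ _ => rfl⟩

theorem Fib.eq {z y : X} (hy : y ∈ Fib σ z) : Fib σ y = Fib σ z := by
  ext x
  constructor
  · rintro ⟨h1, h2⟩
    exact ⟨h1, fun g hg => (h2 g hg).trans (hy.2 g hg)⟩
  · rintro ⟨h1, h2⟩
    exact ⟨h1, fun g hg => (h2 g hg).trans (hy.2 g hg).symm⟩

/-- separation of a compact set by one basic function -/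
theorem exists_sep {z : X} {R : Set X} (hR : IsCompact R)
    (h : ∀ y ∈ R, ∃ f, Bs σ f ∧ f y ≠ f z) :
    ∃ g, Bs σ g ∧ g z = 0 ∧ (∀ x, 0 ≤ g x) ∧ ∃ r : ℝ, 0 < r ∧ ∀ y ∈ R, r ≤ g y := by
  refine hR.induction_on (p := fun R => ∃ g, Bs σ g ∧ g z = 0 ∧ (∀ x, 0 ≤ g x) ∧
    ∃ r : ℝ, 0 < r ∧ ∀ y ∈ R, r ≤ g y) ?_ ?_ ?_ ?_
  · exact ⟨_, Bs.const 0, rfl, fun x => le_rfl, 1, one_pos, fun y hy =>
      absurd hy (notMem_empty y)⟩
  · rintro s t hst ⟨g, h1, h2, h3, r, h4, h5⟩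
    exact ⟨g, h1, h2, h3, r, h4, fun y hy => h5 y (hst hy)⟩
  · rintro s t ⟨g, h1, h2, h3, r, h4, h5⟩ ⟨g', h1', h2', h3', r', h4', h5'⟩
    refine ⟨_, h1.add h1', by simp [h2, h2'], fun x => add_nonneg (h3 x) (h3' x), min r r',
      lt_min h4 h4', ?_⟩
    rintro y (hy | hy)
    · have := h5 y hy
      have := h3' y
      have := min_le_left r r'
      show min r r' ≤ g y + g' y
      linarith
    · have := h5' y hy
      have := h3 y
      have := min_le_right r r'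
      show min r r' ≤ g y + g' y
      linarith
  · intro y hy
    obtain ⟨f, hf, hne⟩ := h y hy
    have h0 : 0 < (f y + -f z) * (f y + -f z) := mul_self_pos.2 fun h => hne (by linarith)
    have hs := hf.add (Bs.const (-f z))
    refine ⟨{x | (f y + -f z) * (f y + -f z) / 2 < (f x + -f z) * (f x + -f z)}, ?_, _,
      hs.mul hs, by ring, fun x => mul_self_nonneg _, _, half_pos h0, fun x hx => ?_⟩
    · refine mem_nhdsWithin_of_mem_nhds ?_
      have hc : Continuous (fun x => (f x + -f z) * (f x + -f z)) := (hs.mul hs).smooth.continuous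
      exact (isOpen_lt continuous_const hc).mem_nhds (half_lt_self h0)
    · exact le_of_lt hx

/-- a cut-off on the line -/
theorem cut01 (r : ℝ) (hr : 0 < r) : ∃ b : ℝ → ℝ, ContDiff ℝ ∞ b ∧ (∀ t, 0 ≤ b t ∧ b t ≤ 1) ∧
    (∀ t, t ≤ r / 4 → b t = 1) ∧ ∀ t, r / 2 ≤ t → b t = 0 := by
  refine ⟨fun t => Real.smoothTransition (2 - 4 * t / r), ?_, fun t =>
    ⟨Real.smoothTransition.nonneg _, Real.smoothTransition.le_one _⟩, fun t ht => ?_, fun t ht => ?_⟩
  · have h2 : ContDiff ℝ ∞ Real.smoothTransition := Real.smoothTransition.contDiff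
    exact h2.comp (by fun_prop)
  · refine Real.smoothTransition.one_of_one_le ?_
    have : 4 * t / r ≤ 1 := by
      rw [div_le_iff₀ hr]
      linarith
    linarith
  · refine Real.smoothTransition.zero_of_nonpos ?_
    have : 2 ≤ 4 * t / r := by
      rw [le_div_iff₀ hr]
      linarith
    linarith

theorem ClS.congr {m : ℕ} {F : X → E m} {δ : ℝ} {κ κ' : Form d X 2} {x : X}
    (h : ClS F σ δ κ x) (he : κ' x = κ x) : ClS F σ δ κ' x := by
  intro v w
  rw [he]
  exact h v w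

variable [IsManifold (𝓡 d) ∞ X]

theorem isClosed_Dg (hσ : IsSmooth σ) : IsClosed (Dg σ) := by
  have : Dg σ = {x | nd σ x}ᶜ := rfl
  rw [this]
  exact (isOpen_nd hσ).isClosed_compl

theorem isClosed_Fib (hσ : IsSmooth σ) (z : X) : IsClosed (Fib σ z) := by
  have h : Fib σ z = Dg σ ∩ ⋂ (g : X → ℝ) (_ : Bs σ g), {y | g y = g z} := by
    ext y
    simp [Fib]
  rw [h]
  exact (isClosed_Dg hσ).inter (isClosed_iInter fun g => isClosed_iInter fun hg =>
    isClosed_eq hg.smooth.continuous continuous_const)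

/-- gluing over the components of a compact set -/
theorem glueC [CompactSpace X] [T2Space X] {m : ℕ} {F : X → E m}
    (hF : ContMDiff (𝓡 d) (𝓡 m) ∞ F) (hσ : IsSmooth σ) {κ : Form d X 2} (hκ : IsSmooth κ)
    {δ : ℝ} {K : Set X} (hK : IsCompact K)
    (h : ∀ z ∈ K, ∃ (α : Form d X 1) (ρ : Form d X 2), Ex α ρ ∧
      ∀ x ∈ connectedComponentIn K z, ClS F σ δ (κ + ρ) x) :
    ∃ (α : Form d X 1) (ρ : Form d X 2), Ex α ρ ∧ ∀ x ∈ K, ClS F σ δ (κ + ρ) x := by
  classical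
  have : CompactSpace ↥K := isCompact_iff_compactSpace.1 hK
  have key : ∃ S' : Set ↥K, IsClopen S' ∧ (univ : Set ↥K) ⊆ S' ∧ ∃ (α : Form d X 1)
      (ρ : Form d X 2), Ex α ρ ∧ ∀ x : ↥K, x ∈ S' → ClS F σ δ (κ + ρ) x.1 := by
    refine (isCompact_univ (X := ↥K)).induction_on (p := fun S => ∃ S' : Set ↥K, IsClopen S' ∧
      S ⊆ S' ∧ ∃ (α : Form d X 1) (ρ : Form d X 2), Ex α ρ ∧
        ∀ x : ↥K, x ∈ S' → ClS F σ δ (κ + ρ) x.1) ?_ ?_ ?_ ?_
    · exact ⟨∅, isClopen_empty, subset_rfl, 0, 0, Ex.zero, fun x hx => absurd hx (notMem_empty x)⟩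
    · rintro s t hst ⟨S', h1, h2, h3⟩
      exact ⟨S', h1, hst.trans h2, h3⟩
    · rintro s t ⟨S', h1, h2, α, ρ, hp, hg⟩ ⟨T', h1', h2', α', ρ', hp', hg'⟩
      have c1 : IsCompact (Subtype.val '' S') := h1.isClosed.isCompact.image continuous_subtype_val
      have c2 : IsCompact (Subtype.val '' (T' \ S')) :=
        (h1'.diff h1).isClosed.isCompact.image continuous_subtype_val
      have hdis : ∀ x, x ∈ Subtype.val '' S' → x ∉ Subtype.val '' (T' \ S') := by
        rintro _ ⟨x, hx, rfl⟩ ⟨y, hy, hxy⟩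
        have h3 : y = x := Subtype.ext hxy
        rw [h3] at hy
        exact hy.2 hx
      obtain ⟨u, hu, -, hu1, hu0⟩ := cutoff (d := d) c1.isClosed c2.isClosed.isOpen_compl
        (fun x hx => hdis x hx)
      obtain ⟨u', hu', -, hu1', hu0'⟩ := cutoff (d := d) c2.isClosed c1.isClosed.isOpen_compl
        (fun x hx hx' => hdis x hx' hx)
      have hval : ∀ x, (∀ᶠ y in 𝓝 x, u y = 1) → (∀ᶠ y in 𝓝 x, u' y = 0) →
          (κ + (prodD u α ρ + prodD u' α' ρ')) x = (κ + ρ) x := by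
        intro x e1 e2
        refine ext2 fun v w => ?_
        have h3 : (κ + (prodD u α ρ + prodD u' α' ρ')) x ![v, w] = κ x ![v, w] +
          (prodD u α ρ x ![v, w] + prodD u' α' ρ' x ![v, w]) := rfl
        have h4 : (κ + ρ) x ![v, w] = κ x ![v, w] + ρ x ![v, w] := rfl
        rw [h3, h4, hp.mul_apply hu, hp'.mul_apply hu', dd_eventually_const e1,
          dd_eventually_const e1, dd_eventually_const e2, dd_eventually_const e2,
          e1.self_of_nhds, e2.self_of_nhds]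
        ring
      have hval' : ∀ x, (∀ᶠ y in 𝓝 x, u y = 0) → (∀ᶠ y in 𝓝 x, u' y = 1) →
          (κ + (prodD u α ρ + prodD u' α' ρ')) x = (κ + ρ') x := by
        intro x e1 e2
        refine ext2 fun v w => ?_
        have h3 : (κ + (prodD u α ρ + prodD u' α' ρ')) x ![v, w] = κ x ![v, w] +
          (prodD u α ρ x ![v, w] + prodD u' α' ρ' x ![v, w]) := rfl
        have h4 : (κ + ρ') x ![v, w] = κ x ![v, w] + ρ' x ![v, w] := rfl
        rw [h3, h4, hp.mul_apply hu, hp'.mul_apply hu', dd_eventually_const e1,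
          dd_eventually_const e1, dd_eventually_const e2, dd_eventually_const e2,
          e1.self_of_nhds, e2.self_of_nhds]
        ring
      refine ⟨S' ∪ T', h1.union h1', union_subset_union h2 h2', _, _,
        (hp.mul hu).add (hp'.mul hu'), fun x hx => ?_⟩
      by_cases hxS : x ∈ S'
      · have hx1 : x.1 ∈ Subtype.val '' S' := ⟨x, hxS, rfl⟩
        exact (hg x hxS).congr (hval x.1 (hu1 _ hx1) (hu0' _ (fun h => h hx1)))
      · have hxT : x ∈ T' := hx.resolve_left hxS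
        have hx2 : x.1 ∈ Subtype.val '' (T' \ S') := ⟨x, ⟨hxT, hxS⟩, rfl⟩
        exact (hg' x hxT).congr (hval' x.1 (hu0 _ (fun h => h hx2)) (hu1' _ hx2))
    · rintro ⟨z, hz⟩ -
      obtain ⟨α, ρ, hp, hg⟩ := h z hz
      have hsub : connectedComponent (⟨z, hz⟩ : ↥K) ⊆
          Subtype.val ⁻¹' {x | ClS F σ δ (κ + ρ) x} := by
        intro x hx
        apply hg
        rw [connectedComponentIn_eq_image hz]
        exact ⟨x, hx, rfl⟩
      obtain ⟨s, hs, hzs, hsU⟩ := comp_clopen (⟨z, hz⟩ : ↥K)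
        ((isOpen_clS hF hσ (hκ.add hp.s2) δ).preimage continuous_subtype_val) hsub
      exact ⟨s, mem_nhdsWithin_of_mem_nhds (hs.isOpen.mem_nhds hzs), s, hs, subset_rfl, α, ρ, hp,
        fun x hx => hsU hx⟩
  obtain ⟨S', -, h2, α, ρ, hp, hg⟩ := key
  exact ⟨α, ρ, hp, fun x hx => hg ⟨x, hx⟩ (h2 (mem_univ _))⟩

/-- gluing along the fibres of the basic functions -/
theorem glueF [CompactSpace X] [T2Space X] {m : ℕ} {F : X → E m}
    (hF : ContMDiff (𝓡 d) (𝓡 m) ∞ F) (hσ : IsSmooth σ) {κ : Form d X 2} (hκ : IsSmooth κ)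
    {δ : ℝ} (hδ : 0 ≤ δ)
    (h : ∀ z ∈ Dg σ, ∃ (α : Form d X 1) (ρ : Form d X 2), Ex α ρ ∧
      ∀ x ∈ Fib σ z, ClS F σ δ (κ + ρ) x) :
    ∃ (α : Form d X 1) (ρ : Form d X 2), Ex α ρ ∧ ∀ x ∈ Dg σ, Cl F σ δ (κ + ρ) x := by
  have hD : IsCompact (Dg σ) := (isClosed_Dg hσ).isCompact
  have key : ∃ u : X → ℝ, Bs σ u ∧ (∀ x, 0 ≤ u x ∧ u x ≤ 1) ∧ (∀ x ∈ Dg σ, u x = 1) ∧
      ∃ (α : Form d X 1) (ρ : Form d X 2), Ex α ρ ∧ ∀ x ∈ Dg σ, ∀ v w : TangentSpace (𝓡 d) x,
        Ker σ x v → Ker σ x w → |u x * κ x ![v, w] + ρ x ![v, w]| ≤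
          u x * (δ * (nm F x v * nm F x w)) := by
    refine hD.induction_on (p := fun S => ∃ u : X → ℝ, Bs σ u ∧ (∀ x, 0 ≤ u x ∧ u x ≤ 1) ∧
      (∀ x ∈ S, u x = 1) ∧
      ∃ (α : Form d X 1) (ρ : Form d X 2), Ex α ρ ∧ ∀ x ∈ Dg σ, ∀ v w : TangentSpace (𝓡 d) x,
        Ker σ x v → Ker σ x w → |u x * κ x ![v, w] + ρ x ![v, w]| ≤
          u x * (δ * (nm F x v * nm F x w))) ?_ ?_ ?_ ?_
    · refine ⟨_, Bs.const 0, fun x => ⟨le_rfl, zero_le_one⟩, fun x hx => absurd hx (notMem_empty x),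
        0, 0, Ex.zero, fun x _ v w _ _ => ?_⟩
      show |0 * κ x ![v, w] + 0| ≤ 0 * (δ * (nm F x v * nm F x w))
      simp
    · rintro s t hst ⟨u, h1, h2, h3, h4⟩
      exact ⟨u, h1, h2, fun x hx => h3 x (hst hx), h4⟩
    · rintro s t ⟨u, h1, h2, h3, α, ρ, h4, h5⟩ ⟨u', h1', h2', h3', α', ρ', h4', h5'⟩
      have hb : Bs σ (fun x => 1 + (-1) * u x) :=
        (Bs.const 1).add ((Bs.const (-1)).mul h1)
      refine ⟨fun x => u x + (1 + (-1) * u x) * u' x, h1.add (hb.mul h1'), fun x => ?_,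
        fun x hx => ?_, _, _, h4.add (h4'.mul hb.smooth), fun x hx v w hv hw => ?_⟩
      · obtain ⟨a1, a2⟩ := h2 x
        obtain ⟨b1, b2⟩ := h2' x
        constructor
        · have : 0 ≤ (1 + (-1) * u x) * u' x := mul_nonneg (by linarith) b1
          linarith
        · nlinarith
      · rcases hx with hx | hx
        · show u x + (1 + (-1) * u x) * u' x = 1
          rw [h3 x hx]
          ring
        · show u x + (1 + (-1) * u x) * u' x = 1
          rw [h3' x hx]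
          ring
      · have e1 : (ρ + prodD (fun x => 1 + (-1) * u x) α' ρ') x ![v, w] = ρ x ![v, w] +
            prodD (fun x => 1 + (-1) * u x) α' ρ' x ![v, w] := rfl
        rw [e1, h4'.mul_apply hb.smooth, hb.null x v hv, hb.null x w hw]
        have g1 := h5 x hx v w hv hw
        have g2 := h5' x hx v w hv hw
        have a0 : 0 ≤ 1 + (-1) * u x := by linarith [(h2 x).2]
        have e2 : (u x + (1 + (-1) * u x) * u' x) * κ x ![v, w] + (ρ x ![v, w] +
            (0 * α' x ![w] - 0 * α' x ![v] + (1 + (-1) * u x) * ρ' x ![v, w])) =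
            (u x * κ x ![v, w] + ρ x ![v, w]) + (1 + (-1) * u x) *
              (u' x * κ x ![v, w] + ρ' x ![v, w]) := by ring
        rw [e2]
        refine (abs_add_le _ _).trans ?_
        rw [abs_mul, abs_of_nonneg a0]
        have g3 := mul_le_mul_of_nonneg_left g2 a0
        calc |u x * κ x ![v, w] + ρ x ![v, w]| + (1 + (-1) * u x) *
              |u' x * κ x ![v, w] + ρ' x ![v, w]| ≤ u x * (δ * (nm F x v * nm F x w)) +
              (1 + (-1) * u x) * (u' x * (δ * (nm F x v * nm F x w))) := add_le_add g1 g3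
          _ = _ := by ring
    · intro z hz
      obtain ⟨α, ρ, hp, hg⟩ := h z hz
      have hU : IsOpen {x | ClS F σ δ (κ + ρ) x} := isOpen_clS hF hσ (hκ.add hp.s2) δ
      have hR : IsCompact (Dg σ \ {x | ClS F σ δ (κ + ρ) x}) := hD.diff hU
      obtain ⟨g, hgb, hgz, hg0, r, hr, hgr⟩ := exists_sep (σ := σ) (z := z) hR (by
        intro y hy
        by_contra hcon
        push Not at hcon
        exact hy.2 (hg y ⟨hy.1, hcon⟩))
      obtain ⟨b, hb, hb01, hb1, hb0⟩ := cut01 r hr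
      have hbs : Bs σ (fun x => b (g x)) := hgb.comp hb
      refine ⟨{x | b (g x) = 1}, mem_nhdsWithin_of_mem_nhds ?_, fun x => b (g x), hbs,
        fun x => hb01 _, fun x hx => hx, _, _, hp.mul hbs.smooth, fun x hx v w hv hw => ?_⟩
      · have h1 : ∀ᶠ x in 𝓝 z, g x < r / 4 := by
          have h2 : ContinuousAt g z := hgb.smooth.continuous.continuousAt
          exact h2.eventually (gt_mem_nhds (by rw [hgz]; positivity))
        filter_upwards [h1] with x hx
        exact hb1 _ hx.le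
      · rw [hp.mul_apply hbs.smooth, hbs.null x v hv, hbs.null x w hw]
        have e2 : b (g x) * κ x ![v, w] + (0 * α x ![w] - 0 * α x ![v] + b (g x) * ρ x ![v, w]) =
            b (g x) * (κ x ![v, w] + ρ x ![v, w]) := by ring
        rw [e2, abs_mul, abs_of_nonneg (hb01 _).1]
        change b (g x) * |κ x ![v, w] + ρ x ![v, w]| ≤ b (g x) * (δ * (nm F x v * nm F x w))
        by_cases hx0 : b (g x) = 0
        · rw [hx0, zero_mul, zero_mul]
        · have hxU : ClS F σ δ (κ + ρ) x := by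
            by_contra hcon
            apply hx0
            refine hb0 _ ?_
            have := hgr x ⟨hx, hcon⟩
            linarith
          have h1 := (hxU.cl hδ) v w hv hw
          exact mul_le_mul_of_nonneg_left h1 (hb01 _).1
  obtain ⟨u, h1, h2, h3, α, ρ, h4, h5⟩ := key
  refine ⟨α, ρ, h4, fun x hx v w hv hw => ?_⟩
  have h6 := h5 x hx v w hv hw
  rw [h3 x hx, one_mul, one_mul] at h6
  exact h6

end Pool.Agent.V7H58.SF
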