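import Pool.Agent.Q130.SF.Nd2

/-!
# Linear rates of nondegeneracy depend only on the values on the kernel
-/

set_option autoImplicit false

open Set Filter Topology
open scoped Manifold ContDiff

noncomputable section

namespace Pool.Agent.V7H58.SF

open Pool.Agent.Y501.SY
open Pool.Agent.Q130.SF (alt2_add alt2_smul alt2_swap alt_le)

variable {d : ℕ}

theorem alt2_add' (A : (E d) [⋀^Fin 2]→L[ℝ] ℝ) (v u u' : E d) :
    A ![v, u + u'] = A ![v, u] + A ![v, u'] := by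
  rw [alt2_swap, alt2_add, alt2_swap A v u, alt2_swap A v u']
  ring

theorem alt2_smul' (A : (E d) [⋀^Fin 2]→L[ℝ] ℝ) (c : ℝ) (v u : E d) :
    A ![v, c • u] = c * A ![v, u] := by
  rw [alt2_swap, alt2_smul, alt2_swap A v u]
  ring

/-- the bilinear form of an alternating form -/
def bil (A : (E d) [⋀^Fin 2]→L[ℝ] ℝ) : E d →ₗ[ℝ] E d →ₗ[ℝ] ℝ :=
  LinearMap.mk₂ ℝ (fun v w => A ![v, w]) (fun v v' w => alt2_add A v v' w)
    (fun c v w => alt2_smul A c v w) (fun v w w' => alt2_add' A v w w')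
    (fun c v w => alt2_smul' A c v w)

theorem bil_apply (A : (E d) [⋀^Fin 2]→L[ℝ] ℝ) (v w : E d) : bil A v w = A ![v, w] := rfl

/-- a linear form which vanishes on the kernel of `A` is represented by a vector -/
theorem exists_rep (A : (E d) [⋀^Fin 2]→L[ℝ] ℝ) (F : Module.Dual ℝ (E d))
    (hF : ∀ v : E d, (∀ w, A ![v, w] = 0) → F v = 0) : ∃ u : E d, ∀ w, A ![u, w] = F w := by
  have h1 : F ∈ (LinearMap.ker (bil A)).dualAnnihilator := by
    rw [Submodule.mem_dualAnnihilator]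
    intro v hv
    refine hF v fun w => ?_
    rw [LinearMap.mem_ker] at hv
    have h2 := congrArg (fun L => L w) hv
    exact h2
  rw [← LinearMap.range_dualMap_eq_dualAnnihilator_ker] at h1
  obtain ⟨Φ, hΦ⟩ := h1
  obtain ⟨u, hu⟩ := (Module.evalEquiv ℝ (E d)).surjective Φ
  refine ⟨-u, fun w => ?_⟩
  have h2 : F w = Φ (bil A w) := by
    rw [← hΦ]
    rfl
  have h3 : Φ (bil A w) = A ![w, u] := by
    rw [← hu]
    rfl
  rw [h2, h3]
  have h4 := alt2_smul A (-1) u w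
  rw [neg_one_smul] at h4
  rw [h4, alt2_swap A u w]
  ring

/-- the local step -/
theorem local_rate {A B C : E d → (E d) [⋀^Fin 2]→L[ℝ] ℝ} {p₀ : E d} (hA : ContinuousAt A p₀)
    (hB : ContinuousAt B p₀) (hC : ContinuousAt C p₀) {c : ℝ} (hc : 0 < c)
    (hr : ∀ᶠ p in 𝓝 p₀, ∀ ε : ℝ, 0 < ε → ε ≤ c → ∀ v : E d, ∃ w : E d, ‖w‖ ≤ 1 ∧
      c * ε * ‖v‖ ≤ A p ![v, w] + ε * B p ![v, w])
    (hcl : ∀ v w : E d, (∀ u, A p₀ ![v, u] = 0) → (∀ u, A p₀ ![w, u] = 0) →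
      |C p₀ ![v, w] - B p₀ ![v, w]| ≤ c / 4 * (‖v‖ * ‖w‖)) {v₀ : E d} (hv₀ : ‖v₀‖ = 1) :
    ∀ᶠ z : (E d × ℝ) × E d in 𝓝 ((p₀, 0), v₀), 0 < z.1.2 → ‖z.2‖ = 1 → ∀ s : ℝ, 0 ≤ s → s ≤ 1 →
      ∃ w : E d, ‖w‖ ≤ 1 ∧ c / 8 * z.1.2 ≤ A z.1.1 ![z.2, w] +
        z.1.2 * ((1 - s) * B z.1.1 ![z.2, w] + s * C z.1.1 ![z.2, w]) := by
  have tp : Tendsto (fun z : (E d × ℝ) × E d => z.1.1) (𝓝 ((p₀, 0), v₀)) (𝓝 p₀) :=
    (continuous_fst.comp continuous_fst).tendsto _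
  have te : Tendsto (fun z : (E d × ℝ) × E d => z.1.2) (𝓝 ((p₀, 0), v₀)) (𝓝 0) :=
    (continuous_snd.comp continuous_fst).tendsto _
  have tv : Tendsto (fun z : (E d × ℝ) × E d => z.2) (𝓝 ((p₀, 0), v₀)) (𝓝 v₀) :=
    continuous_snd.tendsto _
  obtain ⟨M, hM⟩ : ∃ M, M = ‖B p₀‖ + ‖C p₀‖ + 1 := ⟨_, rfl⟩
  have hM0 : 0 < M := by rw [hM]; positivity
  have eM : ∀ᶠ z : (E d × ℝ) × E d in 𝓝 ((p₀, 0), v₀), ‖B z.1.1‖ + ‖C z.1.1‖ < M := by
    have h1 : ContinuousAt (fun p => ‖B p‖ + ‖C p‖) p₀ := hB.norm.add hC.norm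
    refine tp.eventually (h1.eventually (gt_mem_nhds ?_))
    show ‖B p₀‖ + ‖C p₀‖ < M
    rw [hM]
    linarith
  by_cases hker : ∀ u, A p₀ ![v₀, u] = 0
  · -- kernel vectors
    obtain ⟨K, hK⟩ : ∃ K : Submodule ℝ (E d), K = LinearMap.ker (bil (A p₀)) := ⟨_, rfl⟩
    have memK : ∀ v, v ∈ K ↔ ∀ u, A p₀ ![v, u] = 0 := by
      intro v
      rw [hK, LinearMap.mem_ker]
      constructor
      · intro h u
        exact congrArg (fun L => L u) h
      · intro h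
        ext u
        exact h u
    obtain ⟨P, hP⟩ : ∃ P : E d →L[ℝ] E d, P = K.starProjection := ⟨_, rfl⟩
    have PK : ∀ w, P w ∈ K := fun w => by rw [hP]; exact Submodule.starProjection_apply_mem K w
    have Pid : ∀ w ∈ K, P w = w := fun w hw => by
      rw [hP]; exact Submodule.starProjection_eq_self_iff.2 hw
    have Pn : ∀ w, ‖P w‖ ≤ ‖w‖ := fun w => by
      rw [hP]
      exact Submodule.norm_starProjection_apply_le K w
    obtain ⟨D, hD⟩ : ∃ D : (E d) [⋀^Fin 2]→L[ℝ] ℝ, D = C p₀ - B p₀ := ⟨_, rfl⟩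
    obtain ⟨u₀, hu₀⟩ := exists_rep (A p₀) ((bil D v₀) ∘ₗ (LinearMap.id - (P : E d →ₗ[ℝ] E d)))
      (fun v hv => by
        have h1 : P v = v := Pid v ((memK v).2 hv)
        show bil D v₀ (v - P v) = 0
        rw [h1, sub_self, map_zero])
    have key : ∀ w : E d, ‖w‖ ≤ 1 → |A p₀ ![u₀, w] - D ![v₀, w]| ≤ c / 4 := by
      intro w hw
      have h1 : A p₀ ![u₀, w] = D ![v₀, w] - D ![v₀, P w] := by
        rw [hu₀]
        show bil D v₀ (w - P w) = _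
        rw [map_sub]
        rfl
      have h2 : A p₀ ![u₀, w] - D ![v₀, w] = -(C p₀ ![v₀, P w] - B p₀ ![v₀, P w]) := by
        rw [h1, hD]
        have h3 : ∀ x y : E d, (C p₀ - B p₀) ![x, y] = C p₀ ![x, y] - B p₀ ![x, y] := fun _ _ => rfl
        rw [h3, h3]
        ring
      rw [h2, abs_neg]
      refine (hcl v₀ (P w) hker ((memK _).1 (PK w))).trans ?_
      rw [hv₀, one_mul]
      have h3 := (Pn w).trans hw
      nlinarith
    -- errors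
    have e1 : ∀ᶠ z : (E d × ℝ) × E d in 𝓝 ((p₀, 0), v₀),
        ‖A z.1.1 - A p₀‖ * ‖u₀‖ + ‖(C z.1.1 - B z.1.1) - D‖ + ‖D‖ * ‖z.2 - v₀‖ < c / 8 := by
      have h1 : Tendsto (fun z : (E d × ℝ) × E d => ‖A z.1.1 - A p₀‖ * ‖u₀‖ +
          ‖(C z.1.1 - B z.1.1) - D‖ + ‖D‖ * ‖z.2 - v₀‖) (𝓝 ((p₀, 0), v₀))
          (𝓝 (‖A p₀ - A p₀‖ * ‖u₀‖ + ‖(C p₀ - B p₀) - D‖ + ‖D‖ * ‖v₀ - v₀‖)) := by
        refine Tendsto.add (Tendsto.add ?_ ?_) ?_
        · exact ((((hA.tendsto.comp tp).sub_const (A p₀)).norm).mul_const _)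
        · exact (((hC.tendsto.comp tp).sub (hB.tendsto.comp tp)).sub_const D).norm
        · exact ((tv.sub_const v₀).norm).const_mul _
      rw [← hD, sub_self, sub_self, sub_self, norm_zero, norm_zero, zero_mul,
        mul_zero, add_zero, add_zero] at h1
      exact h1.eventually (gt_mem_nhds (by positivity))
    have e2 : ∀ᶠ z : (E d × ℝ) × E d in 𝓝 ((p₀, 0), v₀), z.1.2 * ((c + M) * ‖u₀‖) < c / 2 ∧
        z.1.2 < c := by
      have h1 : Tendsto (fun z : (E d × ℝ) × E d => z.1.2 * ((c + M) * ‖u₀‖))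
          (𝓝 ((p₀, 0), v₀)) (𝓝 (0 * ((c + M) * ‖u₀‖))) := te.mul_const _
      rw [zero_mul] at h1
      exact (h1.eventually (gt_mem_nhds (by positivity))).and (te.eventually (gt_mem_nhds hc))
    filter_upwards [tp.eventually hr, e1, e2, eM] with z z1 z2 z3 z4 hε hv s hs0 hs1
    obtain ⟨⟨p, ε⟩, v⟩ := z
    simp only at z1 z2 z3 z4 hε hv ⊢
    obtain ⟨w, hw, hcw⟩ := z1 ε hε z3.2.le (v + (ε * s) • u₀)
    refine ⟨w, hw, ?_⟩
    rw [alt2_add, alt2_add, alt2_smul, alt2_smul] at hcw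
    have g1 : ‖v‖ - ε * ‖u₀‖ ≤ ‖v + (ε * s) • u₀‖ := by
      have h1 : ‖v‖ - ‖(ε * s) • u₀‖ ≤ ‖v + (ε * s) • u₀‖ := by
        have := norm_sub_norm_le v (-((ε * s) • u₀))
        rw [sub_neg_eq_add, norm_neg] at this
        exact this
      have h2 : ‖(ε * s) • u₀‖ ≤ ε * ‖u₀‖ := by
        rw [norm_smul, Real.norm_eq_abs, abs_of_nonneg (by positivity)]
        have : ε * s ≤ ε * 1 := mul_le_mul_of_nonneg_left hs1 hε.le
        rw [mul_one] at this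
        exact mul_le_mul_of_nonneg_right this (norm_nonneg _)
      linarith
    rw [hv] at g1
    have g2 : |A p ![u₀, w] - (C p ![v, w] - B p ![v, w])| ≤ c / 4 + c / 8 := by
      have h1 : A p ![u₀, w] - (C p ![v, w] - B p ![v, w]) =
          (A p₀ ![u₀, w] - D ![v₀, w]) + (A p - A p₀) ![u₀, w] -
            ((C p - B p) - D) ![v, w] - D ![v - v₀, w] := by
        have h2 : (A p - A p₀) ![u₀, w] = A p ![u₀, w] - A p₀ ![u₀, w] := rfl
        have h3 : ((C p - B p) - D) ![v, w] = C p ![v, w] - B p ![v, w] - D ![v, w] := rfl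
        have h4 : D ![v - v₀, w] = D ![v, w] - D ![v₀, w] := by
          rw [sub_eq_add_neg, alt2_add, ← neg_one_smul ℝ v₀, alt2_smul]
          ring
        rw [h2, h3, h4]
        ring
      have h2 := key w hw
      have h3 := alt_le (A p - A p₀) (v := u₀) hw
      have h4 := alt_le ((C p - B p) - D) (v := v) hw
      have h5 := alt_le D (v := v - v₀) hw
      rw [hv, mul_one] at h4
      rw [h1]
      calc |(A p₀ ![u₀, w] - D ![v₀, w]) + (A p - A p₀) ![u₀, w] -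
            ((C p - B p) - D) ![v, w] - D ![v - v₀, w]| ≤
          |A p₀ ![u₀, w] - D ![v₀, w]| + |(A p - A p₀) ![u₀, w]| +
            |((C p - B p) - D) ![v, w]| + |D ![v - v₀, w]| := by
            refine (abs_sub _ _).trans (add_le_add ((abs_sub _ _).trans
              (add_le_add (abs_add_le _ _) le_rfl)) le_rfl)
        _ ≤ _ := by linarith
    have g3 := alt_le (B p) (v := u₀) hw
    have g4 : ‖B p‖ ≤ M := by
      have := norm_nonneg (C p)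
      linarith
    have g5 : |B p ![u₀, w]| ≤ M * ‖u₀‖ := g3.trans (mul_le_mul_of_nonneg_right g4 (norm_nonneg _))
    obtain ⟨a, ha⟩ : ∃ a, a = A p ![v, w] := ⟨_, rfl⟩
    obtain ⟨b, hb⟩ : ∃ b, b = B p ![v, w] := ⟨_, rfl⟩
    obtain ⟨e, he⟩ : ∃ e, e = C p ![v, w] := ⟨_, rfl⟩
    obtain ⟨a', ha'⟩ : ∃ a', a' = A p ![u₀, w] := ⟨_, rfl⟩
    obtain ⟨b', hb'⟩ : ∃ b', b' = B p ![u₀, w] := ⟨_, rfl⟩
    obtain ⟨N, hN⟩ : ∃ N, N = ‖v + (ε * s) • u₀‖ := ⟨_, rfl⟩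
    rw [← ha, ← hb, ← he]
    rw [← ha, ← hb, ← ha', ← hb', ← hN] at hcw
    rw [← hb, ← he, ← ha'] at g2
    rw [← hb'] at g5
    rw [← hN] at g1
    have g6 : c * ε * (1 - ε * ‖u₀‖) ≤ c * ε * N := mul_le_mul_of_nonneg_left g1 (by positivity)
    have g7 : ε * s * (a' - (e - b)) ≤ ε * (c / 4 + c / 8) := by
      have h1 : s * (a' - (e - b)) ≤ 1 * (c / 4 + c / 8) := by
        calc s * (a' - (e - b)) ≤ s * (c / 4 + c / 8) :=
              mul_le_mul_of_nonneg_left ((abs_le.1 g2).2) hs0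
          _ ≤ 1 * (c / 4 + c / 8) := mul_le_mul_of_nonneg_right hs1 (by positivity)
      have h2 := mul_le_mul_of_nonneg_left h1 hε.le
      linarith
    have g8 : ε * (ε * s * b') ≤ ε * (ε * (M * ‖u₀‖)) := by
      refine mul_le_mul_of_nonneg_left ?_ hε.le
      have h1 : s * b' ≤ 1 * (M * ‖u₀‖) := by
        calc s * b' ≤ s * (M * ‖u₀‖) := mul_le_mul_of_nonneg_left ((abs_le.1 g5).2) hs0
          _ ≤ 1 * (M * ‖u₀‖) := mul_le_mul_of_nonneg_right hs1 (by positivity)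
      have h2 := mul_le_mul_of_nonneg_left h1 hε.le
      linarith
    have g9 : ε * (ε * ((c + M) * ‖u₀‖)) ≤ ε * (c / 2) := mul_le_mul_of_nonneg_left z3.1.le hε.le
    have g10 : a + ε * ((1 - s) * b + s * e) = (a + ε * s * a' + ε * (b + ε * s * b')) -
        ε * s * (a' - (e - b)) - ε * (ε * s * b') := by ring
    rw [g10]
    nlinarith
  · push Not at hker
    obtain ⟨w₀, hw₀⟩ := hker
    have hw0 : w₀ ≠ 0 := by
      rintro rfl
      apply hw₀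
      have h1 := alt2_smul' (A p₀) 0 v₀ 0
      rw [zero_smul, zero_mul] at h1
      exact h1
    obtain ⟨u, hu1, hu2⟩ : ∃ u : E d, ‖u‖ ≤ 1 ∧ 0 < A p₀ ![v₀, u] := by
      have h2 : 0 < ‖w₀‖⁻¹ := inv_pos.2 (norm_pos_iff.2 hw0)
      rcases lt_or_gt_of_ne hw₀ with h1 | h1
      · refine ⟨(-‖w₀‖⁻¹) • w₀, ?_, ?_⟩
        · rw [norm_smul, norm_neg, norm_inv, norm_norm, inv_mul_cancel₀ (norm_ne_zero_iff.2 hw0)]
        · rw [alt2_smul']
          nlinarith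
      · refine ⟨‖w₀‖⁻¹ • w₀, ?_, ?_⟩
        · rw [norm_smul, norm_inv, norm_norm, inv_mul_cancel₀ (norm_ne_zero_iff.2 hw0)]
        · rw [alt2_smul']
          positivity
    obtain ⟨m, hm⟩ : ∃ m, m = A p₀ ![v₀, u] := ⟨_, rfl⟩
    rw [← hm] at hu2
    have e1 : ∀ᶠ z : (E d × ℝ) × E d in 𝓝 ((p₀, 0), v₀),
        ‖A z.1.1 - A p₀‖ + ‖A p₀‖ * ‖z.2 - v₀‖ < m / 2 := by
      have h1 : Tendsto (fun z : (E d × ℝ) × E d => ‖A z.1.1 - A p₀‖ + ‖A p₀‖ * ‖z.2 - v₀‖)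
          (𝓝 ((p₀, 0), v₀)) (𝓝 (‖A p₀ - A p₀‖ + ‖A p₀‖ * ‖v₀ - v₀‖)) := by
        refine Tendsto.add ?_ ?_
        · exact ((hA.tendsto.comp tp).sub_const (A p₀)).norm
        · exact ((tv.sub_const v₀).norm).const_mul _
      rw [sub_self, sub_self, norm_zero, norm_zero, mul_zero, add_zero] at h1
      exact h1.eventually (gt_mem_nhds (by positivity))
    have e2 : ∀ᶠ z : (E d × ℝ) × E d in 𝓝 ((p₀, 0), v₀), z.1.2 * (M + c) < m / 2 := by
      have h1 : Tendsto (fun z : (E d × ℝ) × E d => z.1.2 * (M + c))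
          (𝓝 ((p₀, 0), v₀)) (𝓝 (0 * (M + c))) := te.mul_const _
      rw [zero_mul] at h1
      exact h1.eventually (gt_mem_nhds (by positivity))
    filter_upwards [e1, e2, eM] with z z1 z2 z3 hε hv s hs0 hs1
    obtain ⟨⟨p, ε⟩, v⟩ := z
    simp only at z1 z2 z3 hε hv ⊢
    refine ⟨u, hu1, ?_⟩
    have h1 : A p ![v, u] = m + (A p - A p₀) ![v, u] + A p₀ ![v - v₀, u] := by
      have h2 : (A p - A p₀) ![v, u] = A p ![v, u] - A p₀ ![v, u] := rfl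
      have h4 : A p₀ ![v - v₀, u] = A p₀ ![v, u] - A p₀ ![v₀, u] := by
        rw [sub_eq_add_neg, alt2_add, ← neg_one_smul ℝ v₀, alt2_smul]
        ring
      rw [h2, h4, hm]
      ring
    have h2 := alt_le (A p - A p₀) (v := v) hu1
    have h3 := alt_le (A p₀) (v := v - v₀) hu1
    rw [hv, mul_one] at h2
    have g2 := alt_le (B p) (v := v) hu1
    have g3 := alt_le (C p) (v := v) hu1
    rw [hv, mul_one] at g2 g3
    have g7 : |(1 - s) * B p ![v, u] + s * C p ![v, u]| ≤ M := by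
      calc |(1 - s) * B p ![v, u] + s * C p ![v, u]| ≤
          |(1 - s) * B p ![v, u]| + |s * C p ![v, u]| := abs_add_le _ _
        _ ≤ 1 * ‖B p‖ + 1 * ‖C p‖ := by
            rw [abs_mul, abs_mul]
            refine add_le_add (mul_le_mul ?_ g2 (abs_nonneg _) zero_le_one)
              (mul_le_mul ?_ g3 (abs_nonneg _) zero_le_one)
            · rw [abs_of_nonneg (by linarith)]
              linarith
            · rw [abs_of_nonneg hs0]
              exact hs1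
        _ ≤ M := by linarith
    have g8 := mul_le_mul_of_nonneg_left (abs_le.1 g7).1 hε.le
    have h4 := (abs_le.1 h2).1
    have h5 := (abs_le.1 h3).1
    rw [h1]
    nlinarith

/-- **the rate of nondegeneracy depends only on the values on the kernel** -/
theorem rate_seg {A B C : E d → (E d) [⋀^Fin 2]→L[ℝ] ℝ} {p₀ : E d} (hA : ContinuousAt A p₀)
    (hB : ContinuousAt B p₀) (hC : ContinuousAt C p₀) {c : ℝ} (hc : 0 < c)
    (hr : ∀ᶠ p in 𝓝 p₀, ∀ ε : ℝ, 0 < ε → ε ≤ c → ∀ v : E d, ∃ w : E d, ‖w‖ ≤ 1 ∧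
      c * ε * ‖v‖ ≤ A p ![v, w] + ε * B p ![v, w])
    (hcl : ∀ v w : E d, (∀ u, A p₀ ![v, u] = 0) → (∀ u, A p₀ ![w, u] = 0) →
      |C p₀ ![v, w] - B p₀ ![v, w]| ≤ c / 4 * (‖v‖ * ‖w‖)) :
    ∃ c' : ℝ, 0 < c' ∧ ∀ᶠ p in 𝓝 p₀, ∀ ε : ℝ, 0 < ε → ε ≤ c' → ∀ s : ℝ, 0 ≤ s → s ≤ 1 →
      ∀ v : E d, v ≠ 0 → ∃ w : E d, A p ![v, w] + ε * ((1 - s) * B p ![v, w] +
        s * C p ![v, w]) ≠ 0 := by
  have h1 := (isCompact_sphere (0 : E d) 1).eventually_forall_of_forall_eventually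
    (x₀ := ((p₀, 0) : E d × ℝ)) (P := fun q v => 0 < q.2 → ‖v‖ = 1 → ∀ s : ℝ, 0 ≤ s → s ≤ 1 →
      ∃ w : E d, ‖w‖ ≤ 1 ∧ c / 8 * q.2 ≤ A q.1 ![v, w] +
        q.2 * ((1 - s) * B q.1 ![v, w] + s * C q.1 ![v, w]))
    (fun v hv => local_rate hA hB hC hc hr hcl (mem_sphere_zero_iff_norm.1 hv))
  rw [nhds_prod_eq, eventually_prod_iff] at h1
  obtain ⟨pa, ha, pb, hb, hab⟩ := h1
  obtain ⟨r, hr0, hrb⟩ := Metric.eventually_nhds_iff.1 hb
  refine ⟨r / 2, by positivity, ?_⟩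
  filter_upwards [ha] with p hp ε hε hεr s hs0 hs1 v hv
  have h2 : pb ε := hrb (by
    rw [Real.dist_eq, sub_zero, abs_of_pos hε]
    linarith)
  have hn : 0 < ‖v‖ := norm_pos_iff.2 hv
  have h3 : ‖‖v‖⁻¹ • v‖ = 1 := by
    rw [norm_smul, norm_inv, norm_norm, inv_mul_cancel₀ hn.ne']
  obtain ⟨w, -, hw⟩ := hab hp h2 (‖v‖⁻¹ • v) (mem_sphere_zero_iff_norm.2 h3) hε h3 s hs0 hs1
  refine ⟨w, fun h0 => ?_⟩
  simp only [alt2_smul] at hw
  have h4 : ‖v‖⁻¹ * A p ![v, w] + ε * ((1 - s) * (‖v‖⁻¹ * B p ![v, w]) +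
      s * (‖v‖⁻¹ * C p ![v, w])) = ‖v‖⁻¹ * (A p ![v, w] + ε * ((1 - s) * B p ![v, w] +
        s * C p ![v, w])) := by ring
  rw [h4, h0, mul_zero] at hw
  have h5 : 0 < c / 8 * ε := by positivity
  linarith

end Pool.Agent.V7H58.SF
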