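import Pool.Agent.V7H58.SF.Glue

/-!
# Symplectic forms near a closed two-form: the theorem
-/

set_option autoImplicit false

open Set Filter Topology MeasureTheory
open scoped Manifold ContDiff

noncomputable section

namespace Pool.Agent.V7H58.SF

open Pool.Agent.Y501.SY
open Pool.Agent.Q130.SF (nd ext2 cutoff mix GoodAt RateAt)

variable {d : ℕ} {X : Type} [TopologicalSpace X] [ChartedSpace (E d) X]

/-- over `C`, on the kernels of `σ`, the form `κ` is a uniform limit of exact forms -/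
def Approx (σ κ : Form d X 2) (C : Set X) : Prop :=
  ∃ (n : ℕ) (h : Fin n → X → ℝ), (∀ i, SmoothFun (d := d) (h i)) ∧ ∀ δ : ℝ, 0 < δ →
    ∃ (α : Form d X 1) (ρ : Form d X 2), Ex α ρ ∧
      ∀ x ∈ C, ∀ v w : TangentSpace (𝓡 d) x, Ker σ x v → Ker σ x w →
        |κ x ![v, w] - ρ x ![v, w]| ≤ δ * ((∑ i, |dd (d := d) (h i) x v|) *
          ∑ i, |dd (d := d) (h i) x w|)

variable [IsManifold (𝓡 d) ∞ X]

theorem bdd_at1 {β : Form d X 1} (hβ : IsSmooth β) (x : X) : BddAt1 β ∅ x := by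
  have h2 : ContinuousAt (pb (chartAt (E d) x).symm β) (chartAt (E d) x x) :=
    pb_contAt hβ x (mem_chart_target (E d) x)
  refine ⟨‖pb (chartAt (E d) x).symm β (chartAt (E d) x x)‖ + 1, ?_⟩
  filter_upwards [h2.norm.eventually_lt_const (lt_add_one _)] with p hp _
  exact hp.le

/-- differentials are bounded by the norm of an immersion -/
theorem bound_dd [CompactSpace X] {m : ℕ} {F : X → E m} (hF : ContMDiff (𝓡 d) (𝓡 m) ∞ F)
    (hFi : ∀ x, Function.Injective (mfderiv (𝓡 d) (𝓡 m) F x)) {n : ℕ} {h : Fin n → X → ℝ}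
    (hh : ∀ i, SmoothFun (d := d) (h i)) :
    ∃ M : ℝ, 0 < M ∧ ∀ (x : X) (v : TangentSpace (𝓡 d) x),
      ∑ i, |dd (d := d) (h i) x v| ≤ M * nm F x v := by
  have h1 : ∀ i, ∃ B : ℝ, 0 < B ∧ ∀ (x : X) (v : TangentSpace (𝓡 d) x),
      |dd (d := d) (h i) x v| ≤ B * nm F x v := by
    intro i
    have hs : IsSmooth (fdg (d := d) (fun _ : X => (1 : ℝ)) (h i)) :=
      (Pool.Agent.Y484.SY.t_GEN d X (fun _ => 1) (fun _ => 1) (h i) (SmoothFun.const 1)
        (SmoothFun.const 1) (hh i)).1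
    obtain ⟨B, hB, hB'⟩ := bdd1_glob Pool.Agent.Y44.SY.t_IMM hF hFi (K := ∅) (bdd_at1 hs)
    refine ⟨B, hB, fun x v => ?_⟩
    have h2 := hB' x (notMem_empty x) v
    rw [fdg_apply, one_mul] at h2
    exact h2
  choose B hB hB' using h1
  refine ⟨∑ i, B i + 1, ?_, fun x v => ?_⟩
  · have : 0 ≤ ∑ i, B i := Finset.sum_nonneg fun i _ => (hB i).le
    linarith
  · have h2 := nm_nonneg F x v
    calc ∑ i, |dd (d := d) (h i) x v| ≤ ∑ i, B i * nm F x v :=
          Finset.sum_le_sum fun i _ => hB' i x v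
      _ = (∑ i, B i) * nm F x v := by rw [Finset.sum_mul]
      _ ≤ (∑ i, B i + 1) * nm F x v := mul_le_mul_of_nonneg_right (by linarith) h2

/-- **The theorem.** -/
theorem mainThm [CompactSpace X] [T2Space X] {σ ζ θ : Form d X 2} (hσ : IsSmooth σ)
    (hζ : IsSmooth ζ) (hθ : IsSmooth θ) (hR : ∀ x, ¬ nd σ x → RateAt σ θ x)
    (hA : ∀ z ∈ Dg σ, Approx σ (θ - ζ) (connectedComponentIn (Fib σ z) z))
    {W : Set X} (hW : IsOpen W) (hDW : Dg σ ⊆ W) :
    ∃ (α : Form d X 1) (ρ : Form d X 2), Ex α ρ ∧ (∀ x, x ∉ W → α x = 0 ∧ ρ x = 0) ∧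
      ∃ ε₀ : ℝ, 0 < ε₀ ∧ ∀ ε : ℝ, 0 < ε → ε ≤ ε₀ → ∀ s : ℝ, 0 ≤ s → s ≤ 1 →
        ∀ x, nd (mix σ θ (ζ + ρ) ε s) x := by
  obtain ⟨m, F, hF, -, hFi⟩ := exists_embedding_euclidean_of_compact (I := 𝓡 d) (M := X)
  obtain ⟨δ, hδ, hgood⟩ := good_unif hF hFi hσ hθ hR
  have hζ' : IsSmooth (ζ - θ) := by
    have h1 := hζ.add (hθ.smul (-1))
    have h2 : ζ + (-1 : ℝ) • θ = ζ - θ := by
      funext x
      refine ext2 fun v w => ?_
      show ζ x ![v, w] + (-1 : ℝ) * θ x ![v, w] = ζ x ![v, w] - θ x ![v, w]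
      ring
    rwa [h2] at h1
  -- components
  have hcomp : ∀ z ∈ Dg σ, ∃ (α : Form d X 1) (ρ : Form d X 2), Ex α ρ ∧
      ∀ x ∈ connectedComponentIn (Fib σ z) z, ClS F σ δ ((ζ - θ) + ρ) x := by
    intro z hz
    obtain ⟨n, h, hh, happ⟩ := hA z hz
    obtain ⟨M, hM, hbd⟩ := bound_dd hF hFi hh
    obtain ⟨α, ρ, hex, hcl⟩ := happ (δ / (2 * M ^ 2)) (by positivity)
    refine ⟨α, ρ, hex, fun x hx => ?_⟩
    refine Cl.clS (δ := δ / 2) hFi (by linarith) fun v w hv hw => ?_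
    have h1 := hcl x hx v w hv hw
    have e1 : ((ζ - θ) + ρ) x ![v, w] = -((θ - ζ) x ![v, w] - ρ x ![v, w]) := by
      show (ζ x ![v, w] - θ x ![v, w]) + ρ x ![v, w] = -((θ x ![v, w] - ζ x ![v, w]) - ρ x ![v, w])
      ring
    rw [e1, abs_neg]
    refine h1.trans ?_
    have h2 := hbd x v
    have h3 := hbd x w
    have h4 : (∑ i, |dd (d := d) (h i) x v|) * ∑ i, |dd (d := d) (h i) x w| ≤
        (M * nm F x v) * (M * nm F x w) := by
      refine mul_le_mul h2 h3 (Finset.sum_nonneg fun i _ => abs_nonneg _) ?_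
      have := nm_nonneg F x v
      positivity
    calc δ / (2 * M ^ 2) * ((∑ i, |dd (d := d) (h i) x v|) * ∑ i, |dd (d := d) (h i) x w|) ≤
        δ / (2 * M ^ 2) * ((M * nm F x v) * (M * nm F x w)) :=
          mul_le_mul_of_nonneg_left h4 (by positivity)
      _ = δ / 2 * (nm F x v * nm F x w) := by field_simp
  -- fibres
  have hfib : ∀ z ∈ Dg σ, ∃ (α : Form d X 1) (ρ : Form d X 2), Ex α ρ ∧
      ∀ x ∈ Fib σ z, ClS F σ δ ((ζ - θ) + ρ) x := by
    intro z hz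
    refine glueC hF hσ hζ' (isClosed_Fib hσ z).isCompact fun z' hz' => ?_
    obtain ⟨α, ρ, h1, h2⟩ := hcomp z' hz'.1
    rw [Fib.eq hz'] at h2
    exact ⟨α, ρ, h1, h2⟩
  obtain ⟨α, ρ, hex, hcl⟩ := glueF hF hσ hζ' hδ.le hfib
  obtain ⟨u, hu, -, hu1, hu0⟩ := cutoff (d := d) (isClosed_Dg hσ) hW hDW
  have hex' := hex.mul hu
  have hg : ∀ y, GoodAt σ θ (ζ + prodD u α ρ) y := by
    intro y
    refine hgood _ (hζ.add hex'.s2) y fun v w hv hw => ?_
    by_cases hy : nd σ y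
    · rw [hy v hv, app_zero_left, abs_zero]
      have h1 := nm_nonneg F y (0 : TangentSpace (𝓡 d) y)
      have h2 := nm_nonneg F y w
      exact mul_nonneg hδ.le (mul_nonneg h1 h2)
    · have h1 := hcl y hy v w hv hw
      have e1 : (ζ + prodD u α ρ - θ) y ![v, w] = ((ζ - θ) + ρ) y ![v, w] := by
        have h2 : prodD u α ρ y ![v, w] = ρ y ![v, w] := by
          rw [hex.mul_apply hu, dd_eventually_const (hu1 y hy), dd_eventually_const (hu1 y hy),
            (hu1 y hy).self_of_nhds]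
          ring
        show ζ y ![v, w] + prodD u α ρ y ![v, w] - θ y ![v, w] =
          (ζ y ![v, w] - θ y ![v, w]) + ρ y ![v, w]
        rw [h2]
        ring
      rw [e1]
      exact h1
  obtain ⟨ε, hε, ht⟩ := unif isCompact_univ
    (fun ε y => ∀ ε' : ℝ, 0 < ε' → ε' ≤ ε → ∀ s : ℝ, 0 ≤ s → s ≤ 1 →
      nd (mix σ θ (ζ + prodD u α ρ) ε' s) y)
    (fun ε ε' y hle hp ε'' h0 h1 => hp ε'' h0 (h1.trans hle))
    (fun x _ => hg x)
  refine ⟨_, _, hex', fun x hx => ?_, ε, hε, fun ε' h1 h2 s h3 h4 x =>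
    ht x (mem_univ x) ε' h1 h2 s h3 h4⟩
  have h1 := hu0 x hx
  constructor
  · show u x • α x = 0
    rw [h1.self_of_nhds, zero_smul]
  · refine ext2 fun v w => ?_
    rw [hex.mul_apply hu, h1.self_of_nhds, dd_eventually_const h1, dd_eventually_const h1]
    simp

end Pool.Agent.V7H58.SF
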