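import Pool.Agent.V7H58.SF.Main

/-!
# Forms which are limits of exact forms on the kernels
-/

set_option autoImplicit false

open Set Filter Topology MeasureTheory
open scoped Manifold ContDiff

noncomputable section

namespace Pool.Agent.V7H58.SF

open Pool.Agent.Y501.SY
open Pool.Agent.Q130.SF (nd ext2 cutoff pb_apply2)

variable {d : ℕ} {X : Type} [TopologicalSpace X] [ChartedSpace (E d) X]

theorem le_norm2 (T : (E d) [⋀^Fin 2]→L[ℝ] ℝ) (v w : E d) : |T ![v, w]| ≤ ‖T‖ * (‖v‖ * ‖w‖) := by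
  have h := T.le_opNorm ![v, w]
  rw [Fin.prod_univ_two, Real.norm_eq_abs] at h
  exact h

variable [IsManifold (𝓡 d) ∞ X]

/-- smooth two-forms are bounded by the norm of an immersion -/
theorem bdd2_glob [CompactSpace X] {m : ℕ} {F : X → E m} (hF : ContMDiff (𝓡 d) (𝓡 m) ∞ F)
    (hFi : ∀ x, Function.Injective (mfderiv (𝓡 d) (𝓡 m) F x)) {β : Form d X 2}
    (hβ : IsSmooth β) :
    ∃ B : ℝ, 0 < B ∧ ∀ x, ∀ v w : TangentSpace (𝓡 d) x,
      |β x ![v, w]| ≤ B * (nm F x v * nm F x w) := by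
  obtain ⟨ε, hε, h⟩ := unif (isCompact_univ (X := X))
    (fun (ε : ℝ) (y : X) => ∀ v w : TangentSpace (𝓡 d) y,
      ε * |β y ![v, w]| ≤ nm F y v * nm F y w)
    (fun ε ε' y hle hp v w =>
      (mul_le_mul_of_nonneg_right hle (abs_nonneg _)).trans (hp v w))
    (fun x _ => by
      have hp0 : chartAt (E d) x x ∈ (chartAt (E d) x).target := mem_chart_target (E d) x
      obtain ⟨r, hr, hball⟩ := Metric.nhds_basis_closedBall.mem_iff.1
        ((chartAt (E d) x).open_target.mem_nhds hp0)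
      obtain ⟨c₁, C₁, hc₁, hC₁, hnm⟩ := Pool.Agent.Y44.SY.t_IMM d m X F hF hFi x _
        (isCompact_closedBall (chartAt (E d) x x) r) hball
      have hN : ∀ᶠ p in 𝓝 (chartAt (E d) x x), p ∈ Metric.closedBall (chartAt (E d) x x) r :=
        Metric.closedBall_mem_nhds _ hr
      obtain ⟨B, hB⟩ : ∃ B, B = ‖pb (chartAt (E d) x).symm β (chartAt (E d) x x)‖ + 1 := ⟨_, rfl⟩
      have hB0 : 0 < B := by rw [hB]; positivity
      have hBn : ∀ᶠ p in 𝓝 (chartAt (E d) x x), ‖pb (chartAt (E d) x).symm β p‖ < B := by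
        rw [hB]
        exact (pb_contAt hβ x hp0).norm.eventually_lt_const (lt_add_one _)
      refine ⟨c₁ ^ 2 / B, by positivity, ?_⟩
      rw [← ev_chart (d := d) x (fun y => ∀ v w : TangentSpace (𝓡 d) y,
        c₁ ^ 2 / B * |β y ![v, w]| ≤ nm F y v * nm F y w)]
      filter_upwards [hBn, hN] with p hp hpN v w
      have hpt := hball hpN
      obtain ⟨v', hv'⟩ := Pool.Agent.Y455.SY.A_surj x hpt v
      obtain ⟨w', hw'⟩ := Pool.Agent.Y455.SY.A_surj x hpt w
      have h4 := (hnm p hpN v').1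
      have h5 := (hnm p hpN w').1
      rw [← hv', ← hw']
      have h1 : β ((chartAt (E d) x).symm p) ![Pool.Agent.Y455.SY.A x p v',
          Pool.Agent.Y455.SY.A x p w'] = pb (chartAt (E d) x).symm β p ![v', w'] := by
        rw [pb_apply2]
        rfl
      rw [h1]
      have h2 := le_norm2 (pb (chartAt (E d) x).symm β p) v' w'
      change c₁ * ‖v'‖ ≤ nm F ((chartAt (E d) x).symm p) (Pool.Agent.Y455.SY.A x p v') at h4
      change c₁ * ‖w'‖ ≤ nm F ((chartAt (E d) x).symm p) (Pool.Agent.Y455.SY.A x p w') at h5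
      have h6 : c₁ ^ 2 / B * |pb (chartAt (E d) x).symm β p ![v', w']| ≤
          c₁ ^ 2 / B * (B * (‖v'‖ * ‖w'‖)) := by
        refine mul_le_mul_of_nonneg_left (h2.trans ?_) (by positivity)
        exact mul_le_mul_of_nonneg_right hp.le (by positivity)
      refine h6.trans ?_
      calc c₁ ^ 2 / B * (B * (‖v'‖ * ‖w'‖)) = (c₁ * ‖v'‖) * (c₁ * ‖w'‖) := by field_simp
        _ ≤ _ := mul_le_mul h4 h5 (by positivity) (nm_nonneg _ _ _))
  refine ⟨ε⁻¹, by positivity, fun x v w => ?_⟩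
  have h1 := h x (mem_univ x) v w
  rw [inv_mul_eq_div, le_div_iff₀ hε, mul_comm]
  exact h1

omit [IsManifold (𝓡 d) ∞ X] in
/-- the coordinates of a smooth map to Euclidean space -/
theorem coord_smooth {m : ℕ} {F : X → E m} (hF : ContMDiff (𝓡 d) (𝓡 m) ∞ F) (i : Fin m) :
    SmoothFun (d := d) (fun x => F x i) :=
  ((EuclideanSpace.proj (𝕜 := ℝ) i : E m →L[ℝ] ℝ).contDiff.contMDiff).comp hF

omit [IsManifold (𝓡 d) ∞ X] in
theorem dd_coord {m : ℕ} {F : X → E m} (hF : ContMDiff (𝓡 d) (𝓡 m) ∞ F) (i : Fin m) (x : X)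
    (v : TangentSpace (𝓡 d) x) :
    dd (d := d) (fun x => F x i) x v =
      (EuclideanSpace.proj (𝕜 := ℝ) i : E m →L[ℝ] ℝ) (mfderiv (𝓡 d) (𝓡 m) F x v) := by
  have e1 : (fun x => F x i) = (EuclideanSpace.proj (𝕜 := ℝ) i : E m →L[ℝ] ℝ) ∘ F := rfl
  unfold dd
  rw [e1, mfderiv_comp x
    ((EuclideanSpace.proj (𝕜 := ℝ) i : E m →L[ℝ] ℝ).contDiff.contMDiff.mdifferentiableAt
      (n := 1) one_ne_zero) (hF.mdifferentiableAt (by simp)), mfderiv_eq_fderiv,
    ContinuousLinearMap.fderiv]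
  rfl

omit [IsManifold (𝓡 d) ∞ X] in
theorem nm_le_sum {m : ℕ} {F : X → E m} (hF : ContMDiff (𝓡 d) (𝓡 m) ∞ F) (x : X)
    (v : TangentSpace (𝓡 d) x) :
    nm F x v ≤ ∑ i : Fin m, |dd (d := d) (fun x => F x i) x v| := by
  obtain ⟨u, hu⟩ : ∃ u : E m, u = mfderiv (𝓡 d) (𝓡 m) F x v := ⟨_, rfl⟩
  have h1 : nm F x v = ‖u‖ := by rw [hu]; rfl
  rw [h1, EuclideanSpace.norm_eq]
  have h2 : ∑ i : Fin m, ‖u i‖ ^ 2 ≤
      (∑ i : Fin m, |dd (d := d) (fun x => F x i) x v|) ^ 2 := by
    have h3 : ∀ i : Fin m, ‖u i‖ ^ 2 = |dd (d := d) (fun x => F x i) x v| ^ 2 := by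
      intro i
      rw [dd_coord hF, Real.norm_eq_abs, ← hu]
      rfl
    rw [Finset.sum_congr rfl fun i _ => h3 i]
    exact Finset.sum_sq_le_sq_sum_of_nonneg fun i _ => abs_nonneg _
  calc √(∑ i : Fin m, ‖u i‖ ^ 2) ≤
      √((∑ i : Fin m, |dd (d := d) (fun x => F x i) x v|) ^ 2) := Real.sqrt_le_sqrt h2
    _ = _ := Real.sqrt_sq (Finset.sum_nonneg fun i _ => abs_nonneg _)

omit [IsManifold (𝓡 d) ∞ X] in
/-- a form is a limit of exact forms if it can be approximated in the norm of an immersion -/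
theorem approx_of_nm [CompactSpace X] [T2Space X] {m : ℕ} {F : X → E m}
    (hF : ContMDiff (𝓡 d) (𝓡 m) ∞ F) {σ κ : Form d X 2} {C : Set X}
    (h : ∀ δ : ℝ, 0 < δ → ∃ (α : Form d X 1) (ρ : Form d X 2), Ex α ρ ∧
      ∀ x ∈ C, ∀ v w : TangentSpace (𝓡 d) x, Ker σ x v → Ker σ x w →
        |κ x ![v, w] - ρ x ![v, w]| ≤ δ * (nm F x v * nm F x w)) : Approx σ κ C := by
  refine ⟨m, fun i x => F x i, coord_smooth hF, fun δ hδ => ?_⟩
  obtain ⟨α, ρ, hex, hcl⟩ := h δ hδ
  refine ⟨α, ρ, hex, fun x hx v w hv hw => (hcl x hx v w hv hw).trans ?_⟩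
  refine mul_le_mul_of_nonneg_left ?_ hδ.le
  exact mul_le_mul (nm_le_sum hF x v) (nm_le_sum hF x w) (nm_nonneg F x w)
    (Finset.sum_nonneg fun i _ => abs_nonneg _)

theorem Approx.bd [CompactSpace X] {m : ℕ} {F : X → E m}
    (hF : ContMDiff (𝓡 d) (𝓡 m) ∞ F)
    (hFi : ∀ x, Function.Injective (mfderiv (𝓡 d) (𝓡 m) F x)) {σ κ : Form d X 2} {C : Set X}
    (hA : Approx σ κ C) {δ : ℝ} (hδ : 0 < δ) :
    ∃ (α : Form d X 1) (ρ : Form d X 2), Ex α ρ ∧
      ∀ x ∈ C, ∀ v w : TangentSpace (𝓡 d) x, Ker σ x v → Ker σ x w →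
        |κ x ![v, w] - ρ x ![v, w]| ≤ δ * (nm F x v * nm F x w) := by
  obtain ⟨n, h, hh, happ⟩ := hA
  obtain ⟨M, hM, hbd⟩ := bound_dd hF hFi hh
  obtain ⟨α, ρ, hex, hcl⟩ := happ (δ / M ^ 2) (by positivity)
  refine ⟨α, ρ, hex, fun x hx v w hv hw => ?_⟩
  have h1 := hcl x hx v w hv hw
  refine h1.trans ?_
  have h2 := hbd x v
  have h3 := hbd x w
  have h4 : (∑ i, |dd (d := d) (h i) x v|) * ∑ i, |dd (d := d) (h i) x w| ≤
      (M * nm F x v) * (M * nm F x w) := by
    refine mul_le_mul h2 h3 (Finset.sum_nonneg fun i _ => abs_nonneg _) ?_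
    have := nm_nonneg F x v
    positivity
  calc δ / M ^ 2 * ((∑ i, |dd (d := d) (h i) x v|) * ∑ i, |dd (d := d) (h i) x w|) ≤
      δ / M ^ 2 * ((M * nm F x v) * (M * nm F x w)) :=
        mul_le_mul_of_nonneg_left h4 (by positivity)
    _ = δ * (nm F x v * nm F x w) := by field_simp

/-- sums of forms `c da ∧ db` with null images are limits of exact forms -/
theorem approx_sum [CompactSpace X] {m : ℕ} {F : X → E m}
    (hF : ContMDiff (𝓡 d) (𝓡 m) ∞ F)
    (hFi : ∀ x, Function.Injective (mfderiv (𝓡 d) (𝓡 m) F x)) {C : Set X} (hC : IsCompact C)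
    {ι : Type} [Fintype ι] (c a b : ι → X → ℝ)
    (hc : ∀ i, SmoothFun (d := d) (c i)) (ha : ∀ i, SmoothFun (d := d) (a i))
    (hb : ∀ i, SmoothFun (d := d) (b i))
    (hnull : ∀ i, volume ((fun x => (a i x, b i x)) '' (C ∩ tsupport (c i))) = 0)
    {δ : ℝ} (hδ : 0 < δ) :
    ∃ (α : Form d X 1) (ρ : Form d X 2), Ex α ρ ∧ ∀ x ∈ C, ∀ v w : TangentSpace (𝓡 d) x,
      |∑ i, c i x * (dd (d := d) (a i) x v * dd (d := d) (b i) x w -
        dd (d := d) (a i) x w * dd (d := d) (b i) x v) - ρ x ![v, w]| ≤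
          δ * (nm F x v * nm F x w) := by
  obtain ⟨e, he, happ⟩ := Pool.Agent.Q130.SF.approx Pool.Agent.Y484.SY.t_GEN
    Pool.Agent.Y925.SY.t_PLANAR hC c a b hc ha hb hnull
  choose B hB hB' using fun k => bdd2_glob hF hFi (he k)
  have hS : 0 ≤ ∑ k, B k := Finset.sum_nonneg fun k _ => (hB k).le
  obtain ⟨α, η, hp, hη⟩ := happ (δ / (∑ k, B k + 1)) (by positivity)
  refine ⟨α, η, Ex.of_pair hp, fun x hx v w => ?_⟩
  obtain ⟨t, ht, h1⟩ := hη x hx
  rw [h1, sub_add_cancel_left, abs_neg]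
  have n1 := nm_nonneg F x v
  have n2 := nm_nonneg F x w
  calc |∑ k, t k * e k x ![v, w]| ≤ ∑ k, |t k * e k x ![v, w]| := Finset.abs_sum_le_sum_abs _ _
    _ ≤ ∑ k, δ / (∑ k, B k + 1) * (B k * (nm F x v * nm F x w)) := by
        refine Finset.sum_le_sum fun k _ => ?_
        rw [abs_mul]
        exact mul_le_mul (ht k) (hB' k x v w) (abs_nonneg _) (by positivity)
    _ = δ / (∑ k, B k + 1) * ((∑ k, B k) * (nm F x v * nm F x w)) := by
        rw [Finset.sum_mul, Finset.mul_sum]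
    _ ≤ δ / (∑ k, B k + 1) * ((∑ k, B k + 1) * (nm F x v * nm F x w)) := by
        refine mul_le_mul_of_nonneg_left ?_ (by positivity)
        exact mul_le_mul_of_nonneg_right (by linarith) (mul_nonneg n1 n2)
    _ = δ * (nm F x v * nm F x w) := by field_simp

omit [IsManifold (𝓡 d) ∞ X] in
/-- the coordinates of an alternating form -/
theorem alt_rep (T : (E d) [⋀^Fin 2]→L[ℝ] ℝ) (u w : E d) :
    T ![u, w] = ∑ j, ∑ k, T ![EuclideanSpace.single j (1 : ℝ), EuclideanSpace.single k (1 : ℝ)] /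
      2 * (u j * w k - w j * u k) := by
  have hexp : ∀ w : E d, w = ∑ j, w j • (EuclideanSpace.single j (1 : ℝ) : E d) := by
    intro w
    ext i
    simp [Finset.sum_apply, Pi.single_apply]
  have hl : ∀ (s : Finset (Fin d)) (u v : E d), T ![∑ j ∈ s, u j •
      (EuclideanSpace.single j (1 : ℝ) : E d), v] = ∑ j ∈ s, u j * T ![EuclideanSpace.single j (1 : ℝ), v] := by
    intro s u v
    classical
    induction s using Finset.induction_on with
    | empty =>
      have h1 := T.map_coord_zero (m := ![0, v]) 0 rfl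
      simpa using h1
    | insert j s hj ih =>
      rw [Finset.sum_insert hj, Finset.sum_insert hj, Pool.Agent.Q130.SF.alt2_add,
        Pool.Agent.Q130.SF.alt2_smul, ih]
  have h2 : ∀ u w : E d, T ![u, w] = ∑ j, ∑ k, u j * w k *
      T ![EuclideanSpace.single j (1 : ℝ), EuclideanSpace.single k (1 : ℝ)] := by
    intro u w
    conv_lhs => rw [hexp u]
    rw [hl]
    refine Finset.sum_congr rfl fun j _ => ?_
    rw [Pool.Agent.Q130.SF.alt2_swap]
    conv_lhs => rw [hexp w]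
    rw [hl, ← Finset.sum_neg_distrib, Finset.mul_sum]
    refine Finset.sum_congr rfl fun k _ => ?_
    rw [Pool.Agent.Q130.SF.alt2_swap T (EuclideanSpace.single k (1 : ℝ))]
    ring
  have h3 : T ![u, w] = (T ![u, w] - T ![w, u]) / 2 := by
    rw [Pool.Agent.Q130.SF.alt2_swap T w u]
    ring
  rw [h3, h2 u w, h2 w u, ← Finset.sum_sub_distrib, Finset.sum_div]
  refine Finset.sum_congr rfl fun j _ => ?_
  rw [← Finset.sum_sub_distrib, Finset.sum_div]
  refine Finset.sum_congr rfl fun k _ => ?_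
  ring

/-- at a point every two-form is a combination of forms `da ∧ db` -/
theorem rep_at [T2Space X] (κ : Form d X 2) (z : X) :
    ∃ (g : Fin d → X → ℝ) (B : Fin d → Fin d → ℝ), (∀ j, SmoothFun (d := d) (g j)) ∧
      ∀ v w : TangentSpace (𝓡 d) z, κ z ![v, w] = ∑ j, ∑ k, B j k *
        (dd (d := d) (g j) z v * dd (d := d) (g k) z w -
          dd (d := d) (g j) z w * dd (d := d) (g k) z v) := by
  let c := chartAt (E d) z
  have hz : z ∈ c.source := mem_chart_source (E d) z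
  have hcd : c.MDifferentiable (𝓡 d) (𝓡 d) := mdifferentiable_chart (I := 𝓡 d) z
  let A : TangentSpace (𝓡 d) z ≃L[ℝ] E d := hcd.mfderiv hz
  have hA : ∀ v, A v = mfderiv (𝓡 d) (𝓡 d) c z v := fun v => rfl
  obtain ⟨b⟩ : Nonempty (SmoothBumpFunction (𝓡 d) z) := inferInstance
  let F : X → E d := fun x => b x • c x
  have hF : ContMDiff (𝓡 d) 𝓘(ℝ, E d) ∞ F := b.contMDiff_smul (contMDiffOn_chart (I := 𝓡 d))
  have hFc : F =ᶠ[𝓝 z] c := by
    filter_upwards [b.eventuallyEq_one] with x hx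
    change b x • c x = c x
    rw [hx]
    exact one_smul ℝ (c x)
  let g : Fin d → X → ℝ := fun j x => F x j
  have hg : ∀ j, SmoothFun (d := d) (g j) := by
    intro j
    exact ((EuclideanSpace.proj (𝕜 := ℝ) j : E d →L[ℝ] ℝ).contDiff.contMDiff).comp hF
  have hcdz : MDifferentiableAt (𝓡 d) 𝓘(ℝ, E d) c z := hcd.mdifferentiableAt hz
  have hdg : ∀ j (v : TangentSpace (𝓡 d) z), dd (g j) z v = (A v) j := by
    intro j v
    have e1 : g j =ᶠ[𝓝 z] (EuclideanSpace.proj (𝕜 := ℝ) j : E d →L[ℝ] ℝ) ∘ c := by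
      filter_upwards [hFc] with x hx
      change F x j = c x j
      rw [hx]
    unfold dd
    rw [e1.mfderiv_eq, mfderiv_comp z
      ((EuclideanSpace.proj (𝕜 := ℝ) j : E d →L[ℝ] ℝ).contDiff.contMDiff.mdifferentiableAt
        (n := 1) one_ne_zero) hcdz,
      mfderiv_eq_fderiv, ContinuousLinearMap.fderiv]
    rfl
  obtain ⟨T, hT⟩ : ∃ T : (E d) [⋀^Fin 2]→L[ℝ] ℝ, T =
      ContinuousAlternatingMap.compContinuousLinearMap (κ z)
        (A.symm : E d →L[ℝ] TangentSpace (𝓡 d) z) := ⟨_, rfl⟩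
  refine ⟨g, fun j k => T ![EuclideanSpace.single j (1 : ℝ), EuclideanSpace.single k (1 : ℝ)] / 2,
    hg, fun v w => ?_⟩
  have h1 : κ z ![v, w] = T ![A v, A w] := by
    rw [hT, ContinuousAlternatingMap.compContinuousLinearMap_apply]
    congr 1
    funext i
    fin_cases i
    · exact (A.symm_apply_apply v).symm
    · exact (A.symm_apply_apply w).symm
  rw [h1, alt_rep]
  refine Finset.sum_congr rfl fun j _ => Finset.sum_congr rfl fun k _ => ?_
  rw [hdg, hdg, hdg, hdg]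

/-- every smooth two-form is approximated by sums of forms `c da ∧ db` -/
theorem rep_glob [CompactSpace X] [T2Space X] {m : ℕ} {F : X → E m}
    (hF : ContMDiff (𝓡 d) (𝓡 m) ∞ F)
    (hFi : ∀ x, Function.Injective (mfderiv (𝓡 d) (𝓡 m) F x)) {κ : Form d X 2}
    (hκ : IsSmooth κ) {δ : ℝ} (hδ : 0 < δ) :
    ∃ (ι : Type) (_ : Fintype ι) (c a b : ι → X → ℝ), (∀ i, SmoothFun (d := d) (c i)) ∧
      (∀ i, SmoothFun (d := d) (a i)) ∧ (∀ i, SmoothFun (d := d) (b i)) ∧
      ∀ (x : X) (v w : TangentSpace (𝓡 d) x), |κ x ![v, w] -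
        ∑ i, c i x * (dd (d := d) (a i) x v * dd (d := d) (b i) x w -
          dd (d := d) (a i) x w * dd (d := d) (b i) x v)| ≤ δ * (nm F x v * nm F x w) := by
  have key : ∃ u : X → ℝ, SmoothFun (d := d) u ∧ (∀ x, 0 ≤ u x ∧ u x ≤ 1) ∧
      (∀ x ∈ (univ : Set X), u x = 1) ∧
      ∃ (ι : Type) (_ : Fintype ι) (c a b : ι → X → ℝ), (∀ i, SmoothFun (d := d) (c i)) ∧
      (∀ i, SmoothFun (d := d) (a i)) ∧ (∀ i, SmoothFun (d := d) (b i)) ∧
      ∀ (x : X) (v w : TangentSpace (𝓡 d) x), |u x * κ x ![v, w] -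
        ∑ i, c i x * (dd (d := d) (a i) x v * dd (d := d) (b i) x w -
          dd (d := d) (a i) x w * dd (d := d) (b i) x v)| ≤ u x * (δ * (nm F x v * nm F x w)) := by
    refine (isCompact_univ (X := X)).induction_on (p := fun S => ∃ u : X → ℝ,
      SmoothFun (d := d) u ∧ (∀ x, 0 ≤ u x ∧ u x ≤ 1) ∧ (∀ x ∈ S, u x = 1) ∧
      ∃ (ι : Type) (_ : Fintype ι) (c a b : ι → X → ℝ), (∀ i, SmoothFun (d := d) (c i)) ∧
      (∀ i, SmoothFun (d := d) (a i)) ∧ (∀ i, SmoothFun (d := d) (b i)) ∧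
      ∀ (x : X) (v w : TangentSpace (𝓡 d) x), |u x * κ x ![v, w] -
        ∑ i, c i x * (dd (d := d) (a i) x v * dd (d := d) (b i) x w -
          dd (d := d) (a i) x w * dd (d := d) (b i) x v)| ≤
            u x * (δ * (nm F x v * nm F x w))) ?_ ?_ ?_ ?_
    · refine ⟨_, SmoothFun.const 0, fun x => ⟨le_rfl, zero_le_one⟩, fun x hx =>
        absurd hx (notMem_empty x), Fin 0, inferInstance, fun _ _ => 0, fun _ _ => 0,
        fun _ _ => 0, fun i => i.elim0, fun i => i.elim0, fun i => i.elim0, fun x v w => ?_⟩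
      simp
    · rintro s t hst ⟨u, h1, h2, h3, h4⟩
      exact ⟨u, h1, h2, fun x hx => h3 x (hst hx), h4⟩
    · rintro s t ⟨u, h1, h2, h3, ι, _, c, a, b, hc, ha, hb, h5⟩
        ⟨u', h1', h2', h3', ι', _, c', a', b', hc', ha', hb', h5'⟩
      have hv : SmoothFun (d := d) (fun x => 1 + (-1) * u x) :=
        (SmoothFun.const 1).add ((SmoothFun.const (-1)).mul h1)
      refine ⟨fun x => u x + (1 + (-1) * u x) * u' x, h1.add (hv.mul h1'), fun x => ?_,
        fun x hx => ?_, ι ⊕ ι', inferInstance,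
        Sum.elim c (fun i x => (1 + (-1) * u x) * c' i x), Sum.elim a a', Sum.elim b b', ?_, ?_,
        ?_, fun x v w => ?_⟩
      · obtain ⟨a1, a2⟩ := h2 x
        obtain ⟨b1, b2⟩ := h2' x
        constructor
        · have : 0 ≤ (1 + (-1) * u x) * u' x := mul_nonneg (by linarith) b1
          linarith
        · nlinarith
      · rcases hx with hx | hx
        · show u x + (1 + (-1) * u x) * u' x = 1
          rw [h3 x hx]
          ring
        · show u x + (1 + (-1) * u x) * u' x = 1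
          rw [h3' x hx]
          ring
      · rintro (i | i)
        · exact hc i
        · exact hv.mul (hc' i)
      · rintro (i | i)
        · exact ha i
        · exact ha' i
      · rintro (i | i)
        · exact hb i
        · exact hb' i
      · rw [Fintype.sum_sum_type]
        simp only [Sum.elim_inl, Sum.elim_inr]
        have g1 := h5 x v w
        have g2 := h5' x v w
        have a0 : 0 ≤ 1 + (-1) * u x := by linarith [(h2 x).2]
        have e3 : ∑ i, (1 + (-1) * u x) * c' i x * (dd (d := d) (a' i) x v * dd (d := d) (b' i) x w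
            - dd (d := d) (a' i) x w * dd (d := d) (b' i) x v) = (1 + (-1) * u x) *
            ∑ i, c' i x * (dd (d := d) (a' i) x v * dd (d := d) (b' i) x w
            - dd (d := d) (a' i) x w * dd (d := d) (b' i) x v) := by
          rw [Finset.mul_sum]
          refine Finset.sum_congr rfl fun i _ => ?_
          ring
        rw [e3]
        generalize ∑ i, c' i x * (dd (d := d) (a' i) x v * dd (d := d) (b' i) x w
            - dd (d := d) (a' i) x w * dd (d := d) (b' i) x v) = S' at *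
        generalize ∑ i, c i x * (dd (d := d) (a i) x v * dd (d := d) (b i) x w
            - dd (d := d) (a i) x w * dd (d := d) (b i) x v) = S at *
        have e2 : (u x + (1 + (-1) * u x) * u' x) * κ x ![v, w] - (S + (1 + (-1) * u x) * S') =
            (u x * κ x ![v, w] - S) + (1 + (-1) * u x) * (u' x * κ x ![v, w] - S') := by ring
        rw [e2]
        refine (abs_add_le _ _).trans ?_
        rw [abs_mul, abs_of_nonneg a0]
        have g3 := mul_le_mul_of_nonneg_left g2 a0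
        calc |u x * κ x ![v, w] - S| + (1 + (-1) * u x) *
              |u' x * κ x ![v, w] - S'| ≤ u x * (δ * (nm F x v * nm F x w)) +
              (1 + (-1) * u x) * (u' x * (δ * (nm F x v * nm F x w))) := add_le_add g1 g3
          _ = _ := by ring
    · intro z _
      obtain ⟨g, B, hg, hrep⟩ := rep_at κ z
      obtain ⟨τ, hτ⟩ : ∃ τ : Form d X 2, τ = ∑ j, ∑ k, B j k • dfdg (d := d) (g j) (g k) :=
        ⟨_, rfl⟩
      have hdf : ∀ j k, IsSmooth (dfdg (d := d) (g j) (g k)) := fun j k =>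
        ((Pair.gen _ _ (hg j) (hg k)).props Pool.Agent.Y484.SY.t_GEN).2.1
      have hτs : IsSmooth τ := by
        rw [hτ]
        refine IsSmooth.sum _ fun j _ => IsSmooth.sum _ fun k _ => (hdf j k).smul _
      have hτa : ∀ (x : X) (v w : TangentSpace (𝓡 d) x), τ x ![v, w] = ∑ j, ∑ k, B j k *
          (dd (d := d) (g j) x v * dd (d := d) (g k) x w -
            dd (d := d) (g j) x w * dd (d := d) (g k) x v) := by
        intro x v w
        rw [hτ, sum_apply2]
        refine Finset.sum_congr rfl fun j _ => ?_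
        rw [sum_apply2]
        refine Finset.sum_congr rfl fun k _ => ?_
        rw [← dfdg_apply]
        rfl
      have hκτ : IsSmooth (κ - τ) := by
        have h1 := hκ.add (hτs.smul (-1))
        have h2 : κ + (-1 : ℝ) • τ = κ - τ := by
          funext x
          refine ext2 fun v w => ?_
          show κ x ![v, w] + (-1 : ℝ) * τ x ![v, w] = κ x ![v, w] - τ x ![v, w]
          ring
        rwa [h2] at h1
      have hU : IsOpen {x | ClS F (0 : Form d X 2) δ (κ - τ) x} :=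
        isOpen_clS hF IsSmooth.zero hκτ δ
      have hz : z ∈ {x | ClS F (0 : Form d X 2) δ (κ - τ) x} := by
        intro v w _ _ hv hw
        have h1 : (κ - τ) z ![v, w] = κ z ![v, w] - τ z ![v, w] := rfl
        rw [h1, hrep, hτa, sub_self, abs_zero]
        exact mul_pos hδ (mul_pos (nm_pos hFi hv) (nm_pos hFi hw))
      obtain ⟨u, hu, hu01, hu1, hu0⟩ := cutoff (d := d) (D := {z}) isClosed_singleton hU
        (by rintro _ rfl; exact hz)
      refine ⟨{x | u x = 1}, mem_nhdsWithin_of_mem_nhds (hu1 z rfl), u, hu, hu01,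
        fun x hx => hx, Fin d × Fin d, inferInstance, fun i x => u x * B i.1 i.2,
        fun i => g i.1, fun i => g i.2, fun i => hu.mul (SmoothFun.const _), fun i => hg _,
        fun i => hg _, fun x v w => ?_⟩
      have e1 : ∑ i : Fin d × Fin d, u x * B i.1 i.2 *
          (dd (d := d) (g i.1) x v * dd (d := d) (g i.2) x w -
            dd (d := d) (g i.1) x w * dd (d := d) (g i.2) x v) = u x * τ x ![v, w] := by
        rw [hτa, Fintype.sum_prod_type, Finset.mul_sum]
        refine Finset.sum_congr rfl fun j _ => ?_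
        rw [Finset.mul_sum]
        refine Finset.sum_congr rfl fun k _ => ?_
        ring
      rw [e1, ← mul_sub, abs_mul, abs_of_nonneg (hu01 x).1]
      by_cases hx : x ∈ {x | ClS F (0 : Form d X 2) δ (κ - τ) x}
      · have h1 := (ClS.cl hδ.le hx) v w (fun _ => rfl) (fun _ => rfl)
        exact mul_le_mul_of_nonneg_left h1 (hu01 x).1
      · rw [(hu0 x hx).self_of_nhds, zero_mul, zero_mul]
  obtain ⟨u, -, -, hu1, ι, _, c, a, b, hc, ha, hb, h⟩ := key
  refine ⟨ι, inferInstance, c, a, b, hc, ha, hb, fun x v w => ?_⟩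
  have h1 := h x v w
  rw [hu1 x (mem_univ x), one_mul, one_mul] at h1
  exact h1

/-- **Planar null sets.**  On a compact planar null set all forms are limits of exact forms. -/
theorem approx_planar [CompactSpace X] [T2Space X] {σ κ : Form d X 2} (hκ : IsSmooth κ)
    {C : Set X} (hC : IsCompact C) (hP : PlanarNull d C) : Approx σ κ C := by
  obtain ⟨m, F, hF, -, hFi⟩ := exists_embedding_euclidean_of_compact (I := 𝓡 d) (M := X)
  refine approx_of_nm hF fun δ hδ => ?_
  obtain ⟨ι, _, c, a, b, hc, ha, hb, h⟩ := rep_glob hF hFi hκ (half_pos hδ)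
  obtain ⟨α, ρ, hex, hcl⟩ := approx_sum hF hFi hC c a b hc ha hb (fun i =>
    measure_mono_null (image_mono inter_subset_left) (hP (a i) (b i) (ha i) (hb i))) (half_pos hδ)
  refine ⟨α, ρ, hex, fun x hx v w _ _ => ?_⟩
  have h1 := h x v w
  have h2 := hcl x hx v w
  have h3 := abs_add_le (κ x ![v, w] - ∑ i, c i x * (dd (d := d) (a i) x v *
    dd (d := d) (b i) x w - dd (d := d) (a i) x w * dd (d := d) (b i) x v))
    (∑ i, c i x * (dd (d := d) (a i) x v *
    dd (d := d) (b i) x w - dd (d := d) (a i) x w * dd (d := d) (b i) x v) - ρ x ![v, w])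
  rw [sub_add_sub_cancel] at h3
  linarith

/-- on the kernels over `C` a sum of forms `c da ∧ db` with null images -/
theorem approx_null [CompactSpace X] [T2Space X] {σ κ : Form d X 2} {C : Set X}
    (hC : IsCompact C) {ι : Type} [Fintype ι] (c a b : ι → X → ℝ)
    (hc : ∀ i, SmoothFun (d := d) (c i)) (ha : ∀ i, SmoothFun (d := d) (a i))
    (hb : ∀ i, SmoothFun (d := d) (b i))
    (hnull : ∀ i, volume ((fun x => (a i x, b i x)) '' (C ∩ tsupport (c i))) = 0)
    (hrep : ∀ x ∈ C, ∀ v w : TangentSpace (𝓡 d) x, Ker σ x v → Ker σ x w → κ x ![v, w] =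
      ∑ i, c i x * (dd (d := d) (a i) x v * dd (d := d) (b i) x w -
        dd (d := d) (a i) x w * dd (d := d) (b i) x v)) : Approx σ κ C := by
  obtain ⟨m, F, hF, -, hFi⟩ := exists_embedding_euclidean_of_compact (I := 𝓡 d) (M := X)
  refine approx_of_nm hF fun δ hδ => ?_
  obtain ⟨α, ρ, hex, hcl⟩ := approx_sum hF hFi hC c a b hc ha hb hnull hδ
  refine ⟨α, ρ, hex, fun x hx v w hv hw => ?_⟩
  rw [hrep x hx v w hv hw]
  exact hcl x hx v w

/-- **Local to global.** -/
theorem approx_iff [CompactSpace X] [T2Space X] {σ κ : Form d X 2} (hσ : IsSmooth σ)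
    (hκ : IsSmooth κ) :
    Approx σ κ (Dg σ) ↔ ∀ z ∈ Dg σ, Approx σ κ (connectedComponentIn (Fib σ z) z) := by
  obtain ⟨m, F, hF, -, hFi⟩ := exists_embedding_euclidean_of_compact (I := 𝓡 d) (M := X)
  constructor
  · rintro ⟨n, h, hh, happ⟩ z -
    refine ⟨n, h, hh, fun δ hδ => ?_⟩
    obtain ⟨α, ρ, h1, h2⟩ := happ δ hδ
    exact ⟨α, ρ, h1, fun x hx => h2 x (connectedComponentIn_subset _ _ hx).1⟩
  · intro hA
    have hκ' : IsSmooth ((-1 : ℝ) • κ) := hκ.smul (-1)
    have hval : ∀ (ρ : Form d X 2) (x : X) (v w : TangentSpace (𝓡 d) x),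
        ((-1 : ℝ) • κ + ρ) x ![v, w] = -(κ x ![v, w] - ρ x ![v, w]) := by
      intro ρ x v w
      show (-1 : ℝ) * κ x ![v, w] + ρ x ![v, w] = -(κ x ![v, w] - ρ x ![v, w])
      ring
    refine approx_of_nm hF fun δ hδ => ?_
    have hfib : ∀ z ∈ Dg σ, ∃ (α : Form d X 1) (ρ : Form d X 2), Ex α ρ ∧
        ∀ x ∈ Fib σ z, ClS F σ δ ((-1 : ℝ) • κ + ρ) x := by
      intro z hz
      refine glueC hF hσ hκ' (isClosed_Fib hσ z).isCompact fun z' hz' => ?_
      obtain ⟨α, ρ, h1, h2⟩ := (hA z' hz'.1).bd hF hFi (half_pos hδ)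
      rw [Fib.eq hz'] at h2
      refine ⟨α, ρ, h1, fun x hx => ?_⟩
      refine Cl.clS (δ := δ / 2) hFi (by linarith) fun v w hv hw => ?_
      rw [hval, abs_neg]
      exact h2 x hx v w hv hw
    obtain ⟨α, ρ, hex, hcl⟩ := glueF hF hσ hκ' hδ.le hfib
    refine ⟨α, ρ, hex, fun x hx v w hv hw => ?_⟩
    have h1 := hcl x hx v w hv hw
    rw [hval, abs_neg] at h1
    exact h1

end Pool.Agent.V7H58.SF
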